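import Pool.Agent.Lib.MP_a9d022_lc.Zpp.Mix

/-! # At most half of the candidates are bad -/

set_option autoImplicit false

namespace Pool.Agent.AgpSsp

open N68a2faeb N487b59b3 Pool.Agent.SspConj Classical

variable {G : Type} [Group G] {r : ℕ}

theorem b1_ev_gen (X : Fin r → G) (i : Fin r) : ev X [((i : ℕ), false)] = X i := by
  unfold ev letter
  simp

theorem b1_mem_ys (i : Fin r) : [((i : ℕ), false)] ∈ ys r := by
  unfold ys
  refine List.mem_cons_of_mem _ ?_
  rw [List.mem_map]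
  exact ⟨(i : ℕ), List.mem_range.2 i.2, rfl⟩

theorem b1_nil_mem_ys (r : ℕ) : ([] : Wd) ∈ ys r := by
  unfold ys
  exact List.mem_cons_self

theorem b1_ys_length (r : ℕ) : (ys r).length = r + 1 := by
  unfold ys
  rw [List.length_cons, List.length_map, List.length_range]

/-- Row B1. If `(g y)² = (h y)²` for `y = 1` and the generators then `g` and `h` are equal modulo
`Cinv G` (`central_of_squares`). -/
theorem mk_eq_of_squares (X : Fin r → G) (hX : Subgroup.closure (Set.range X) = ⊤) {g h : G}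
    (H : ∀ y ∈ ys r, g * ev X y * (g * ev X y) = h * ev X y * (h * ev X y)) :
    (g : G ⧸ Cinv G) = (h : G ⧸ Cinv G) := by
  have h1 : g * g = h * h := by
    have h0 := H [] (b1_nil_mem_ys r)
    rw [ev_nil, mul_one, mul_one] at h0
    exact h0
  have h2 : ∀ i, (g * X i) * (g * X i) = (h * X i) * (h * X i) := by
    intro i
    have h0 := H _ (b1_mem_ys i)
    rw [b1_ev_gen] at h0
    exact h0
  obtain ⟨h3, h4⟩ := central_of_squares X hX h1 h2
  exact QuotientGroup.eq.2 ⟨h3, h4⟩

/-- Row B1. `ev` modulo a normal subgroup. -/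
theorem ev_mk (X : Fin r → G) (w : Wd) :
    ev (fun i => ((X i : G) : G ⧸ Cinv G)) w = ((ev X w : G) : G ⧸ Cinv G) := by
  have hl : ∀ c : ℕ × Bool, letter (fun i => ((X i : G) : G ⧸ Cinv G)) c =
      ((letter X c : G) : G ⧸ Cinv G) := by
    intro c
    unfold letter
    by_cases h : c.1 < r
    · rw [dif_pos h, dif_pos h]
      by_cases h2 : c.2 = true
      · rw [if_pos h2, if_pos h2, QuotientGroup.mk_inv]
      · rw [if_neg h2, if_neg h2]
    · rw [dif_neg h, dif_neg h, QuotientGroup.mk_one]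
  induction w with
  | nil => rfl
  | cons c w ih =>
    have e1 : ev (fun i => ((X i : G) : G ⧸ Cinv G)) (c :: w) =
        letter (fun i => ((X i : G) : G ⧸ Cinv G)) c * ev (fun i => ((X i : G) : G ⧸ Cinv G)) w := by
      unfold ev
      rw [List.map_cons, List.prod_cons]
    have e2 : ev X (c :: w) = letter X c * ev X w := by
      unfold ev
      rw [List.map_cons, List.prod_cons]
    rw [e1, e2, ih, hl, QuotientGroup.mk_mul]

theorem b1_class_le {B : Type} [Fintype B] (u : B → G) {M : ℕ}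
    (hu : ∀ g : G ⧸ Cinv G, (Finset.univ.filter fun b : B => ((u b : G) : G ⧸ Cinv G) = g).card * 2 ^ M ≤
      Fintype.card B) (S : Finset B) (g : G ⧸ Cinv G) (hS : ∀ b ∈ S, ((u b : G) : G ⧸ Cinv G) = g) :
    S.card * 2 ^ M ≤ Fintype.card B := by
  refine le_trans (Nat.mul_le_mul_right _ (Finset.card_le_card ?_)) (hu g)
  intro b hb
  rw [Finset.mem_filter]
  exact ⟨Finset.mem_univ b, hS b hb⟩

theorem b1_first (X : Fin r → G) {B : Type} [Fintype B] (u : B → G) {M m : ℕ}
    (hu : ∀ g : G ⧸ Cinv G, (Finset.univ.filter fun b : B => ((u b : G) : G ⧸ Cinv G) = g).card * 2 ^ M ≤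
      Fintype.card B) (Z₁ : Finset G) (h₁ : Z₁.card ≤ 2 ^ m) :
    (Finset.univ.filter fun b : B => ∃ y ∈ ys r, u b * ev X y ∈ Z₁).card * 2 ^ M ≤
      (r + 1) * 2 ^ m * Fintype.card B := by
  have hsub : (Finset.univ.filter fun b : B => ∃ y ∈ ys r, u b * ev X y ∈ Z₁) ⊆
      ((ys r).toFinset ×ˢ Z₁).biUnion fun q => Finset.univ.filter fun b : B => u b * ev X q.1 = q.2 := by
    intro b hb
    rw [Finset.mem_filter] at hb
    obtain ⟨_, y, hy, hz⟩ := hb
    rw [Finset.mem_biUnion]
    refine ⟨(y, u b * ev X y), ?_, ?_⟩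
    · rw [Finset.mem_product]
      exact ⟨List.mem_toFinset.2 hy, hz⟩
    · rw [Finset.mem_filter]
      exact ⟨Finset.mem_univ b, rfl⟩
  have h2 : (((ys r).toFinset ×ˢ Z₁).biUnion fun q =>
      Finset.univ.filter fun b : B => u b * ev X q.1 = q.2).card * 2 ^ M ≤
      ∑ q ∈ (ys r).toFinset ×ˢ Z₁, Fintype.card B := by
    refine le_trans (Nat.mul_le_mul_right _ Finset.card_biUnion_le) ?_
    rw [Finset.sum_mul]
    refine Finset.sum_le_sum fun q _ => ?_
    refine b1_class_le u hu _ ((q.2 * (ev X q.1)⁻¹ : G) : G ⧸ Cinv G) ?_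
    intro b hb
    rw [Finset.mem_filter] at hb
    rw [← hb.2, mul_inv_cancel_right]
  have h3 : ((ys r).toFinset ×ˢ Z₁).card ≤ (r + 1) * 2 ^ m := by
    rw [Finset.card_product]
    refine Nat.mul_le_mul ?_ h₁
    refine (List.toFinset_card_le _).trans ?_
    rw [b1_ys_length]
  refine (Nat.mul_le_mul_right _ (Finset.card_le_card hsub)).trans (h2.trans ?_)
  rw [Finset.sum_const, smul_eq_mul]
  exact Nat.mul_le_mul_right _ h3

theorem b1_second (X : Fin r → G) (hX : Subgroup.closure (Set.range X) = ⊤) {B : Type} [Fintype B]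
    (u : B → G) {M m : ℕ}
    (hu : ∀ g : G ⧸ Cinv G, (Finset.univ.filter fun b : B => ((u b : G) : G ⧸ Cinv G) = g).card * 2 ^ M ≤
      Fintype.card B) (Z₂ : Finset G) (h₂ : Z₂.card ≤ 2 ^ m) :
    (Finset.univ.filter fun b : B => ∀ y ∈ ys r, u b * ev X y * (u b * ev X y) ∈ Z₂).card * 2 ^ M ≤
      2 ^ (m * (r + 1)) * Fintype.card B := by
  let S : Finset B := Finset.univ.filter fun b : B => ∀ y ∈ ys r, u b * ev X y * (u b * ev X y) ∈ Z₂
  change S.card * 2 ^ M ≤ _
  let f : B → (Option (Fin r) → G) := fun b o =>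
    o.elim (u b * u b) fun i => (u b * X i) * (u b * X i)
  have himg : (S.image f).card ≤ 2 ^ (m * (r + 1)) := by
    have h1 : S.image f ⊆ Fintype.piFinset fun _ : Option (Fin r) => Z₂ := by
      intro v hv
      rw [Finset.mem_image] at hv
      obtain ⟨b, hb, rfl⟩ := hv
      have hb2 := (Finset.mem_filter.1 hb).2
      rw [Fintype.mem_piFinset]
      intro o
      rcases o with _ | i
      · have h3 := hb2 [] (b1_nil_mem_ys r)
        rw [ev_nil, mul_one] at h3
        exact h3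
      · have h3 := hb2 _ (b1_mem_ys i)
        rw [b1_ev_gen] at h3
        exact h3
    have h2 := Finset.card_le_card h1
    rw [Fintype.card_piFinset, Finset.prod_const, Finset.card_univ, Fintype.card_option,
      Fintype.card_fin] at h2
    refine h2.trans ?_
    rw [pow_mul]
    exact Nat.pow_le_pow_left h₂ _
  have hfib : ∀ v ∈ S.image f, (S.filter fun b => f b = v).card * 2 ^ M ≤ Fintype.card B := by
    intro v hv
    rw [Finset.mem_image] at hv
    obtain ⟨b, hb, rfl⟩ := hv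
    refine b1_class_le u hu _ ((u b : G) : G ⧸ Cinv G) ?_
    intro b' hb'
    have hf := (Finset.mem_filter.1 hb').2
    refine mk_eq_of_squares X hX ?_
    intro y hy
    unfold ys at hy
    rcases List.mem_cons.1 hy with rfl | hy
    · rw [ev_nil, mul_one, mul_one]
      exact congrFun hf none
    · rw [List.mem_map] at hy
      obtain ⟨i, hi, rfl⟩ := hy
      rw [List.mem_range] at hi
      have h5 := b1_ev_gen X ⟨i, hi⟩
      have h6 : ev X [(i, false)] = X ⟨i, hi⟩ := h5
      rw [h6]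
      exact congrFun hf (some ⟨i, hi⟩)
  have hsum : S.card = ∑ v ∈ S.image f, (S.filter fun b => f b = v).card :=
    Finset.card_eq_sum_card_image f S
  rw [hsum, Finset.sum_mul]
  refine (Finset.sum_le_sum hfib).trans ?_
  rw [Finset.sum_const, smul_eq_mul]
  exact Nat.mul_le_mul_right _ himg

/-- Row B2. Let `B` be a finite set with a map `u` to `G` such that every class modulo `Cinv G` has at
most `|B| / 2 ^ M` preimages. Then for at most half of the `b` all `u b * y`, `y ∈ ys r`, are bad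
(`Z₁`: at most `(r + 1) 2 ^ m |B| / 2 ^ M`; `Z₂`: the tuple of the squares has at most
`2 ^ (m (r + 1))` values and its fibres are in classes modulo `Cinv G`). -/
theorem bad_half (X : Fin r → G) (hX : Subgroup.closure (Set.range X) = ⊤) {B : Type} [Fintype B]
    (u : B → G) {M m : ℕ}
    (hu : ∀ g : G ⧸ Cinv G, (Finset.univ.filter fun b : B => ((u b : G) : G ⧸ Cinv G) = g).card * 2 ^ M ≤
      Fintype.card B) (Z₁ Z₂ : Finset G) (h₁ : Z₁.card ≤ 2 ^ m) (h₂ : Z₂.card ≤ 2 ^ m)
    (hM : (r + 1) * (m + 1) + 2 ≤ M) :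
    2 * (Finset.univ.filter fun b : B => ∀ y ∈ ys r,
      u b * ev X y ∈ Z₁ ∨ u b * ev X y * (u b * ev X y) ∈ Z₂).card ≤ Fintype.card B := by
  have hsub : (Finset.univ.filter fun b : B => ∀ y ∈ ys r,
      u b * ev X y ∈ Z₁ ∨ u b * ev X y * (u b * ev X y) ∈ Z₂) ⊆
      (Finset.univ.filter fun b : B => ∃ y ∈ ys r, u b * ev X y ∈ Z₁) ∪
      (Finset.univ.filter fun b : B => ∀ y ∈ ys r, u b * ev X y * (u b * ev X y) ∈ Z₂) := by
    intro b hb
    have hb2 := (Finset.mem_filter.1 hb).2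
    rw [Finset.mem_union, Finset.mem_filter, Finset.mem_filter]
    by_cases h : ∃ y ∈ ys r, u b * ev X y ∈ Z₁
    · exact Or.inl ⟨Finset.mem_univ b, h⟩
    · refine Or.inr ⟨Finset.mem_univ b, fun y hy => ?_⟩
      rcases hb2 y hy with h3 | h3
      · exact absurd ⟨y, hy, h3⟩ h
      · exact h3
  have hc := (Finset.card_le_card hsub).trans (Finset.card_union_le _ _)
  have e1 := b1_first X u hu Z₁ h₁
  have e2 := b1_second X hX u hu Z₂ h₂
  have hpos : 0 < 2 ^ M := by positivity
  refine Nat.le_of_mul_le_mul_right ?_ hpos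
  have hr : r + 1 ≤ 2 ^ r := Nat.succ_le_of_lt Nat.lt_two_pow_self
  have a1 : (r + 1) * 2 ^ m ≤ 2 ^ ((r + 1) * (m + 1)) := by
    refine (Nat.mul_le_mul_right _ hr).trans ?_
    rw [← pow_add]
    refine Nat.pow_le_pow_right (by norm_num) ?_
    nlinarith [Nat.zero_le (r * m)]
  have a2 : 2 ^ (m * (r + 1)) ≤ 2 ^ ((r + 1) * (m + 1)) := by
    refine Nat.pow_le_pow_right (by norm_num) ?_
    nlinarith [Nat.zero_le (r * m)]
  have a3 : 4 * 2 ^ ((r + 1) * (m + 1)) ≤ 2 ^ M := by
    calc 4 * 2 ^ ((r + 1) * (m + 1)) = 2 ^ ((r + 1) * (m + 1) + 2) := by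
          rw [pow_add]
          ring
      _ ≤ 2 ^ M := Nat.pow_le_pow_right (by norm_num) hM
  have a4 := Nat.mul_le_mul_right (2 ^ M) hc
  rw [Nat.add_mul] at a4
  have a5 : (r + 1) * 2 ^ m * Fintype.card B + 2 ^ (m * (r + 1)) * Fintype.card B ≤
      2 * 2 ^ ((r + 1) * (m + 1)) * Fintype.card B := by
    rw [← Nat.add_mul]
    refine Nat.mul_le_mul_right _ ?_
    omega
  have a6 : 2 * (2 * 2 ^ ((r + 1) * (m + 1)) * Fintype.card B) ≤ 2 ^ M * Fintype.card B := by
    calc 2 * (2 * 2 ^ ((r + 1) * (m + 1)) * Fintype.card B) =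
        (4 * 2 ^ ((r + 1) * (m + 1))) * Fintype.card B := by ring
      _ ≤ 2 ^ M * Fintype.card B := Nat.mul_le_mul_right _ a3
  rw [Nat.mul_assoc, Nat.mul_comm (Fintype.card B)]
  omega

end Pool.Agent.AgpSsp
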