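import Pool.Agent.Lib.MP_a9d022_lc.Agp.Count

/-! # Certified tokens -/

set_option autoImplicit false

namespace Pool.Agent.AgpSsp

variable {G : Type} [Group G] {V : Type} [DecidableEq V]

/-- The states after a choice which is not legal, for the edge `e` of the time `j`, `b` being the factor of
the time `j`: these are `T_a b`, and, for the vertices `v`, `T_v b⁻¹`, `T_v b⁻¹ D`, `T_v b⁻¹ b⁻¹ D`,
where `D = T_a⁻¹ g T_h`, `T_v` is the later token of `v`, and `a`, `h`, `g` are the tail, the head and the
label of `e`. -/
def ill (κ : V → G) (β : ℕ → G) (j : ℕ) (e : V × V × G) (es : List (V × V × G)) (vs : List V) (b : G) :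
    List G :=
  (tok κ β (j + 1) es e.1 * b) :: vs.flatMap fun v =>
    [tok κ β (j + 1) es v * b⁻¹,
      tok κ β (j + 1) es v * (b⁻¹ * ((tok κ β (j + 1) es e.1)⁻¹ * (e.2.2 * tok κ β (j + 1) es e.2.1))),
      tok κ β (j + 1) es v *
        (b⁻¹ * (b⁻¹ * ((tok κ β (j + 1) es e.1)⁻¹ * (e.2.2 * tok κ β (j + 1) es e.2.1))))]

/-- The factors `β` (and the token `c` of the end) are certified: no state after a choice which is not
legal leads to the target; `Λ` is a list whose subset products contain the labels of all paths. -/
def Cert (Λ : List G) (vs : List V) (ω : V) (c : G) (β : ℕ → G) : ℕ → List (V × V × G) → Prop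
  | _, [] => ∀ x, Sub Λ x → x * c ≠ 1
  | j, e :: es => Cert Λ vs ω c β (j + 1) es ∧ ∀ A ∈ ill (kap ω c) β j e es vs (β j), ∀ x, Sub Λ x →
      ∀ cs : List (Bool × Bool), cs.length = es.length → x * (A * val (kap ω c) β (j + 1) es cs) ≠ 1

/-- Row C1. The certificates for the times `≥ j` depend only on the `β i` with `i ≥ j` (`tok_congr`,
`val_congr`). -/
theorem cert_congr {Λ : List G} {vs : List V} {ω : V} {c : G} {β β' : ℕ → G} {j : ℕ}
    (h : ∀ i, j ≤ i → β i = β' i) (es : List (V × V × G)) : Cert Λ vs ω c β j es ↔ Cert Λ vs ω c β' j es := by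
  induction es generalizing j with
  | nil => exact Iff.rfl
  | cons e es ih =>
    have h' : ∀ i, j + 1 ≤ i → β i = β' i := fun i hi => h i (by omega)
    have hT : ∀ v, tok (kap ω c) β (j + 1) es v = tok (kap ω c) β' (j + 1) es v :=
      tok_congr (kap ω c) h' es
    have hR : ∀ cs, val (kap ω c) β (j + 1) es cs = val (kap ω c) β' (j + 1) es cs :=
      val_congr (kap ω c) h' es
    have hI : ill (kap ω c) β j e es vs (β j) = ill (kap ω c) β' j e es vs (β' j) := by
      unfold ill
      simp only [hT, h j le_rfl]
    rw [Cert, Cert, ih h', hI]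
    simp only [hR]

/-- Row C2. With certified factors every solution is a path from `v` to `ω` with the right label.
Induction on `es` (all `j`, `v`, `x`, `cs`); the cases of the first choice are those of `follow_none`. In a
legal case the label is multiplied by the label of the edge or not; otherwise the state is in `ill`. -/
theorem cert_sound {Λ : List G} {vs : List V} {ω : V} {c : G} {β : ℕ → G} {es : List (V × V × G)} {j : ℕ}
    (hC : Cert Λ vs ω c β j es) (hvs : ∀ e ∈ es, e.2.1 ∈ vs) {v : V} (hv : v ∈ vs) {x : G}
    (hx : ∀ s, Sub (es.map fun e => e.2.2) s → Sub Λ (x * s)) {cs : List (Bool × Bool)}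
    (hcs : cs.length = es.length)
    (h : x * (tok (kap ω c) β j es v * val (kap ω c) β j es cs) = 1) :
    ∃ g, follow v es cs = some (g, ω) ∧ x * g = 1 := by
  induction es generalizing j v x cs with
  | nil =>
    have hx1 : Sub Λ x := by
      have := hx 1 ((sub_nil 1).2 rfl)
      rwa [mul_one] at this
    by_cases hvω : v = ω
    · subst hvω
      refine ⟨1, rfl, ?_⟩
      simpa [tok, val, kap] using h
    · exfalso
      apply hC x hx1
      simpa [tok, val, kap, hvω] using h
  | cons e es ih =>
    cases cs with
    | nil => simp at hcs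
    | cons cc cs =>
      have hcs' : cs.length = es.length := by simpa using hcs
      have hvs' : ∀ e' ∈ es, e'.2.1 ∈ vs := fun e' he' => hvs e' (List.mem_cons_of_mem _ he')
      have hev : e.2.1 ∈ vs := hvs e List.mem_cons_self
      obtain ⟨hC1, hC2⟩ := hC
      have hx1 : Sub Λ x := by
        have := hx 1 ⟨[], List.nil_sublist _, rfl⟩
        rwa [mul_one] at this
      have hxt : ∀ s, Sub (es.map fun e => e.2.2) s → Sub Λ (x * (e.2.2 * s)) := by
        intro s hs
        apply hx
        rw [List.map_cons]
        exact (sub_cons _ _ _).2 ⟨true, s, hs, by simp⟩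
      have hxf : ∀ s, Sub (es.map fun e => e.2.2) s → Sub Λ (x * s) := by
        intro s hs
        apply hx
        rw [List.map_cons]
        exact (sub_cons _ _ _).2 ⟨false, s, hs, by simp⟩
      rw [follow]
      split_ifs with h1 h2
      · obtain ⟨rfl, rfl⟩ := h1
        simp only [val, Bool.false_eq_true, if_false, if_true, one_mul, tk] at h
        have h5 : ∀ x a b c d : G, x * (a * (a⁻¹ * (b * c) * d)) = x * b * (c * d) := by
          intro x a b c d
          group
        rw [h5] at h
        obtain ⟨g, hg1, hg2⟩ := ih (j := j + 1) hC1 hvs' hev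
          (fun s hs => by rw [mul_assoc]; exact hxt s hs) hcs' h
        refine ⟨e.2.2 * g, ?_, ?_⟩
        · rw [hg1]
          rfl
        · rw [← mul_assoc]
          exact hg2
      · subst h2
        simp only [tok, val, Bool.false_eq_true, if_false, one_mul, decide_eq_true_eq] at h
        have h6 : x * (tok (kap ω c) β (j + 1) es v * val (kap ω c) β (j + 1) es cs) = 1 := by
          by_cases h4 : v = e.1
          · simp only [h4, if_true] at h ⊢
            have h5 : ∀ x a b c : G, x * (a * b * (b⁻¹ * c)) = x * (a * c) := by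
              intro x a b c
              group
            rwa [h5] at h
          · simp only [h4, if_false, mul_one, one_mul] at h
            exact h
        exact ih (j := j + 1) hC1 hvs' hv hxf hcs' h6
      · exfalso
        have key : ∀ A, A ∈ ill (kap ω c) β j e es vs (β j) →
            x * (A * val (kap ω c) β (j + 1) es cs) ≠ 1 := fun A hA => hC2 A hA x hx1 cs hcs'
        have k0 : x * (tok (kap ω c) β (j + 1) es e.1 * β j * val (kap ω c) β (j + 1) es cs) ≠ 1 :=
          key _ List.mem_cons_self
        have kk : ∀ A, A ∈ [tok (kap ω c) β (j + 1) es v * (β j)⁻¹,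
            tok (kap ω c) β (j + 1) es v * ((β j)⁻¹ * ((tok (kap ω c) β (j + 1) es e.1)⁻¹ *
              (e.2.2 * tok (kap ω c) β (j + 1) es e.2.1))),
            tok (kap ω c) β (j + 1) es v * ((β j)⁻¹ * ((β j)⁻¹ *
              ((tok (kap ω c) β (j + 1) es e.1)⁻¹ * (e.2.2 * tok (kap ω c) β (j + 1) es e.2.1))))] →
            x * (A * val (kap ω c) β (j + 1) es cs) ≠ 1 := by
          intro A hA
          apply key A
          unfold ill
          exact List.mem_cons_of_mem _ (List.mem_flatMap.2 ⟨v, hv, hA⟩)
        have k1 := kk _ List.mem_cons_self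
        have k2 := kk _ (List.mem_cons_of_mem _ List.mem_cons_self)
        have k3 := kk _ (List.mem_cons_of_mem _ (List.mem_cons_of_mem _ List.mem_cons_self))
        obtain ⟨s, t⟩ := cc
        simp only [tok, val, tk] at h
        by_cases h4 : v = e.1
        · subst h4
          generalize tok (kap ω c) β (j + 1) es e.1 = T at h k0 k1 k2 k3
          generalize tok (kap ω c) β (j + 1) es e.2.1 = T' at h k0 k1 k2 k3
          generalize val (kap ω c) β (j + 1) es cs = R at h k0 k1 k2 k3
          generalize β j = b at h k0 k1 k2 k3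
          cases s <;> cases t
          · apply k0
            simpa using h
          · exact absurd ⟨rfl, rfl⟩ h1
          · exact absurd (by simp) h2
          · apply k2
            simp only [if_true] at h
            rw [← h]
            group
        · simp only [h4, if_false, mul_one, if_true] at h
          generalize tok (kap ω c) β (j + 1) es v = Tv at h k0 k1 k2 k3
          generalize tok (kap ω c) β (j + 1) es e.1 = T at h k0 k1 k2 k3
          generalize tok (kap ω c) β (j + 1) es e.2.1 = T' at h k0 k1 k2 k3
          generalize val (kap ω c) β (j + 1) es cs = R at h k0 k1 k2 k3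
          generalize β j = b at h k0 k1 k2 k3
          cases s <;> cases t
          · exact absurd (by simp [h4]) h2
          · apply k2
            rw [← h]
            simp only [Bool.false_eq_true, if_false, if_true]
            group
          · apply k1
            rw [← h]
            simp only [Bool.false_eq_true, if_false, if_true]
            group
          · apply k3
            rw [← h]
            simp only [if_true]
            group

theorem c2_mem {l : List G} {x : G} (h : Sub l x) : x ∈ l.sublists.map List.prod := by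
  obtain ⟨u, hu, rfl⟩ := h
  exact List.mem_map.2 ⟨u, List.mem_sublists.2 hu, rfl⟩

theorem c2_elts (κ : V → G) (β : ℕ → G) (es : List (V × V × G)) (j : ℕ) :
    (elts κ β j es).length = 2 * es.length := by
  induction es generalizing j with
  | nil => rfl
  | cons e es ih =>
    rw [elts, List.length_cons, List.length_cons, List.length_cons, ih]
    ring

open Classical in
/-- Row C3. The bad candidates: `b` is bad if some state of `ill` leads to the target. These are the `b` in a set
`Z₁`, or with `b * b` in a set `Z₂`, both with at most `2 ^ (|Λ| + 2 |es| + |vs| + 1)` elements: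
`x T_a b y = 1` gives `b = (x T_a)⁻¹ y⁻¹`, `x T_v b⁻¹ y = 1` gives `b = y x T_v`, the third type
`b = D y x T_v`, and the last one `b b = D y x T_v`; `x` is one of at most `2 ^ |Λ|` subset products, `y` one
of at most `4 ^ |es|` values. -/
theorem bad_sets (Λ : List G) (vs : List V) (ω : V) (c : G) (β : ℕ → G) (j : ℕ) (e : V × V × G)
    (es : List (V × V × G)) : ∃ Z₁ Z₂ : Finset G, Z₁.card ≤ 2 ^ (Λ.length + 2 * es.length + vs.length + 1) ∧
      Z₂.card ≤ 2 ^ (Λ.length + 2 * es.length + vs.length + 1) ∧
      ∀ b, (∃ A ∈ ill (kap ω c) β j e es vs b, ∃ x, Sub Λ x ∧ ∃ cs : List (Bool × Bool),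
        cs.length = es.length ∧ x * (A * val (kap ω c) β (j + 1) es cs) = 1) → b ∈ Z₁ ∨ b * b ∈ Z₂ := by
  obtain ⟨T, hT⟩ : ∃ T : V → G, T = tok (kap ω c) β (j + 1) es := ⟨_, rfl⟩
  obtain ⟨D, hD⟩ : ∃ D : G, D = (T e.1)⁻¹ * (e.2.2 * T e.2.1) := ⟨_, rfl⟩
  obtain ⟨PL, hPL⟩ : ∃ PL : List (G × G), PL = (Λ.sublists.map List.prod) ×ˢ
      ((elts (kap ω c) β (j + 1) es).sublists.map List.prod) := ⟨_, rfl⟩
  have hlen : PL.length = 2 ^ (Λ.length + 2 * es.length) := by
    rw [hPL, List.length_product, List.length_map, List.length_map, List.length_sublists,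
      List.length_sublists, c2_elts, ← pow_add]
  have hmem : ∀ x, Sub Λ x → ∀ cs : List (Bool × Bool), cs.length = es.length →
      (x, val (kap ω c) β (j + 1) es cs) ∈ PL := by
    intro x hx cs hcs
    rw [hPL]
    exact List.mem_product.2 ⟨c2_mem hx, c2_mem ((sub_iff _ _ _ _ _).2 ⟨cs, hcs, rfl⟩)⟩
  have hn : vs.length + 1 ≤ 2 ^ vs.length := Nat.lt_two_pow_self
  have hpow : 2 ^ (Λ.length + 2 * es.length + vs.length + 1) =
      2 ^ (Λ.length + 2 * es.length) * (2 * 2 ^ vs.length) := by
    rw [pow_succ, pow_add]
    ring
  refine ⟨(PL.map (fun p => (p.1 * T e.1)⁻¹ * p.2⁻¹) ++ vs.flatMap fun v =>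
      PL.map (fun p => p.2 * (p.1 * T v)) ++ PL.map (fun p => D * (p.2 * (p.1 * T v)))).toFinset,
    (vs.flatMap fun v => PL.map (fun p => D * (p.2 * (p.1 * T v)))).toFinset, ?_, ?_, ?_⟩
  · refine (List.toFinset_card_le _).trans ?_
    rw [List.length_append, List.length_flatMap]
    simp only [List.length_append, List.length_map, List.map_const', List.sum_replicate, smul_eq_mul, hlen]
    rw [hpow]
    calc 2 ^ (Λ.length + 2 * es.length) + vs.length * (2 ^ (Λ.length + 2 * es.length) +
          2 ^ (Λ.length + 2 * es.length)) = 2 ^ (Λ.length + 2 * es.length) * (1 + 2 * vs.length) := by ring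
      _ ≤ _ := Nat.mul_le_mul_left _ (by omega)
  · refine (List.toFinset_card_le _).trans ?_
    rw [List.length_flatMap]
    simp only [List.length_map, List.map_const', List.sum_replicate, smul_eq_mul, hlen]
    rw [hpow, mul_comm]
    exact Nat.mul_le_mul_left _ (by omega)
  · rintro b ⟨A, hA, x, hx, cs, hcs, h⟩
    have hp := hmem x hx cs hcs
    revert hp h
    generalize val (kap ω c) β (j + 1) es cs = y
    intro h hp
    unfold ill at hA
    rw [← hT, ← hD] at hA
    rcases List.mem_cons.1 hA with rfl | hA
    · left
      refine List.mem_toFinset.2 (List.mem_append_left _ (List.mem_map.2 ⟨(x, y), hp, ?_⟩))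
      show (x * T e.1)⁻¹ * y⁻¹ = b
      have h1 : b = (x * T e.1)⁻¹ * (x * (T e.1 * b * y)) * y⁻¹ := by group
      rw [h1, h, mul_one]
    · obtain ⟨v, hv, hA⟩ := List.mem_flatMap.1 hA
      simp only [List.mem_cons, List.not_mem_nil, or_false] at hA
      rcases hA with rfl | rfl | rfl
      · left
        refine List.mem_toFinset.2 (List.mem_append_right _ (List.mem_flatMap.2 ⟨v, hv,
          List.mem_append_left _ (List.mem_map.2 ⟨(x, y), hp, ?_⟩)⟩))
        show y * (x * T v) = b
        have h1 : y * (x * T v) = y * (x * (T v * b⁻¹ * y)) * y⁻¹ * b := by group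
        rw [h1, h]
        group
      · left
        refine List.mem_toFinset.2 (List.mem_append_right _ (List.mem_flatMap.2 ⟨v, hv,
          List.mem_append_right _ (List.mem_map.2 ⟨(x, y), hp, ?_⟩)⟩))
        show D * (y * (x * T v)) = b
        have h1 : D * (y * (x * T v)) = D * y * (x * (T v * (b⁻¹ * D) * y)) * y⁻¹ * D⁻¹ * b := by group
        rw [h1, h]
        group
      · right
        refine List.mem_toFinset.2 (List.mem_flatMap.2 ⟨v, hv, List.mem_map.2 ⟨(x, y), hp, ?_⟩⟩)
        show D * (y * (x * T v)) = b * b
        have h1 : D * (y * (x * T v)) =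
            D * y * (x * (T v * (b⁻¹ * (b⁻¹ * D)) * y)) * y⁻¹ * D⁻¹ * (b * b) := by group
        rw [h1, h]
        group

open Classical in
/-- Row C3. The same for the token of the end. -/
theorem bad_set0 (Λ : List G) : ∃ Z : Finset G, Z.card ≤ 2 ^ Λ.length ∧
    ∀ c, (∃ x, Sub Λ x ∧ x * c = 1) → c ∈ Z := by
  refine ⟨((Λ.sublists.map List.prod).map fun x => x⁻¹).toFinset, ?_, ?_⟩
  · refine (List.toFinset_card_le _).trans ?_
    rw [List.length_map, List.length_map, List.length_sublists]
  · rintro c ⟨x, hx, h⟩
    refine List.mem_toFinset.2 (List.mem_map.2 ⟨x, c2_mem hx, ?_⟩)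
    exact inv_eq_of_mul_eq_one_right h

end Pool.Agent.AgpSsp
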