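import Pool.Agent.Lib.MP_a9d022_lc.Agp.Adv

/-! # Zero error probabilistic polynomial time; growth modulo central involutions: definitions -/

set_option autoImplicit false

namespace Pool.Agent.AgpSsp

open N68a2faeb N487b59b3 Pool.Agent.SspConj

/-- The class ZPP (zero error, polynomial time): `A (x, a)` says whether the algorithm gives an answer on
the input `x` with the random string `a`, and `R (x, a)` is the answer. An answer is never wrong, and the
probability that there is no answer is at most 1/3. -/
def ZPP : DecisionComplexityClass :=
  { L | ∃ (p : Polynomial ℕ) (A R : (List Bool × List Bool) → Bool), IsPolyTime A ∧ IsPolyTime R ∧ ∀ x,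
      (∀ a : Fin (p.eval x.length) → Bool, A (x, List.ofFn a) = true → R (x, List.ofFn a) = L x) ∧
      3 * (Finset.univ.filter fun a : Fin (p.eval x.length) → Bool =>
          A (x, List.ofFn a) = false).card ≤ 2 ^ p.eval x.length }

/-- the subgroup of the central elements `z` with `z * z = 1` -/
def Cinv (G : Type) [Group G] : Subgroup G where
  carrier := {z | z ∈ Subgroup.center G ∧ z * z = 1}
  one_mem' := ⟨Subgroup.one_mem _, mul_one 1⟩
  mul_mem' := by
    rintro a b ⟨ha, ha'⟩ ⟨hb, hb'⟩
    refine ⟨Subgroup.mul_mem _ ha hb, ?_⟩
    have h1 : b * a = a * b := Subgroup.mem_center_iff.1 ha b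
    calc a * b * (a * b) = a * (b * a) * b := by simp only [mul_assoc]
      _ = (a * a) * (b * b) := by rw [h1]; simp only [mul_assoc]
      _ = 1 := by rw [ha', hb', mul_one]
  inv_mem' := by
    rintro a ⟨ha, ha'⟩
    refine ⟨Subgroup.inv_mem _ ha, ?_⟩
    rw [← mul_inv_rev, ha', inv_one]

instance (G : Type) [Group G] : (Cinv G).Normal where
  conj_mem := by
    rintro n ⟨hn, hn'⟩ g
    have h1 : g * n = n * g := Subgroup.mem_center_iff.1 hn g
    have h2 : g * n * g⁻¹ = n := by rw [h1, mul_inv_cancel_right]
    rw [h2]
    exact ⟨hn, hn'⟩

/-- The growth of the group modulo its central elements of order at most two is at least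
`2 ^ (n ^ c)` for some `c > 0`. -/
def FastMod {G : Type} [Group G] {r : ℕ} (X : Fin r → G) : Prop :=
  FastGrowth fun i => ((X i : G) : G ⧸ Cinv G)

/-- the words which are appended to a candidate: the empty word and the generators -/
def ys (r : ℕ) : List Wd := [] :: (List.range r).map fun i => [(i, false)]

end Pool.Agent.AgpSsp
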