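import Pool.Agent.Lib.MP_a9d022_lc.Zpp.Tape
import Pool.Agent.Lib.MP_a9d022_lc.Agp.All

/-! # Zero error: the main theorem -/

set_option autoImplicit false

namespace Pool.Agent.AgpSsp

open N68a2faeb N487b59b3 Pool.Agent.SspConj Pool.Agent.MSR Pool.Agent.MSR.En

variable {G : Type} [Group G] {r : ℕ}

/-- Row Z1: the number of elements of a filtered set does not depend on the decision procedure. -/
theorem z1_card {α : Type} [Fintype α] (p : α → Prop) (i j : DecidablePred p) :
    (@Finset.filter α p i Finset.univ).card = (@Finset.filter α p j Finset.univ).card := by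
  have h : i = j := Subsingleton.elim i j
  subst h
  rfl

/-- Row Z1. `Q` from `exists_size`; `K = Q + 1`, `R = Q + 3`, `M = (r + 1) (4 K + 1) + 2`,
`N = (M + e) ^ e`, the length of the random strings is `K * R * (N * (dic r).length)`;
`A z = (runz z).1`, `R z = ansz z`; `tape_le`, `run_correct`, `orcS_spec`, `nrm_yes`, `nrm_acyc`, `mixing`
(for the group modulo `Cinv G`), `isPolyTime_of_PT2`. -/
theorem zpp_of_red (X : Fin r → G) (hX : Subgroup.closure (Set.range X) = ⊤) (hS : SSP X ∈ P)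
    (hF : FastMod X) {L : DecisionProblem} {f : List Bool → Agi} (hf : IsPolyTime f)
    (hfL : ∀ x, IsInst r (f x) ∧ (L x = true ↔ Yes X (f x))) : L ∈ ZPP := by
  obtain ⟨Q, hQ⟩ := exists_size (r := r) hf
  obtain ⟨e, he⟩ := Mix.mixing (fun i => ((X i : G) : G ⧸ Cinv G)) hF
  obtain ⟨K, hK⟩ : ∃ K : Polynomial ℕ, ∀ m : ℕ, K.eval m = Q.eval m + 1 :=
    ⟨Q + 1, fun m => by simp⟩
  obtain ⟨R, hR⟩ : ∃ R : Polynomial ℕ, ∀ m : ℕ, R.eval m = Q.eval m + 3 :=
    ⟨Q + 3, fun m => by simp⟩
  obtain ⟨M, hM⟩ : ∃ M : Polynomial ℕ, ∀ m : ℕ, M.eval m = (r + 1) * (4 * K.eval m + 1) + 2 :=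
    ⟨(Polynomial.C r + 1) * (4 * K + 1) + 2, fun m => by simp⟩
  obtain ⟨N, hN⟩ : ∃ N : Polynomial ℕ, ∀ m : ℕ, N.eval m = (M.eval m + e) ^ e :=
    ⟨(M + Polynomial.C e) ^ e, fun m => by simp⟩
  obtain ⟨p, hp⟩ : ∃ p : Polynomial ℕ, ∀ m : ℕ, p.eval m =
      K.eval m * R.eval m * (N.eval m * (dic r).length) :=
    ⟨K * R * (N * Polynomial.C (dic r).length), fun m => by simp⟩
  refine ⟨p, fun z => (runz X f (fun n => N.eval n) (fun n => R.eval n) z).1,
    ansz X f (fun n => N.eval n) (fun n => R.eval n), isPolyTime_of_PT2 (PT.fst (PT_runz hS hf N R)),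
    isPolyTime_of_PT2 (PT_ansz hS hf N R), fun x => ⟨?_, ?_⟩⟩
  · intro a ha
    have h1 := run_correct X (orcS_spec X) (nrm_acyc (hfL x).1) (nrm r (f x)).2.1 (nrm r (f x)).2.2
      (cdt r (N.eval x.length) (R.eval x.length) (List.ofFn a)) ha
    have h2 := (nrm_yes X (hfL x).1).trans (hfL x).2.symm
    exact Bool.eq_iff_iff.2 (h1.trans h2)
  · rw [hp]
    have h3 : 3 * K.eval x.length ≤ 2 ^ R.eval x.length := by
      rw [hK, hR, pow_add]
      have := Nat.lt_two_pow_self (n := Q.eval x.length)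
      omega
    refine tape_le X hX (e := e) (fun M N h g => ?_) (orcS_spec X) (rpt (nrm r (f x)).1)
      (nrm r (f x)).2.1 (nrm r (f x)).2.2
      (by rw [hK]; exact Nat.add_le_add_right (hQ x) 1) h3 (hM x.length).ge (hN x.length).ge
    exact le_of_eq_of_le (congrArg (· * 2 ^ M) (z1_card _ _ _)) (he M N h g)

theorem agp_mem_ZPP (X : Fin r → G) (hX : Subgroup.closure (Set.range X) = ⊤) (hS : SSP X ∈ P)
    (hF : FastMod X) : AGP X ∈ ZPP ∧ (NPHard (AGP X) → NP ⊆ ZPP) := by
  refine ⟨zpp_of_red X hX hS hF (getI_polyTime r) fun x => ⟨getI_inst r x, agp_iff X x⟩, ?_⟩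
  intro hA L hL
  obtain ⟨g, hg, hgL⟩ := hA L hL
  obtain ⟨f, hf, hfL⟩ := exists_red X hg hgL
  exact zpp_of_red X hX hS hF hf hfL

/-- Every element is in a ball. -/
theorem y1_mem_ball (X : Fin r → G) (hX : Subgroup.closure (Set.range X) = ⊤) (g : G) :
    ∃ C, g ∈ Ball X C := by
  have hg : g ∈ Subgroup.closure (Set.range X) := by
    rw [hX]
    exact Subgroup.mem_top g
  induction hg using Subgroup.closure_induction with
  | mem x hx =>
    obtain ⟨i, rfl⟩ := hx
    refine ⟨1, mem_ball.2 ⟨[(i, false)], le_rfl, ?_⟩⟩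
    unfold lval
    simp
  | one => exact ⟨0, one_mem_ball X 0⟩
  | mul a b _ _ ha hb =>
    obtain ⟨C, hC⟩ := ha
    obtain ⟨D, hD⟩ := hb
    exact ⟨C + D, mul_mem_ball hC hD⟩
  | inv a _ ha =>
    obtain ⟨C, hC⟩ := ha
    exact ⟨C, inv_mem_ball hC⟩

/-- The words of length `m` in `x` and `y` are in the ball of radius `m * C`. -/
theorem y1_word_mem (X : Fin r → G) {x y : G} {C : ℕ} (hx : x ∈ Ball X C) (hy : y ∈ Ball X C)
    (w : List Bool) : (w.map fun b => if b then x else y).prod ∈ Ball X (w.length * C) := by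
  induction w with
  | nil =>
    simpa using one_mem_ball X 0
  | cons b w ih =>
    have h1 : (if b then x else y) ∈ Ball X C := by
      cases b
      · simpa using hy
      · simpa using hx
    have h2 := mul_mem_ball h1 ih
    rw [List.map_cons, List.prod_cons]
    refine ball_mono X ?_ h2
    rw [List.length_cons, Nat.succ_mul]
    omega

/-- The image of a ball in the quotient is in the ball of the quotient. -/
theorem y1_map_mem (X : Fin r → G) {N : ℕ} {g : G} (hg : g ∈ Ball X N) :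
    ((g : G) : G ⧸ Cinv G) ∈ Ball (fun i => ((X i : G) : G ⧸ Cinv G)) N := by
  obtain ⟨l, hl, rfl⟩ := mem_ball.1 hg
  refine mem_ball.2 ⟨l, hl, ?_⟩
  clear hl hg
  induction l with
  | nil => rfl
  | cons c l ih =>
    have h1 : lval X (c :: l) = (if c.2 then (X c.1)⁻¹ else X c.1) * lval X l := by
      unfold lval
      rw [List.map_cons, List.prod_cons]
    have h2 : lval (fun i => ((X i : G) : G ⧸ Cinv G)) (c :: l) =
        (if c.2 then (((X c.1 : G) : G ⧸ Cinv G))⁻¹ else ((X c.1 : G) : G ⧸ Cinv G)) *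
          lval (fun i => ((X i : G) : G ⧸ Cinv G)) l := by
      unfold lval
      rw [List.map_cons, List.prod_cons]
    rw [h1, h2, ← ih, QuotientGroup.mk_mul]
    congr 1
    rcases c with ⟨i, b⟩
    cases b <;> simp

/-- Elements which agree modulo `Cinv G` have the same square. -/
theorem y1_sq {g h : G} (e : ((g : G) : G ⧸ Cinv G) = ((h : G) : G ⧸ Cinv G)) : g * g = h * h := by
  have h1 : g⁻¹ * h ∈ Cinv G := QuotientGroup.eq.1 e
  obtain ⟨hz, hz2⟩ := h1
  have h2 : h = g * (g⁻¹ * h) := by rw [mul_inv_cancel_left]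
  generalize g⁻¹ * h = z at hz hz2 h2
  have h3 : g * z = z * g := Subgroup.mem_center_iff.1 hz g
  rw [h2]
  calc g * g = g * g * (z * z) := by rw [hz2, mul_one]
    _ = g * (g * z) * z := by simp only [mul_assoc]
    _ = g * (z * g) * z := by rw [h3]
    _ = g * z * (g * z) := by simp only [mul_assoc]

/-- Row Y1. A free submonoid of rank two survives modulo `Cinv G`: if `g = h z`, `z` central, `z z = 1`, then
`g g = h h`, and the words `w w`, `w' w'` are equal only if `w = w'`. The `2 ^ m` words of length `m` are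
in the ball of radius `m * C`. -/
theorem fastMod_of_free (X : Fin r → G) (hX : Subgroup.closure (Set.range X) = ⊤) {x y : G}
    (hxy : FreePair x y) : FastMod X := by
  obtain ⟨C, hC⟩ := y1_mem_ball X hX x
  obtain ⟨D, hD⟩ := y1_mem_ball X hX y
  have hx : x ∈ Ball X (C + D) := ball_mono X (Nat.le_add_right C D) hC
  have hy : y ∈ Ball X (C + D) := ball_mono X (Nat.le_add_left D C) hD
  refine ⟨C + D + 2, fun m hm => ?_⟩
  let f : (Fin m → Bool) → G ⧸ Cinv G := fun b =>
    ((((List.ofFn b).map fun b => if b then x else y).prod : G) : G ⧸ Cinv G)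
  have hf : Function.Injective f := by
    intro b c hbc
    exact FreePair.sq hxy (y1_sq hbc)
  have hsub : Set.range f ⊆ Ball (fun i => ((X i : G) : G ⧸ Cinv G)) (m ^ (C + D + 2)) := by
    rintro _ ⟨b, rfl⟩
    have h1 := y1_word_mem X hx hy (List.ofFn b)
    rw [List.length_ofFn] at h1
    refine ball_mono _ ?_ (y1_map_mem X h1)
    have h2 : m * (C + D) ≤ m * m := Nat.mul_le_mul_left m (by omega)
    have h3 : m ^ 2 ≤ m ^ (C + D + 2) := Nat.pow_le_pow_right (by omega) (by omega)
    calc m * (C + D) ≤ m * m := h2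
      _ = m ^ 2 := by rw [pow_two]
      _ ≤ m ^ (C + D + 2) := h3
  have h4 : (Set.range f).ncard = 2 ^ m := by
    rw [← Set.image_univ, Set.ncard_image_of_injective _ hf, Set.ncard_univ, Nat.card_eq_fintype_card]
    simp
  rw [← h4]
  exact Set.ncard_le_ncard hsub (ball_finite _ _).1

theorem y2_prod (X : Fin r → G) (l : List (Fin r × Bool)) :
    (l.map fun c => if c.2 then (((X c.1 : G) : G ⧸ Cinv G))⁻¹ else ((X c.1 : G) : G ⧸ Cinv G)).prod =
      (((l.map fun c => if c.2 then (X c.1)⁻¹ else X c.1).prod : G) : G ⧸ Cinv G) := by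
  induction l with
  | nil => rfl
  | cons a l ih =>
    rw [List.map_cons, List.prod_cons, ih, List.map_cons, List.prod_cons, QuotientGroup.mk_mul]
    congr 1
    by_cases h : a.2 = true
    · rw [if_pos h, if_pos h, QuotientGroup.mk_inv]
    · rw [if_neg h, if_neg h]

theorem y2_image (X : Fin r → G) (N : ℕ) :
    (fun g : G => (g : G ⧸ Cinv G)) '' Ball X N ⊆
      Ball (fun i => ((X i : G) : G ⧸ Cinv G)) N := by
  rintro _ ⟨g, ⟨l, hl, rfl⟩, rfl⟩
  exact ⟨l, hl, (y2_prod X l).symm⟩

theorem y2_card (X : Fin r → G) (hW : (Cinv G : Set G).Finite) (N : ℕ) :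
    (Ball X N).ncard ≤ (Cinv G : Set G).ncard *
      (Ball (fun i => ((X i : G) : G ⧸ Cinv G)) N).ncard := by
  classical
  have hB : (Ball X N).Finite := (ball_finite X N).1
  have hB' : (Ball (fun i => ((X i : G) : G ⧸ Cinv G)) N).Finite := (ball_finite _ N).1
  have h1 : hB.toFinset.card ≤ hW.toFinset.card *
      (hB.toFinset.image fun g : G => (g : G ⧸ Cinv G)).card := by
    apply Finset.card_le_mul_card_image
    intro a ha
    obtain ⟨x0, hx0, rfl⟩ := Finset.mem_image.1 ha
    apply Finset.card_le_card_of_injOn (fun x => x0⁻¹ * x)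
    · intro x hx
      have h2 := (Finset.mem_filter.1 (Finset.mem_coe.1 hx)).2
      exact Finset.mem_coe.2 (hW.mem_toFinset.2 (QuotientGroup.eq.1 h2.symm))
    · intro x _ y _ h
      exact mul_left_cancel h
  have h3 : (hB.toFinset.image fun g : G => (g : G ⧸ Cinv G)).card ≤
      (Ball (fun i => ((X i : G) : G ⧸ Cinv G)) N).ncard := by
    rw [Set.ncard_eq_toFinset_card _ hB']
    apply Finset.card_le_card
    intro y hy
    obtain ⟨x, hx, rfl⟩ := Finset.mem_image.1 hy
    exact hB'.mem_toFinset.2 (y2_image X N ⟨x, hB.mem_toFinset.1 hx, rfl⟩)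
  rw [Set.ncard_eq_toFinset_card _ hB, Set.ncard_eq_toFinset_card _ hW]
  exact h1.trans (Nat.mul_le_mul_left _ h3)

/-- Row Y2. If there are only finitely many central involutions, then the growth modulo them is as fast:
the fibres of the map from the ball to its image have at most `|Cinv G|` elements. -/
theorem fastMod_of_finite (X : Fin r → G) (hF : FastGrowth X) (hW : (Cinv G : Set G).Finite) :
    FastMod X := by
  obtain ⟨k, hk⟩ := hF
  set s := (Cinv G : Set G).ncard with hs
  refine ⟨2 * k + s + 2, fun m hm => ?_⟩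
  have h1 := hk (m + s) (by omega)
  have h2 := y2_card X hW ((m + s) ^ k)
  have h3 : s ≤ 2 ^ s := Nat.lt_two_pow_self.le
  have h4 : 2 ^ s * 2 ^ m ≤ 2 ^ s *
      (Ball (fun i => ((X i : G) : G ⧸ Cinv G)) ((m + s) ^ k)).ncard := by
    calc 2 ^ s * 2 ^ m = 2 ^ (m + s) := by rw [← pow_add, Nat.add_comm]
      _ ≤ (Ball X ((m + s) ^ k)).ncard := h1
      _ ≤ _ := h2
      _ ≤ _ := Nat.mul_le_mul_right _ h3
  have h5 := Nat.le_of_mul_le_mul_left h4 (by positivity)
  refine h5.trans (Set.ncard_le_ncard (ball_mono _ ?_) (ball_finite _ _).1)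
  have h6 : m + s ≤ m ^ 2 := by nlinarith
  calc (m + s) ^ k ≤ (m ^ 2) ^ k := Nat.pow_le_pow_left h6 k
    _ = m ^ (2 * k) := by rw [← pow_mul]
    _ ≤ m ^ (2 * k + s + 2) := Nat.pow_le_pow_right (by omega) (by omega)

end Pool.Agent.AgpSsp
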