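import Mathlib

/-! # The space of the finitely supported functions on a group with the `ℓ²` norm -/

set_option autoImplicit false

namespace Pool.Agent.AgpSsp.Mix

/-- finitely supported functions on `Γ` -/
def Fs (Γ : Type) : Type := Γ →₀ ℝ

noncomputable instance (Γ : Type) : AddCommGroup (Fs Γ) := inferInstanceAs (AddCommGroup (Γ →₀ ℝ))

noncomputable instance (Γ : Type) : Module ℝ (Fs Γ) := inferInstanceAs (Module ℝ (Γ →₀ ℝ))

instance (Γ : Type) : CoeFun (Fs Γ) (fun _ => Γ → ℝ) := ⟨fun f => (show Γ →₀ ℝ from f)⟩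

/-- the sum over a larger set -/
theorem f1_sum {Γ : Type} (f g : Γ →₀ ℝ) (s : Finset Γ) (h : f.support ⊆ s) :
    Finsupp.sum f (fun x a => a * g x) = ∑ x ∈ s, f x * g x :=
  Finsupp.sum_of_support_subset f h _ (fun _ _ => zero_mul _)

/-- the sum is symmetric -/
theorem f1_symm {Γ : Type} (f g : Γ →₀ ℝ) :
    Finsupp.sum f (fun x a => a * g x) = Finsupp.sum g (fun x a => a * f x) := by
  classical
  rw [f1_sum f g (f.support ∪ g.support) Finset.subset_union_left,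
    f1_sum g f (f.support ∪ g.support) Finset.subset_union_right]
  exact Finset.sum_congr rfl fun x _ => mul_comm _ _

theorem f1_nonneg {Γ : Type} (f : Γ →₀ ℝ) : 0 ≤ Finsupp.sum f (fun x a => a * f x) := by
  rw [f1_sum f f f.support le_rfl]
  exact Finset.sum_nonneg fun x _ => mul_self_nonneg _

theorem f1_add {Γ : Type} (f g h : Γ →₀ ℝ) : Finsupp.sum (f + g) (fun x a => a * h x) =
    Finsupp.sum f (fun x a => a * h x) + Finsupp.sum g (fun x a => a * h x) := by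
  classical
  exact Finsupp.sum_add_index' (fun _ => zero_mul _) (fun _ _ _ => add_mul _ _ _)

theorem f1_smul {Γ : Type} (f g : Γ →₀ ℝ) (r : ℝ) : Finsupp.sum (r • f) (fun x a => a * g x) =
    r * Finsupp.sum f (fun x a => a * g x) := by
  rw [Finsupp.sum_smul_index (fun _ => zero_mul _), Finsupp.mul_sum]
  exact Finset.sum_congr rfl fun x _ => mul_assoc _ _ _

theorem f1_definite {Γ : Type} (f : Γ →₀ ℝ) (h : Finsupp.sum f (fun x a => a * f x) = 0) :
    f = 0 := by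
  rw [f1_sum f f f.support le_rfl,
    Finset.sum_eq_zero_iff_of_nonneg (fun x _ => mul_self_nonneg _)] at h
  ext x
  by_cases hx : x ∈ f.support
  · exact mul_self_eq_zero.1 (h x hx)
  · exact Finsupp.notMem_support_iff.1 hx

/-- Row F1. The inner product `∑ f x g x`. -/
noncomputable def Fs.core (Γ : Type) : InnerProductSpace.Core ℝ (Fs Γ) where
  inner f g := Finsupp.sum (show Γ →₀ ℝ from f) fun x a => a * g x
  conj_inner_symm := by
    intro f g
    exact f1_symm (Γ := Γ) g f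
  re_inner_nonneg := by
    intro f
    exact f1_nonneg (Γ := Γ) f
  add_left := by
    intro f g h
    exact f1_add (Γ := Γ) f g h
  smul_left := by
    intro f g r
    exact f1_smul (Γ := Γ) f g r
  definite := by
    intro f h
    exact f1_definite (Γ := Γ) f h

noncomputable instance (Γ : Type) : NormedAddCommGroup (Fs Γ) :=
  @InnerProductSpace.Core.toNormedAddCommGroup ℝ (Fs Γ) _ _ _ (Fs.core Γ)

noncomputable instance (Γ : Type) : InnerProductSpace ℝ (Fs Γ) :=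
  InnerProductSpace.ofCore (Fs.core Γ).toCore

/-- Row F1. -/
theorem Fs.norm_sq {Γ : Type} (f : Fs Γ) :
    ‖f‖ ^ 2 = Finsupp.sum (show Γ →₀ ℝ from f) fun _ a => a * a := by
  have h := real_inner_self_eq_norm_sq f
  rw [← h]
  rfl

/-- the point mass -/
noncomputable def Fs.pt {Γ : Type} (g : Γ) : Fs Γ := Finsupp.single g (1 : ℝ)

variable {Γ : Type} [Group Γ]

/-- Row F2. left translation: `(tr g f) x = f (g⁻¹ x)` -/
noncomputable def tr (g : Γ) : Fs Γ →ₗᵢ[ℝ] Fs Γ where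
  toFun f := Finsupp.mapDomain (fun x => g * x) (show Γ →₀ ℝ from f)
  map_add' := by
    intro a b
    exact Finsupp.mapDomain_add (v₁ := (show Γ →₀ ℝ from a)) (v₂ := (show Γ →₀ ℝ from b))
  map_smul' := by
    intro c a
    exact Finsupp.mapDomain_smul c (show Γ →₀ ℝ from a)
  norm_map' := by
    intro f
    have h : ‖(show Fs Γ from Finsupp.mapDomain (fun x => g * x) (show Γ →₀ ℝ from f))‖ ^ 2 =
        ‖f‖ ^ 2 := by
      rw [Fs.norm_sq, Fs.norm_sq]
      exact Finsupp.sum_mapDomain_index_inj (f := fun x : Γ => g * x)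
        (s := (show Γ →₀ ℝ from f)) (h := fun _ a => a * a) (mul_right_injective g)
    have h2 := (sq_eq_sq₀ (norm_nonneg _) (norm_nonneg _)).1 h
    exact h2

/-- Row F2. -/
theorem tr_apply (g x : Γ) (f : Fs Γ) : (tr g f) x = f (g⁻¹ * x) := by
  have h := Finsupp.mapDomain_apply (f := fun x : Γ => g * x) (mul_right_injective g)
    (show Γ →₀ ℝ from f) (g⁻¹ * x)
  rw [mul_inv_cancel_left] at h
  exact h

/-- Row F2. -/
theorem tr_mul (g h : Γ) (f : Fs Γ) : tr (g * h) f = tr g (tr h f) := by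
  have h1 := Finsupp.mapDomain_comp (v := (show Γ →₀ ℝ from f)) (f := fun x : Γ => h * x)
    (g := fun x : Γ => g * x)
  have h2 : ((fun x : Γ => g * x) ∘ fun x : Γ => h * x) = fun x : Γ => g * h * x := by
    funext x
    exact (mul_assoc g h x).symm
  rw [h2] at h1
  exact h1

/-- Row F2. -/
theorem tr_one (f : Fs Γ) : tr (1 : Γ) f = f := by
  have h1 := Finsupp.mapDomain_id (v := (show Γ →₀ ℝ from f))
  have h2 : (fun x : Γ => (1 : Γ) * x) = id := by
    funext x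
    exact one_mul x
  rw [← h2] at h1
  exact h1

/-- a probability distribution -/
def IsProb (f : Fs Γ) : Prop :=
  (∀ x, 0 ≤ f x) ∧ Finsupp.sum (show Γ →₀ ℝ from f) (fun _ a => a) = 1

omit [Group Γ] in
theorem f3_norm_sq (f : Fs Γ) :
    ‖f‖ ^ 2 = ∑ x ∈ (show Γ →₀ ℝ from f).support, f x * f x := by
  rw [Fs.norm_sq]
  rfl

/-- Row F3. `0 ≤ f x ≤ ‖f‖`. -/
theorem le_norm (f : Fs Γ) (x : Γ) : f x ≤ ‖f‖ := by
  by_cases hx : x ∈ (show Γ →₀ ℝ from f).support
  · have h1 : f x * f x ≤ ‖f‖ ^ 2 := by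
      rw [f3_norm_sq]
      exact Finset.single_le_sum (f := fun x => f x * f x) (fun y _ => mul_self_nonneg _) hx
    have h2 : f x ^ 2 ≤ ‖f‖ ^ 2 := by
      rw [sq]
      exact h1
    exact (abs_le_of_sq_le_sq' h2 (norm_nonneg f)).2
  · have h1 : f x = 0 := Finsupp.notMem_support_iff.1 hx
    rw [h1]
    exact norm_nonneg f

/-- Row F3. -/
theorem prob_pt (g : Γ) : IsProb (Fs.pt g) ∧ ‖Fs.pt g‖ = 1 := by
  classical
  refine ⟨⟨fun x => ?_, ?_⟩, ?_⟩
  · have h1 : (Fs.pt g) x = if g = x then (1 : ℝ) else 0 := Finsupp.single_apply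
    rw [h1]
    split_ifs
    · exact zero_le_one
    · exact le_rfl
  · exact Finsupp.sum_single_index rfl
  · have h1 : ‖Fs.pt g‖ ^ 2 = 1 := by
      rw [Fs.norm_sq]
      have h2 : Finsupp.sum (Finsupp.single g (1 : ℝ)) (fun _ a => a * a) = 1 * 1 :=
        Finsupp.sum_single_index (by ring)
      rw [one_mul] at h2
      exact h2
    exact (pow_eq_one_iff_of_nonneg (norm_nonneg _) two_ne_zero).1 h1

omit [Group Γ] in
theorem f3_sum_le {f : Fs Γ} (hf : IsProb f) {ι : Type} (A : Finset ι) (φ : ι → Γ)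
    (hφ : Set.InjOn φ (A : Set ι)) : ∑ i ∈ A, f (φ i) ≤ 1 := by
  classical
  have h1 : ∑ i ∈ A, f (φ i) = ∑ y ∈ A.image φ, f y :=
    (Finset.sum_image (f := fun y => f y) (fun i hi j hj h => hφ hi hj h)).symm
  rw [h1]
  have h2 : ∑ y ∈ A.image φ, f y ≤ ∑ y ∈ A.image φ ∪ (show Γ →₀ ℝ from f).support, f y :=
    Finset.sum_le_sum_of_subset_of_nonneg Finset.subset_union_left fun y _ _ => hf.1 y
  have h3 : ∑ y ∈ (show Γ →₀ ℝ from f).support, f y =
      ∑ y ∈ A.image φ ∪ (show Γ →₀ ℝ from f).support, f y :=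
    Finset.sum_subset Finset.subset_union_right fun y _ hy => Finsupp.notMem_support_iff.1 hy
  rw [← h3] at h2
  exact h2.trans (le_of_eq hf.2)

theorem f3_avg (f : Fs Γ) (S : Finset Γ) (x : Γ) :
    (((S.card : ℝ)⁻¹) • ∑ g ∈ S, tr g f) x = (S.card : ℝ)⁻¹ * ∑ g ∈ S, f (g⁻¹ * x) := by
  have h1 : ∀ T : Finset Γ, (∑ g ∈ T, tr g f : Fs Γ) x = ∑ g ∈ T, f (g⁻¹ * x) := by
    classical
    intro T
    induction T using Finset.induction_on with
    | empty => rfl
    | insert a T ha ih =>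
      rw [Finset.sum_insert ha, Finset.sum_insert ha, ← ih, ← tr_apply]
      rfl
  rw [← h1]
  rfl

/-- Row F3. The average of the translates of a probability distribution `f` over a finite set `S`: its
values are at most `1 / |S|` (the points `g⁻¹ x`, `g ∈ S`, are different and the sum of `f` is one), and its
sum is one, so its norm is at most `|S|^(-1/2)`. -/
theorem norm_avg (f : Fs Γ) (hf : IsProb f) (S : Finset Γ) (hS : S.Nonempty) :
    ‖((S.card : ℝ)⁻¹) • ∑ g ∈ S, tr g f‖ ^ 2 * S.card ≤ 1 := by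
  have hc : (0 : ℝ) < S.card := by exact_mod_cast hS.card_pos
  rw [f3_norm_sq]
  set U := (show Γ →₀ ℝ from (((S.card : ℝ)⁻¹) • ∑ g ∈ S, tr g f)).support with hU
  have h0 : ∀ x, 0 ≤ (((S.card : ℝ)⁻¹) • ∑ g ∈ S, tr g f) x := by
    intro x
    rw [f3_avg]
    exact mul_nonneg (inv_nonneg.2 hc.le) (Finset.sum_nonneg fun g _ => hf.1 _)
  have h1 : ∀ x, (((S.card : ℝ)⁻¹) • ∑ g ∈ S, tr g f) x ≤ (S.card : ℝ)⁻¹ := by
    intro x
    rw [f3_avg]
    have h2 := f3_sum_le hf S (fun g => g⁻¹ * x) (fun a _ b _ hab => by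
      simpa using hab)
    calc (S.card : ℝ)⁻¹ * ∑ g ∈ S, f (g⁻¹ * x) ≤ (S.card : ℝ)⁻¹ * 1 :=
          mul_le_mul_of_nonneg_left h2 (inv_nonneg.2 hc.le)
      _ = _ := mul_one _
  have h3 : ∑ x ∈ U, (((S.card : ℝ)⁻¹) • ∑ g ∈ S, tr g f) x ≤ 1 := by
    have h4 : ∑ x ∈ U, (((S.card : ℝ)⁻¹) • ∑ g ∈ S, tr g f) x =
        (S.card : ℝ)⁻¹ * ∑ g ∈ S, ∑ x ∈ U, f (g⁻¹ * x) := by
      rw [Finset.sum_comm, Finset.mul_sum]
      exact Finset.sum_congr rfl fun x _ => f3_avg f S x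
    rw [h4]
    have h5 : ∑ g ∈ S, ∑ x ∈ U, f (g⁻¹ * x) ≤ ∑ _g ∈ S, (1 : ℝ) :=
      Finset.sum_le_sum fun g _ => f3_sum_le hf U (fun x => g⁻¹ * x) (fun a _ b _ hab => by
        simpa using hab)
    rw [Finset.sum_const, nsmul_eq_mul, mul_one] at h5
    calc (S.card : ℝ)⁻¹ * ∑ g ∈ S, ∑ x ∈ U, f (g⁻¹ * x) ≤ (S.card : ℝ)⁻¹ * S.card :=
          mul_le_mul_of_nonneg_left h5 (inv_nonneg.2 hc.le)
      _ = 1 := inv_mul_cancel₀ hc.ne'
  have h6 : ∑ x ∈ U, (((S.card : ℝ)⁻¹) • ∑ g ∈ S, tr g f) x *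
      (((S.card : ℝ)⁻¹) • ∑ g ∈ S, tr g f) x ≤
      ∑ x ∈ U, (S.card : ℝ)⁻¹ * (((S.card : ℝ)⁻¹) • ∑ g ∈ S, tr g f) x :=
    Finset.sum_le_sum fun x _ => mul_le_mul_of_nonneg_right (h1 x) (h0 x)
  rw [← Finset.mul_sum] at h6
  have h7 := h6.trans (mul_le_mul_of_nonneg_left h3 (inv_nonneg.2 hc.le))
  rw [mul_one] at h7
  calc _ ≤ (S.card : ℝ)⁻¹ * S.card := mul_le_mul_of_nonneg_right h7 hc.le
    _ = 1 := inv_mul_cancel₀ hc.ne'

end Pool.Agent.AgpSsp.Mix
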