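import Mathlib

/-! # Averages of isometries -/

set_option autoImplicit false

namespace Pool.Agent.AgpSsp.Mix

variable {H : Type} [NormedAddCommGroup H] [InnerProductSpace ℝ H]

/-- the average of `f` and `T f` -/
noncomputable def hlf (T : H →ₗᵢ[ℝ] H) (f : H) : H := (2 : ℝ)⁻¹ • (f + T f)

/-- the composition of the averages, the last one of the list is applied first -/
noncomputable def hlfs : List (H →ₗᵢ[ℝ] H) → H → H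
  | [], f => f
  | T :: l, f => hlf T (hlfs l f)

/-- Row H1. Parallelogram law (`‖T f‖ = ‖f‖`): `‖(f + T f) / 2‖² = ‖f‖² - ‖f - T f‖² / 4`. -/
theorem hlf_drop (T : H →ₗᵢ[ℝ] H) (f : H) :
    ‖hlf T f‖ ^ 2 = ‖f‖ ^ 2 - ‖f - T f‖ ^ 2 / 4 := by
  have h1 := parallelogram_law_with_norm ℝ f (T f)
  rw [T.norm_map] at h1
  have h2 : ‖hlf T f‖ = 2⁻¹ * ‖f + T f‖ := by
    unfold hlf
    rw [norm_smul, Real.norm_of_nonneg (by norm_num)]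
  rw [h2]
  nlinarith [h1]

/-- Row H1. `f - hlf T f = (f - T f) / 2`. -/
theorem hlf_sub (T : H →ₗᵢ[ℝ] H) (f : H) : ‖f - hlf T f‖ ^ 2 = ‖f‖ ^ 2 - ‖hlf T f‖ ^ 2 := by
  have h1 : f - hlf T f = (2 : ℝ)⁻¹ • (f - T f) := by
    unfold hlf
    have h2 : f = (2 : ℝ)⁻¹ • (f + f) := by
      rw [← two_smul ℝ f, smul_smul]
      norm_num
    rw [smul_sub, smul_add]
    nth_rewrite 1 [h2]
    rw [smul_add]
    abel
  rw [h1, norm_smul, Real.norm_of_nonneg (by norm_num), hlf_drop]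
  ring

theorem h1_aux {a b D d n : ℝ} (ha : 0 ≤ a) (hb : 0 ≤ b) (hD : 0 ≤ D) (hd : 0 ≤ d) (hn : 0 ≤ n)
    (h1 : a ^ 2 ≤ n * D) (h2 : b ^ 2 ≤ d) : (a + b) ^ 2 ≤ (n + 1) * (D + d) := by
  have h3 : (2 * (a * b)) ^ 2 ≤ (D + n * d) ^ 2 := by
    calc (2 * (a * b)) ^ 2 = 4 * (a ^ 2 * b ^ 2) := by ring
      _ ≤ 4 * (n * D * d) := by
        apply mul_le_mul_of_nonneg_left _ (by norm_num)
        exact mul_le_mul h1 h2 (sq_nonneg b) (mul_nonneg hn hD)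
      _ = (D + n * d) ^ 2 - (D - n * d) ^ 2 := by ring
      _ ≤ (D + n * d) ^ 2 := sub_le_self _ (sq_nonneg _)
  have h4 : 2 * (a * b) ≤ D + n * d :=
    le_of_sq_le_sq h3 (add_nonneg hD (mul_nonneg hn hd))
  calc (a + b) ^ 2 = a ^ 2 + b ^ 2 + 2 * (a * b) := by ring
    _ ≤ n * D + d + (D + n * d) := add_le_add (add_le_add h1 h2) h4
    _ = (n + 1) * (D + d) := by ring

/-- Row H1. Induction on `l`: with `f' = hlfs l f`, `D' = ‖f‖² - ‖f'‖²`, `d = ‖f'‖² - ‖hlf T f'‖²`: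
`‖f - hlf T f'‖ ≤ ‖f - f'‖ + ‖f' - hlf T f'‖ ≤ √(n D') + √d ≤ √((n + 1) (D' + d))`. -/
theorem hlfs_sub (l : List (H →ₗᵢ[ℝ] H)) (f : H) :
    0 ≤ ‖f‖ ^ 2 - ‖hlfs l f‖ ^ 2 ∧ ‖f - hlfs l f‖ ^ 2 ≤ l.length * (‖f‖ ^ 2 - ‖hlfs l f‖ ^ 2) := by
  induction l with
  | nil =>
    show 0 ≤ ‖f‖ ^ 2 - ‖f‖ ^ 2 ∧ ‖f - f‖ ^ 2 ≤ _ * (‖f‖ ^ 2 - ‖f‖ ^ 2)
    simp
  | cons T l ih =>
    obtain ⟨h1, h2⟩ := ih
    show 0 ≤ ‖f‖ ^ 2 - ‖hlf T (hlfs l f)‖ ^ 2 ∧ ‖f - hlf T (hlfs l f)‖ ^ 2 ≤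
      ((T :: l).length : ℝ) * (‖f‖ ^ 2 - ‖hlf T (hlfs l f)‖ ^ 2)
    generalize hlfs l f = f' at h1 h2
    have h3 := hlf_sub T f'
    have h4 : 0 ≤ ‖f'‖ ^ 2 - ‖hlf T f'‖ ^ 2 := by
      rw [← h3]
      exact sq_nonneg _
    have h5 : ‖f‖ ^ 2 - ‖hlf T f'‖ ^ 2 = (‖f‖ ^ 2 - ‖f'‖ ^ 2) + (‖f'‖ ^ 2 - ‖hlf T f'‖ ^ 2) := by ring
    have h6 : ‖f - hlf T f'‖ ≤ ‖f - f'‖ + ‖f' - hlf T f'‖ := norm_sub_le_norm_sub_add_norm_sub f f' _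
    refine ⟨by rw [h5]; exact add_nonneg h1 h4, ?_⟩
    rw [h5, List.length_cons, Nat.cast_add, Nat.cast_one]
    refine le_trans (pow_le_pow_left₀ (norm_nonneg _) h6 2) ?_
    exact h1_aux (norm_nonneg _) (norm_nonneg _) h1 h4 (Nat.cast_nonneg _) h2 h3.le

/-- Row H1. Induction on `l`. For the head `T`: `‖f - T f‖ ≤ ‖f' - T f'‖ + 2 ‖f - f'‖ ≤
2 √d + 2 √(n D') ≤ 2 √((n + 1) (D' + d))`. -/
theorem hlfs_drop (l : List (H →ₗᵢ[ℝ] H)) (f : H) (T : H →ₗᵢ[ℝ] H) (hT : T ∈ l) :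
    ‖f - T f‖ ^ 2 ≤ 4 * l.length * (‖f‖ ^ 2 - ‖hlfs l f‖ ^ 2) := by
  induction l with
  | nil => exact absurd hT List.not_mem_nil
  | cons S l ih =>
    obtain ⟨h1, h2⟩ := hlfs_sub l f
    show ‖f - T f‖ ^ 2 ≤ 4 * ((S :: l).length : ℝ) * (‖f‖ ^ 2 - ‖hlf S (hlfs l f)‖ ^ 2)
    generalize hlfs l f = f' at h1 h2 ih
    have h3 := hlf_sub S f'
    have h4 : 0 ≤ ‖f'‖ ^ 2 - ‖hlf S f'‖ ^ 2 := by
      rw [← h3]
      exact sq_nonneg _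
    have h5 : ‖f‖ ^ 2 - ‖hlf S f'‖ ^ 2 = (‖f‖ ^ 2 - ‖f'‖ ^ 2) + (‖f'‖ ^ 2 - ‖hlf S f'‖ ^ 2) := by ring
    have hn : (0 : ℝ) ≤ (l.length : ℝ) := Nat.cast_nonneg _
    rw [h5, List.length_cons, Nat.cast_add, Nat.cast_one]
    rcases List.mem_cons.1 hT with h | h
    · subst h
      have h6 : ‖f' - T f'‖ ^ 2 / 4 = ‖f'‖ ^ 2 - ‖hlf T f'‖ ^ 2 := by
        rw [hlf_drop]
        ring
      have h7 : ‖f - T f‖ ≤ 2 * (‖f - f'‖ + ‖f' - T f'‖ / 2) := by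
        have e1 : f - T f = (f - f') + (f' - T f') + T (f' - f) := by
          rw [map_sub]
          abel
        have e2 : ‖T (f' - f)‖ = ‖f - f'‖ := by
          rw [T.norm_map, norm_sub_rev]
        calc ‖f - T f‖ = ‖(f - f') + (f' - T f') + T (f' - f)‖ := by rw [← e1]
          _ ≤ ‖f - f'‖ + ‖f' - T f'‖ + ‖T (f' - f)‖ := norm_add₃_le
          _ = 2 * (‖f - f'‖ + ‖f' - T f'‖ / 2) := by rw [e2]; ring
      have h8 : (‖f - f'‖ + ‖f' - T f'‖ / 2) ^ 2 ≤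
          ((l.length : ℝ) + 1) * ((‖f‖ ^ 2 - ‖f'‖ ^ 2) + (‖f'‖ ^ 2 - ‖hlf T f'‖ ^ 2)) := by
        refine h1_aux (norm_nonneg _) (by positivity) h1 h4 hn h2 ?_
        rw [← h6, div_pow]
        norm_num
      calc ‖f - T f‖ ^ 2 ≤ (2 * (‖f - f'‖ + ‖f' - T f'‖ / 2)) ^ 2 :=
            pow_le_pow_left₀ (norm_nonneg _) h7 2
        _ = 4 * (‖f - f'‖ + ‖f' - T f'‖ / 2) ^ 2 := by ring
        _ ≤ 4 * (((l.length : ℝ) + 1) * ((‖f‖ ^ 2 - ‖f'‖ ^ 2) + (‖f'‖ ^ 2 - ‖hlf T f'‖ ^ 2))) :=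
            mul_le_mul_of_nonneg_left h8 (by norm_num)
        _ = _ := by ring
    · refine (ih h).trans ?_
      refine mul_le_mul ?_ ?_ h1 (by positivity)
      · linarith
      · linarith

end Pool.Agent.AgpSsp.Mix
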