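import Pool.Agent.Lib.MP_a9d022_lc.Zpp.Hil
import Pool.Agent.Lib.MP_a9d022_lc.Zpp.Fs
import Pool.Agent.Lib.MP_a9d022_lc.Zpp.Defs

/-! # Random subproducts of the letters mix in groups of fast growth -/

set_option autoImplicit false

namespace Pool.Agent.AgpSsp.Mix

open N68a2faeb N487b59b3 Pool.Agent.SspConj Pool.Agent.AgpSsp Classical

variable {Γ : Type} [Group Γ] {r : ℕ}

/-- the letters: the generators and their inverses, in the order of `dic r` -/
def lets (X : Fin r → Γ) : List Γ := (dic r).map fun d => ev X d.1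

theorem g1_mem (i : Fin r) (s : Bool) : (([((i : ℕ), s)], []) : Wd × Wd) ∈ dic r := by
  unfold dic
  rw [List.mem_flatMap]
  refine ⟨i, List.mem_range.2 i.2, ?_⟩
  cases s <;> simp

theorem g1_ev (X : Fin r → Γ) (i : Fin r) (s : Bool) :
    ev X [((i : ℕ), s)] = if s then (X i)⁻¹ else X i := by
  unfold ev letter
  simp

/-- Row G1. `(dic r).length = 2 * r`, and every generator and its inverse is a letter. -/
theorem mem_lets (X : Fin r → Γ) (i : Fin r) : X i ∈ lets X ∧ (X i)⁻¹ ∈ lets X ∧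
    (lets X).length = (dic r).length := by
  refine ⟨List.mem_map.2 ⟨_, g1_mem i false, ?_⟩, List.mem_map.2 ⟨_, g1_mem i true, ?_⟩, ?_⟩
  · exact g1_ev X i false
  · exact g1_ev X i true
  · unfold lets
    rw [List.length_map]

/-- one block: the product of the averages for all letters -/
noncomputable def blk (X : Fin r → Γ) (f : Fs Γ) : Fs Γ := hlfs ((lets X).map tr) f

/-- the distribution after `N` blocks -/
noncomputable def law (X : Fin r → Γ) (N : ℕ) : Fs Γ := (blk X)^[N] (Fs.pt 1)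

omit [Group Γ] in
theorem g1_add (f g : Fs Γ) (x : Γ) : (f + g : Fs Γ) x = f x + g x := rfl

omit [Group Γ] in
theorem g1_smul (c : ℝ) (f : Fs Γ) (x : Γ) : (c • f : Fs Γ) x = c * f x := rfl

/-- the total mass -/
noncomputable def g1_tot (f : Fs Γ) : ℝ := Finsupp.sum (show Γ →₀ ℝ from f) (fun _ a => a)

omit [Group Γ] in
theorem g1_tot_add (f g : Fs Γ) : g1_tot (f + g) = g1_tot f + g1_tot g := by
  unfold g1_tot
  exact Finsupp.sum_add_index' (f := (show Γ →₀ ℝ from f)) (g := (show Γ →₀ ℝ from g))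
    (h := fun _ a => a) (fun _ => rfl) (fun _ _ _ => rfl)

omit [Group Γ] in
theorem g1_tot_smul (c : ℝ) (f : Fs Γ) : g1_tot (c • f) = c * g1_tot f := by
  unfold g1_tot
  have h := Finsupp.sum_smul_index (g := (show Γ →₀ ℝ from f)) (b := c)
    (h := fun _ a => a) (fun _ => rfl)
  refine h.trans ?_
  rw [Finsupp.mul_sum]

theorem g1_tot_tr (g : Γ) (f : Fs Γ) : g1_tot (tr g f) = g1_tot f := by
  unfold g1_tot
  exact Finsupp.sum_mapDomain_index (f := fun x => g * x) (s := (show Γ →₀ ℝ from f))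
    (h := fun _ a => a) (fun _ => rfl) (fun _ _ _ => rfl)

theorem g1_hlf (g : Γ) (f : Fs Γ) (hf : IsProb f) : IsProb (hlf (tr g) f) := by
  refine ⟨fun x => ?_, ?_⟩
  · have h1 : (hlf (tr g) f) x = (2 : ℝ)⁻¹ * (f x + (tr g f) x) := rfl
    rw [h1, tr_apply]
    have h2 := hf.1 x
    have h3 := hf.1 (g⁻¹ * x)
    positivity
  · have h1 : g1_tot (hlf (tr g) f) = 1 := by
      unfold hlf
      rw [g1_tot_smul, g1_tot_add, g1_tot_tr]
      have h2 : g1_tot f = 1 := hf.2
      rw [h2]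
      norm_num
    exact h1

theorem g1_hlfs (l : List Γ) (f : Fs Γ) (hf : IsProb f) : IsProb (hlfs (l.map tr) f) := by
  induction l with
  | nil => exact hf
  | cons g l ih => exact g1_hlf g _ ih

/-- Row G2. `hlf (tr g)` and hence `blk X` preserve probability distributions. -/
theorem law_prob (X : Fin r → Γ) (N : ℕ) : IsProb (law X N) := by
  unfold law
  induction N with
  | zero => exact (prob_pt 1).1
  | succ N ih =>
    rw [Function.iterate_succ_apply']
    exact g1_hlfs _ _ ih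

/-- the product of the letters which are taken -/
noncomputable def g2_w : List Γ → (ℕ → Bool) → Γ
  | [], _ => 1
  | x :: l, h => (if h 0 = true then x else 1) * g2_w l fun t => h (t + 1)

theorem g2_snd {d : Wd × Wd} (hd : d ∈ dic r) : d.2 = [] := by
  unfold dic at hd
  rw [List.mem_flatMap] at hd
  obtain ⟨i, -, hi⟩ := hd
  simp only [List.mem_cons, List.not_mem_nil, or_false] at hi
  rcases hi with h | h <;> rw [h]

/-- the word of a block -/
def g2_blk (D : List (Wd × Wd)) (b : List Bool) : Wd :=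
  D.zipIdx.flatMap fun d => bif b.getD d.2 false then d.1.1 else d.1.2

theorem g2_tw_succ (D : List (Wd × Wd)) (N : ℕ) (b b' : List Bool) (hb : b.length = D.length) :
    tw D (N + 1) 0 (b ++ b') = g2_blk D b ++ tw D N 0 b' := by
  unfold tw g2_blk
  rw [List.range_succ_eq_map, List.flatMap_cons, List.flatMap_map]
  congr 1
  · rw [List.flatMap_def, List.flatMap_def]
    congr 1
    refine List.map_congr_left fun d hd => ?_
    have h1 : d.2 < D.length := by
      have := List.snd_lt_of_mem_zipIdx hd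
      omega
    have h2 : (0 * (N + 1) + 0) * D.length + d.2 = d.2 := by ring
    rw [h2, List.getD_append _ _ _ _ (by omega)]
  · rw [List.flatMap_def, List.flatMap_def]
    congr 1
    refine List.map_congr_left fun i hi => ?_
    rw [List.flatMap_def, List.flatMap_def]
    congr 1
    refine List.map_congr_left fun d hd => ?_
    have h2 : (0 * (N + 1) + Nat.succ i) * D.length + d.2 = D.length + ((0 * N + i) * D.length + d.2) := by
      rw [Nat.succ_eq_add_one]; ring
    rw [h2, List.getD_append_right _ _ _ _ (by omega), hb, Nat.add_sub_cancel_left]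

theorem g2_zip (X : Fin r → Γ) (D : List (Wd × Wd)) (hD : ∀ d ∈ D, d.2 = []) :
    ∀ (s : ℕ) (h : ℕ → Bool), ev X ((D.zipIdx s).flatMap fun d => bif h d.2 then d.1.1 else d.1.2) =
      g2_w (D.map fun d => ev X d.1) fun t => h (s + t) := by
  induction D with
  | nil => intro s h; rfl
  | cons d0 D ih =>
    intro s h
    rw [List.zipIdx_cons, List.flatMap_cons, ev_append,
      ih (fun d hd => hD d (List.mem_cons_of_mem _ hd))]
    show ev X (bif h s then d0.1 else d0.2) * _ =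
      (if h (s + 0) = true then ev X d0.1 else 1) * g2_w _ fun t => h (s + (t + 1))
    rw [Nat.add_zero, hD d0 (by simp)]
    have e : (fun t => h (s + 1 + t)) = fun t => h (s + (t + 1)) := by
      funext t
      rw [Nat.add_assoc, Nat.add_comm 1 t]
    rw [e]
    cases h s
    · rfl
    · rfl

theorem g2_sum (l : List Γ) (f : Fs Γ) : ∀ g : Γ,
    ∑ b : Fin l.length → Bool, f ((g2_w l fun t => (List.ofFn b).getD t false)⁻¹ * g) =
      2 ^ l.length * (hlfs (l.map tr) f) g := by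
  induction l with
  | nil =>
    intro g
    have hu : Unique (Fin (([] : List Γ).length) → Bool) :=
      (inferInstance : Unique (Fin 0 → Bool))
    rw [Fintype.sum_unique]
    show f ((1 : Γ)⁻¹ * g) = 2 ^ 0 * f g
    rw [inv_one, one_mul, pow_zero, one_mul]
  | cons x l ih =>
    intro g
    have e0 : ∑ b : Fin (x :: l).length → Bool,
        f ((g2_w (x :: l) fun t => (List.ofFn b).getD t false)⁻¹ * g) =
        ∑ c : Bool, ∑ b : Fin l.length → Bool,
          f ((g2_w l fun t => (List.ofFn b).getD t false)⁻¹ * ((if c = true then x else 1)⁻¹ * g)) := by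
      rw [← Fintype.sum_prod_type']
      symm
      refine Fintype.sum_equiv (Fin.consEquiv fun _ => Bool) _ _ fun cb => ?_
      have e1 : List.ofFn (Fin.consEquiv (fun _ : Fin (l.length + 1) => Bool) cb) =
          cb.1 :: List.ofFn cb.2 := by
        rw [List.ofFn_succ]
        rfl
      have e2 : (g2_w (x :: l) fun t => (List.ofFn (Fin.consEquiv
          (fun _ : Fin (l.length + 1) => Bool) cb)).getD t false) =
          (if cb.1 = true then x else 1) * g2_w l fun t => (List.ofFn cb.2).getD t false := by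
        rw [e1]
        rfl
      show _ = f ((g2_w (x :: l) fun t => (List.ofFn (Fin.consEquiv
          (fun _ : Fin (l.length + 1) => Bool) cb)).getD t false)⁻¹ * g)
      rw [e2, mul_inv_rev, mul_assoc]
    rw [e0, Fintype.sum_bool, ih, ih]
    have e3 : (hlfs ((x :: l).map tr) f) g =
        (2 : ℝ)⁻¹ * ((hlfs (l.map tr) f) g + (hlfs (l.map tr) f) (x⁻¹ * g)) := by
      rw [← tr_apply x g (hlfs (l.map tr) f)]
      rfl
    rw [e3]
    simp only [if_true, Bool.false_eq_true, if_false, inv_one, one_mul, List.length_cons, pow_succ]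
    ring

theorem g2_split {m n n' : ℕ} (h : m = n + n') (Q : List Bool → ℝ) :
    ∑ b : Fin m → Bool, Q (List.ofFn b) =
      ∑ b : Fin n → Bool, ∑ b' : Fin n' → Bool, Q (List.ofFn b ++ List.ofFn b') := by
  subst h
  rw [← Fintype.sum_prod_type']
  symm
  refine Fintype.sum_equiv (Fin.appendEquiv n n') _ _ fun cb => ?_
  rw [← List.ofFn_fin_append]
  rfl

theorem g2_blk_ev (X : Fin r → Γ) (b : List Bool) :
    ev X (g2_blk (dic r) b) = g2_w (lets X) fun t => b.getD t false := by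
  unfold g2_blk
  have := g2_zip X (dic r) (fun d hd => g2_snd hd) 0 fun t => b.getD t false
  rw [this]
  have e : (fun t => b.getD (0 + t) false) = fun t => b.getD t false := by
    funext t
    rw [Nat.zero_add]
  rw [e]
  rfl

theorem g2_law (X : Fin r → Γ) : ∀ (N : ℕ) (g : Γ),
    ∑ b : Fin (N * (dic r).length) → Bool,
      (if ev X (tw (dic r) N 0 (List.ofFn b)) = g then (1 : ℝ) else 0) =
      law X N g * 2 ^ (N * (dic r).length) := by
  intro N
  induction N with
  | zero =>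
    intro g
    have e : ∀ b : Fin (0 * (dic r).length) → Bool,
        (if ev X (tw (dic r) 0 0 (List.ofFn b)) = g then (1 : ℝ) else 0) =
          if (1 : Γ) = g then 1 else 0 := fun b => rfl
    rw [Finset.sum_congr rfl fun b _ => e b, Finset.sum_const, Finset.card_univ, Nat.zero_mul,
      Fintype.card_fun, Fintype.card_fin, pow_zero, one_smul]
    show _ = (Finsupp.single (1 : Γ) (1 : ℝ)) g * 2 ^ 0
    rw [Finsupp.single_apply, pow_zero, mul_one]
  | succ N ih =>
    intro g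
    rw [g2_split (show (N + 1) * (dic r).length = (dic r).length + N * (dic r).length by ring)
      fun b => if ev X (tw (dic r) (N + 1) 0 b) = g then (1 : ℝ) else 0]
    have e1 : ∀ b : Fin (dic r).length → Bool, ∑ b' : Fin (N * (dic r).length) → Bool,
        (if ev X (tw (dic r) (N + 1) 0 (List.ofFn b ++ List.ofFn b')) = g then (1 : ℝ) else 0) =
        law X N ((g2_w (lets X) fun t => (List.ofFn b).getD t false)⁻¹ * g) *
          2 ^ (N * (dic r).length) := by
      intro b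
      rw [← ih]
      refine Finset.sum_congr rfl fun b' _ => ?_
      rw [g2_tw_succ _ _ _ _ (by rw [List.length_ofFn]), ev_append, g2_blk_ev]
      have e2 : ∀ w v : Γ, (w * v = g) = (v = w⁻¹ * g) := fun w v =>
        propext ⟨fun h => by rw [← h, inv_mul_cancel_left], fun h => by
          rw [h, mul_inv_cancel_left]⟩
      simp only [e2]
    rw [Finset.sum_congr rfl fun b _ => e1 b, ← Finset.sum_mul]
    have hlen : (lets X).length = (dic r).length := List.length_map _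
    have e3 : ∑ b : Fin (dic r).length → Bool,
        law X N ((g2_w (lets X) fun t => (List.ofFn b).getD t false)⁻¹ * g) =
        2 ^ (dic r).length * blk X (law X N) g := by
      have := g2_sum (lets X) (law X N) g
      rw [← hlen]
      exact this
    have e4 : law X (N + 1) = blk X (law X N) := Function.iterate_succ_apply' _ _ _
    rw [e3, e4, Nat.succ_mul, pow_add]
    ring

/-- Row G3. The coefficients of the law count bit strings. By induction on `N`: a string of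
`(N + 1) * (dic r).length` bits is a block `b` of `(dic r).length` bits followed by a string for `N`
(as in `A1_tw_succ`: `tw (dic r) (N + 1) 0 (b ++ b') = blk b ++ tw (dic r) N 0 b'`), and
`hlf (tr x) f g = (f g + f (x⁻¹ g)) / 2`. -/
theorem law_count (X : Fin r → Γ) (N : ℕ) (g : Γ) :
    ((Finset.univ.filter fun b : Fin (N * (dic r).length) → Bool =>
      ev X (tw (dic r) N 0 (List.ofFn b)) = g).card : ℝ) = law X N g * 2 ^ (N * (dic r).length) := by
  rw [← g2_law, Finset.sum_boole]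

/-- words of length `n` move `f` by at most `n m` -/
theorem g3_word (X : Fin r → Γ) (f : Fs Γ) {m : ℝ} (hm : ∀ x ∈ lets X, ‖f - tr x f‖ ≤ m)
    (l : List (Fin r × Bool)) :
    ‖f - tr (l.map fun c => if c.2 then (X c.1)⁻¹ else X c.1).prod f‖ ≤ (l.length : ℝ) * m := by
  induction l with
  | nil =>
    rw [List.map_nil, List.prod_nil, tr_one, sub_self, norm_zero, List.length_nil, Nat.cast_zero, zero_mul]
  | cons c l ih =>
    have hc : (if c.2 then (X c.1)⁻¹ else X c.1) ∈ lets X := by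
      split_ifs
      · exact (mem_lets X c.1).2.1
      · exact (mem_lets X c.1).1
    rw [List.map_cons, List.prod_cons, tr_mul, List.length_cons]
    set x := (if c.2 then (X c.1)⁻¹ else X c.1) with hx
    set g := (l.map fun c => if c.2 then (X c.1)⁻¹ else X c.1).prod with hg
    have e : f - tr x (tr g f) = (f - tr x f) + tr x (f - tr g f) := by
      rw [map_sub]
      abel
    rw [e]
    refine (norm_add_le _ _).trans ?_
    rw [LinearIsometry.norm_map]
    push_cast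
    have h1 := hm x hc
    linarith

/-- Row G4. Telescoping: if the translates by the letters are `m`-near `f` then the translates by the
elements of the ball of radius `R` are `R m`-near `f`. -/
theorem ball_near (X : Fin r → Γ) (f : Fs Γ) {m : ℝ} (h0 : 0 ≤ m) (hm : ∀ x ∈ lets X, ‖f - tr x f‖ ≤ m)
    {R : ℕ} {g : Γ} (hg : g ∈ Ball X R) : ‖f - tr g f‖ ≤ R * m := by
  obtain ⟨l, hl, rfl⟩ := hg
  refine (g3_word X f hm l).trans (mul_le_mul_of_nonneg_right ?_ h0)
  exact_mod_cast hl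

/-- some letter moves `f` by at least `‖f‖ / (2 R)` -/
theorem g3_letter (X : Fin r → Γ) {f : Fs Γ} (hf : IsProb f) {R : ℕ} (hR : 1 ≤ R) (hr : 1 ≤ r)
    (hS : 4 ≤ ‖f‖ ^ 2 * (Ball X R).ncard) : ∃ x ∈ lets X, ‖f‖ ≤ 2 * R * ‖f - tr x f‖ := by
  have hne : (lets X).toFinset.Nonempty := ⟨X ⟨0, hr⟩, List.mem_toFinset.2 (mem_lets X ⟨0, hr⟩).1⟩
  obtain ⟨x0, hx0, hmax⟩ := Finset.exists_max_image (lets X).toFinset (fun x => ‖f - tr x f‖) hne
  refine ⟨x0, List.mem_toFinset.1 hx0, ?_⟩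
  have hfin := (ball_finite X R).1
  have hcard : (Ball X R).ncard = hfin.toFinset.card := Set.ncard_eq_toFinset_card _ hfin
  have h1mem : (1 : Γ) ∈ hfin.toFinset := hfin.mem_toFinset.2 (one_mem_ball X R)
  have hSne : hfin.toFinset.Nonempty := ⟨1, h1mem⟩
  have hav := norm_avg f hf hfin.toFinset hSne
  have hc0 : (0 : ℝ) < hfin.toFinset.card := by exact_mod_cast Finset.card_pos.2 hSne
  rw [hcard] at hS
  have hnear : ∀ g ∈ hfin.toFinset, ‖f - tr g f‖ ≤ R * ‖f - tr x0 f‖ := fun g hg =>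
    ball_near X f (norm_nonneg _) (fun x hx => hmax x (List.mem_toFinset.2 hx)) (hfin.mem_toFinset.1 hg)
  set s : Finset Γ := hfin.toFinset with hs
  set a : Fs Γ := ((s.card : ℝ)⁻¹) • ∑ g ∈ s, tr g f with ha
  have hsub : f - a = ((s.card : ℝ)⁻¹) • ∑ g ∈ s, (f - tr g f) := by
    rw [Finset.sum_sub_distrib, smul_sub, Finset.sum_const, ← Nat.cast_smul_eq_nsmul ℝ, smul_smul,
      inv_mul_cancel₀ hc0.ne', one_smul]
  have h2 : ‖f - a‖ ≤ R * ‖f - tr x0 f‖ := by
    rw [hsub, norm_smul, Real.norm_of_nonneg (inv_nonneg.2 hc0.le), inv_mul_le_iff₀ hc0]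
    refine (norm_sum_le _ _).trans ?_
    calc ∑ g ∈ s, ‖f - tr g f‖ ≤ ∑ _g ∈ s, R * ‖f - tr x0 f‖ := Finset.sum_le_sum hnear
      _ = s.card * (R * ‖f - tr x0 f‖) := by rw [Finset.sum_const, nsmul_eq_mul]
  have h3 : ‖a‖ ≤ ‖f‖ / 2 := by
    have h4 : ‖a‖ ^ 2 * s.card ≤ (‖f‖ / 2) ^ 2 * s.card := by
      have h5 : (‖f‖ / 2) ^ 2 * s.card = (‖f‖ ^ 2 * s.card) / 4 := by ring
      rw [h5]
      linarith
    have h6 : ‖a‖ ^ 2 ≤ (‖f‖ / 2) ^ 2 := le_of_mul_le_mul_right h4 hc0
    exact le_of_sq_le_sq h6 (by positivity)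
  have h7 : ‖f‖ ≤ ‖f - a‖ + ‖a‖ := by
    calc ‖f‖ = ‖(f - a) + a‖ := by rw [sub_add_cancel]
      _ ≤ _ := norm_add_le _ _
  linarith

/-- Row G5. One block, as long as the norm is large: if the ball of radius `R ≥ 1` has at least
`4 / ‖f‖²` elements then some letter `x` has `‖f - x f‖ ≥ ‖f‖ / (2 R)` (otherwise
`‖f‖ ≤ ‖f - f̄‖ + ‖f̄‖ < ‖f‖ / 2 + |S|^(-1/2) ≤ ‖f‖`, `f̄` the average over the ball `S`), and
`hlfs_drop` applies. -/
theorem blk_drop (X : Fin r → Γ) {f : Fs Γ} (hf : IsProb f) {R : ℕ} (hR : 1 ≤ R) (hr : 1 ≤ r)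
    (hS : 4 ≤ ‖f‖ ^ 2 * (Ball X R).ncard) :
    ‖blk X f‖ ^ 2 ≤ (1 - 1 / (16 * (dic r).length * (R : ℝ) ^ 2)) * ‖f‖ ^ 2 := by
  obtain ⟨x0, hx0, hle⟩ := g3_letter X hf hR hr hS
  have hd := hlfs_drop ((lets X).map tr) f (tr x0) (List.mem_map_of_mem hx0)
  rw [List.length_map, (mem_lets X ⟨0, hr⟩).2.2] at hd
  change _ ≤ 4 * ((dic r).length : ℝ) * (‖f‖ ^ 2 - ‖blk X f‖ ^ 2) at hd
  have hL : (0 : ℝ) < (dic r).length := by
    have h1 : 0 < (lets X).length := List.length_pos_of_mem hx0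
    rw [(mem_lets X ⟨0, hr⟩).2.2] at h1
    exact_mod_cast h1
  have hR' : (0 : ℝ) < R := by exact_mod_cast hR
  have h2 : ‖f‖ ^ 2 ≤ 4 * (R : ℝ) ^ 2 * ‖f - tr x0 f‖ ^ 2 := by
    have h3 : ‖f‖ ^ 2 ≤ (2 * R * ‖f - tr x0 f‖) ^ 2 := pow_le_pow_left₀ (norm_nonneg f) hle 2
    calc ‖f‖ ^ 2 ≤ (2 * R * ‖f - tr x0 f‖) ^ 2 := h3
      _ = 4 * (R : ℝ) ^ 2 * ‖f - tr x0 f‖ ^ 2 := by ring
  have h4 : ‖f‖ ^ 2 ≤ 16 * ((dic r).length : ℝ) * (R : ℝ) ^ 2 * (‖f‖ ^ 2 - ‖blk X f‖ ^ 2) := by
    have h5 : 4 * (R : ℝ) ^ 2 * ‖f - tr x0 f‖ ^ 2 ≤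
        4 * (R : ℝ) ^ 2 * (4 * ((dic r).length : ℝ) * (‖f‖ ^ 2 - ‖blk X f‖ ^ 2)) :=
      mul_le_mul_of_nonneg_left hd (by positivity)
    calc ‖f‖ ^ 2 ≤ _ := h2
      _ ≤ _ := h5
      _ = _ := by ring
  have hD : (0 : ℝ) < 16 * ((dic r).length : ℝ) * (R : ℝ) ^ 2 := by positivity
  have h6 : 1 / (16 * ((dic r).length : ℝ) * (R : ℝ) ^ 2) * ‖f‖ ^ 2 ≤ ‖f‖ ^ 2 - ‖blk X f‖ ^ 2 := by
    rw [one_div, inv_mul_le_iff₀ hD]
    exact h4
  linarith

theorem g4_length (r : ℕ) : (dic r).length = 2 * r := by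
  simp [dic, List.length_flatMap, mul_comm]

theorem g4_delta {R r : ℕ} (hR : 1 ≤ R) (hr : 1 ≤ r) :
    0 ≤ (1 - 1 / (16 * (dic r).length * (R : ℝ) ^ 2) : ℝ) := by
  have h1 : (1 : ℝ) ≤ R := by exact_mod_cast hR
  have h2 : (1 : ℝ) ≤ (dic r).length := by
    rw [g4_length]
    have : (1 : ℝ) ≤ r := by exact_mod_cast hr
    push_cast
    linarith
  have h3 : (1 : ℝ) ≤ (R : ℝ) ^ 2 := one_le_pow₀ h1
  have h4 : (1 : ℝ) ≤ 16 * (dic r).length * (R : ℝ) ^ 2 := by nlinarith
  have h5 : 1 / (16 * (dic r).length * (R : ℝ) ^ 2) ≤ 1 := by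
    rw [div_le_one (by linarith)]
    exact h4
  linarith

/-- Row G6. `‖law X N‖² ≤ max (4 / |S|) ((1 - δ)^N)`, `δ = 1 / (16 * (dic r).length * R²)`; the norms
decrease (`hlfs_sub`). -/
theorem law_norm (X : Fin r → Γ) {R : ℕ} (hR : 1 ≤ R) (hr : 1 ≤ r) (N : ℕ) :
    ‖law X N‖ ^ 2 ≤ 4 / (Ball X R).ncard ∨
      ‖law X N‖ ^ 2 ≤ (1 - 1 / (16 * (dic r).length * (R : ℝ) ^ 2)) ^ N := by
  have hδ := g4_delta hR hr
  have hpos : (0 : ℝ) < (Ball X R).ncard := by
    have h1 : 0 < (Ball X R).ncard :=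
      (Set.ncard_pos (ball_finite X R).1).2 ⟨1, one_mem_ball X R⟩
    exact_mod_cast h1
  induction N with
  | zero =>
    right
    have h1 : law X 0 = Fs.pt 1 := rfl
    rw [h1, (prob_pt (1 : Γ)).2]
    norm_num
  | succ N ih =>
    have h1 : law X (N + 1) = blk X (law X N) := Function.iterate_succ_apply' (blk X) N (Fs.pt 1)
    have h2 : ‖blk X (law X N)‖ ^ 2 ≤ ‖law X N‖ ^ 2 := by
      have h3 := (hlfs_sub ((lets X).map tr) (law X N)).1
      have h4 : blk X (law X N) = hlfs ((lets X).map tr) (law X N) := rfl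
      rw [h4]
      linarith
    rw [h1]
    rcases ih with ih | ih
    · exact Or.inl (h2.trans ih)
    · by_cases hS : 4 ≤ ‖law X N‖ ^ 2 * (Ball X R).ncard
      · right
        have h5 := blk_drop X (law_prob X N) hR hr hS
        exact (h5.trans (mul_le_mul_of_nonneg_left ih hδ)).trans (le_of_eq (pow_succ' _ _).symm)
      · left
        refine h2.trans ?_
        rw [le_div_iff₀ hpos]
        exact (not_le.1 hS).le

theorem g4_pos (X : Fin r → Γ) (hF : FastGrowth X) : 1 ≤ r := by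
  obtain ⟨k, hk⟩ := hF
  by_contra hr
  have hr0 : r = 0 := by omega
  subst hr0
  have h1 : Ball X ((k + 1) ^ k) ⊆ {1} := by
    rintro g ⟨l, -, rfl⟩
    have hl : l = [] := by
      rcases l with _ | ⟨a, l⟩
      · rfl
      · exact a.1.elim0
    rw [hl, Set.mem_singleton_iff, List.map_nil, List.prod_nil]
  have h2 := Set.ncard_le_ncard h1 (Set.finite_singleton 1)
  rw [Set.ncard_singleton] at h2
  have h3 := hk (k + 1) (by omega)
  have h4 : 2 ≤ 2 ^ (k + 1) := by
    rw [pow_succ]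
    have : 1 ≤ 2 ^ k := Nat.one_le_two_pow
    omega
  omega

theorem g4_arith (r k M N Q : ℕ) (hQ : Q = 4 ^ k)
    (hN : (M + (64 * r + Q + 2 * k + 3)) ^ (64 * r + Q + 2 * k + 3) ≤ N) :
    2 * M * (16 * (2 * r) * ((2 * M + 2 + k) ^ k) ^ 2) ≤ N := by
  refine le_trans ?_ hN
  obtain ⟨e, he⟩ : ∃ e, e = 64 * r + Q + 2 * k + 3 := ⟨_, rfl⟩
  rw [← he]
  have h1 : 1 ≤ M + e := by omega
  have h2 : (M + e) ^ (2 * k + 3) ≤ (M + e) ^ e := Nat.pow_le_pow_right h1 (by omega)
  refine le_trans ?_ h2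
  have h3 : (2 * M + 2 + k) ^ k ≤ (2 * (M + e)) ^ k := Nat.pow_le_pow_left (by omega) k
  have h4 : ((2 * M + 2 + k) ^ k) ^ 2 ≤ Q * (M + e) ^ (2 * k) := by
    calc ((2 * M + 2 + k) ^ k) ^ 2 ≤ ((2 * (M + e)) ^ k) ^ 2 := Nat.pow_le_pow_left h3 2
      _ = Q * (M + e) ^ (2 * k) := by
        rw [hQ, mul_pow, mul_pow, ← pow_mul, ← pow_mul, mul_comm k 2, pow_mul 2 2 k]
        norm_num
  calc 2 * M * (16 * (2 * r) * ((2 * M + 2 + k) ^ k) ^ 2)
      = M * (64 * r) * ((2 * M + 2 + k) ^ k) ^ 2 := by ring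
    _ ≤ (M + e) * (M + e) * (Q * (M + e) ^ (2 * k)) :=
        Nat.mul_le_mul (Nat.mul_le_mul (by omega) (by omega)) h4
    _ ≤ (M + e) * (M + e) * ((M + e) * (M + e) ^ (2 * k)) :=
        Nat.mul_le_mul_left _ (Nat.mul_le_mul_right _ (by omega))
    _ = (M + e) ^ (2 * k + 3) := by ring

theorem g4_exp {R r M N : ℕ} (hR : 1 ≤ R) (hr : 1 ≤ r)
    (hN : 2 * M * (16 * (2 * r) * R ^ 2) ≤ N) :
    (1 - 1 / (16 * (dic r).length * (R : ℝ) ^ 2) : ℝ) ^ N ≤ ((1 / 2 : ℝ) ^ M) ^ 2 := by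
  have h0 := g4_delta hR hr
  rw [g4_length] at h0 ⊢
  have hR' : (1 : ℝ) ≤ R := by exact_mod_cast hR
  have hr' : (1 : ℝ) ≤ r := by exact_mod_cast hr
  set D : ℝ := 16 * ((2 * r : ℕ) : ℝ) * (R : ℝ) ^ 2 with hD
  have hDpos : 0 < D := by
    rw [hD]
    positivity
  have hN' : 2 * (M : ℝ) * D ≤ N := by
    rw [hD]
    exact_mod_cast hN
  have h1 : (1 - 1 / D : ℝ) ≤ Real.exp (-(1 / D)) := by
    have := Real.add_one_le_exp (-(1 / D))
    linarith
  have h2 : (1 - 1 / D : ℝ) ^ N ≤ Real.exp (-(1 / D)) ^ N := pow_le_pow_left₀ h0 h1 N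
  refine h2.trans ?_
  rw [← Real.exp_nat_mul]
  have h3 : (N : ℝ) * -(1 / D) ≤ -(2 * M) := by
    have h4 : 2 * (M : ℝ) ≤ N / D := by
      rw [le_div_iff₀ hDpos]
      exact hN'
    have h5 : (N : ℝ) * -(1 / D) = -(N / D) := by ring
    rw [h5]
    linarith
  refine (Real.exp_le_exp.2 h3).trans ?_
  have h6 : Real.exp (-(2 * (M : ℝ))) = (Real.exp (-1) ^ M) ^ 2 := by
    rw [← pow_mul, ← Real.exp_nat_mul]
    congr 1
    push_cast
    ring
  rw [h6]
  have h7 : Real.exp (-1) ≤ 1 / 2 := by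
    rw [Real.exp_neg, one_div]
    have h8 : (2 : ℝ) ≤ Real.exp 1 := by
      have := Real.add_one_le_exp (1 : ℝ)
      linarith
    exact inv_anti₀ (by norm_num) h8
  exact pow_le_pow_left₀ (by positivity) (pow_le_pow_left₀ (Real.exp_pos _).le h7 M) 2

/-- Row G7. The mixing lemma. `k` from `FastGrowth`, `R = (2 M + 2 + k) ^ k`, so the ball of radius `R` has at least
`2 ^ (2 M + 2)` elements; `(1 - δ)^N ≤ exp (- δ N) ≤ 2 ^ (- 2 M)` if `N ≥ 2 M / δ`; `e` is large
(depends on `k`, `r`); `law X N g ≤ ‖law X N‖` (`le_norm`), `law_count`. (`r ≥ 1` because a group without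
generators has no fast growth.) -/
theorem mixing (X : Fin r → Γ) (hF : FastGrowth X) : ∃ e : ℕ, ∀ M N : ℕ, (M + e) ^ e ≤ N → ∀ g : Γ,
    (Finset.univ.filter fun b : Fin (N * (dic r).length) → Bool =>
      ev X (tw (dic r) N 0 (List.ofFn b)) = g).card * 2 ^ M ≤ 2 ^ (N * (dic r).length) := by
  have hr := g4_pos X hF
  obtain ⟨k, hk⟩ := hF
  refine ⟨64 * r + 4 ^ k + 2 * k + 3, fun M N hN g => ?_⟩
  have hR : 1 ≤ (2 * M + 2 + k) ^ k := Nat.one_le_pow _ _ (by omega)
  have hball : 2 ^ (2 * M + 2) ≤ (Ball X ((2 * M + 2 + k) ^ k)).ncard :=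
    (Nat.pow_le_pow_right (by norm_num) (by omega)).trans (hk (2 * M + 2 + k) (by omega))
  have hsq : ‖law X N‖ ^ 2 ≤ ((1 / 2 : ℝ) ^ M) ^ 2 := by
    rcases law_norm X hR hr N with h | h
    · refine h.trans ?_
      have h1 : (2 : ℝ) ^ (2 * M + 2) ≤ (Ball X ((2 * M + 2 + k) ^ k)).ncard := by
        exact_mod_cast hball
      have h2 : (0 : ℝ) < 2 ^ (2 * M + 2) := by positivity
      refine (div_le_div_of_nonneg_left (by norm_num) h2 h1).trans (le_of_eq ?_)
      rw [div_pow, one_pow, div_pow, one_pow, ← pow_mul, pow_add, mul_comm M 2]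
      have h3 : (0 : ℝ) < 2 ^ (2 * M) := by positivity
      field_simp
      norm_num
    · exact h.trans (g4_exp hR hr (g4_arith r k M N _ rfl hN))
  have h1 : law X N g ≤ (1 / 2 : ℝ) ^ M :=
    (le_norm (law X N) g).trans ((sq_le_sq₀ (norm_nonneg _) (by positivity)).1 hsq)
  have h2 := law_count X N g
  have h3 : (((Finset.univ.filter fun b : Fin (N * (dic r).length) → Bool =>
      ev X (tw (dic r) N 0 (List.ofFn b)) = g).card : ℝ)) * 2 ^ M ≤ 2 ^ (N * (dic r).length) := by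
    rw [h2]
    have h4 : (0 : ℝ) < 2 ^ (N * (dic r).length) := by positivity
    have h5 : (0 : ℝ) < 2 ^ M := by positivity
    have h6 : law X N g * 2 ^ M ≤ 1 := by
      have h7 := mul_le_mul_of_nonneg_right h1 h5.le
      rwa [← mul_pow, one_div, inv_mul_cancel₀ (by norm_num : (2 : ℝ) ≠ 0), one_pow] at h7
    calc law X N g * 2 ^ (N * (dic r).length) * 2 ^ M
        = (law X N g * 2 ^ M) * 2 ^ (N * (dic r).length) := by ring
      _ ≤ 1 * 2 ^ (N * (dic r).length) := mul_le_mul_of_nonneg_right h6 h4.le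
      _ = 2 ^ (N * (dic r).length) := one_mul _
  exact_mod_cast h3

end Pool.Agent.AgpSsp.Mix
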