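import Pool.Agent.Lib.MP_a9d022_lc.Agp.All
import Pool.Agent.Lib.MP_a9d022_lc.Agp.PtQuery

/-! # Slow growth: the table of the ball is computed -/

set_option autoImplicit false

namespace Pool.Agent.AgpSsp

open N68a2faeb N487b59b3 Pool.Agent.SspConj

/-- Deterministic subexponential time, infinitely often: the problems which, for every `k ≥ 1`, can be
decided on all inputs of length `n = m ^ k` in time polynomial in `n + 2 ^ m` (here `m = n ^ (1 / k)`), for
infinitely many `m`. -/
def IoSub : DecisionComplexityClass :=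
  { L | ∀ k : ℕ, 1 ≤ k → ∃ R : (List Bool × List Bool) → Bool, IsPolyTime R ∧
      ∀ m₀ : ℕ, ∃ m ≥ m₀, ∀ x : List Bool, x.length = m ^ k →
        L x = R (x, List.replicate (2 ^ m) true) }

end Pool.Agent.AgpSsp

namespace Pool.Agent.AgpSsp.SG

open N68a2faeb N487b59b3 Pool.Agent.MSR Pool.Agent.MSR.En Pool.Agent.SspConj

/-- the letters -/
def lts (r : ℕ) : List (ℕ × Bool) := (List.range r).flatMap fun i => [(i, true), (i, false)]

/-- the list `acc` of words is extended by `w`, unless it contains a word with the same value -/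
def ins (S : List Wd × Wd → Bool) (acc : List Wd) (w : Wd) : List Wd :=
  bif acc.any (fun u => S ([], u ++ winv w)) then acc else acc ++ [w]

/-- one layer -/
def lay (S : List Wd × Wd → Bool) (r : ℕ) (acc : List Wd) : List Wd :=
  (acc.flatMap fun u => (lts r).map fun l => u ++ [l]).foldl (ins S) acc

/-- one guarded layer -/
def layK (S : List Wd × Wd → Bool) (r K : ℕ) (acc : List Wd) : List Wd :=
  bif leb acc.length K then lay S r acc else acc

/-- representatives of the elements of the ball of radius `n`; nothing is added to a list of more than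
`K` words -/
def reps (S : List Wd × Wd → Bool) (r K n : ℕ) : List Wd := (layK S r K)^[n] [[]]

/-- the multiplication table for the list `R` of representatives -/
def tabW (S : List Wd × Wd → Bool) (r : ℕ) (R : List Wd) : Tab :=
  (((List.range R.length ×ˢ lts r) ×ˢ List.range R.length).filter fun q =>
    S ([], R.getD q.1.1 [] ++ (q.1.2 :: winv (R.getD q.2 [])))).map fun q =>
      ((q.1.1, (nm q.1.2.1, q.1.2.2)), q.2)

section

variable {G : Type} [Group G] {r : ℕ}

/-- Row A. The oracle decides the word problem: a sublist of the empty list is empty. -/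
theorem wp_iff (X : Fin r → G) {S : List Wd × Wd → Bool} (hS : Orc X S) (w : Wd) :
    S ([], w) = true ↔ ev X w = 1 := by
  rw [hS [] w]
  constructor
  · rintro ⟨u, hu, h⟩
    rw [List.sublist_nil.1 hu] at h
    exact h.symm
  · intro h
    exact ⟨[], List.Sublist.refl _, h.symm⟩

theorem mem_lts {c : ℕ × Bool} : c ∈ lts r ↔ c.1 < r := by
  unfold lts
  obtain ⟨s, b⟩ := c
  rw [List.mem_flatMap]
  constructor
  · rintro ⟨i, h1, h2⟩
    simp only [List.mem_cons, Prod.mk.injEq, List.not_mem_nil, or_false] at h2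
    have h3 : s = i := by
      rcases h2 with h2 | h2 <;> exact h2.1
    rw [h3]
    exact List.mem_range.1 h1
  · intro h
    refine ⟨s, List.mem_range.2 h, ?_⟩
    cases b <;> simp

theorem a_letter (X : Fin r → G) (c : Fin r × Bool) :
    letter X ((c.1 : ℕ), c.2) = if c.2 then (X c.1)⁻¹ else X c.1 := by
  unfold letter
  rw [dif_pos c.1.isLt]

/-- Row A. -/
theorem ball_succ (X : Fin r → G) (n : ℕ) (g : G) : g ∈ Ball X (n + 1) ↔
    g ∈ Ball X n ∨ ∃ h ∈ Ball X n, ∃ c ∈ lts r, g = h * letter X c := by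
  constructor
  · rintro ⟨l, hl, hg⟩
    by_cases h1 : l.length ≤ n
    · exact Or.inl ⟨l, h1, hg⟩
    · right
      rcases List.eq_nil_or_concat l with h2 | ⟨l', c, h2⟩
      · rw [h2] at h1
        exact absurd (Nat.zero_le n) h1
      · subst h2
        rw [List.concat_eq_append] at hl hg
        rw [List.length_append, List.length_singleton] at hl
        refine ⟨_, ⟨l', by omega, rfl⟩, (c.1, c.2), mem_lts.2 c.1.isLt, ?_⟩
        rw [hg, List.map_append, List.prod_append, a_letter X c]
        simp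
  · rintro (h | ⟨h, ⟨l, hl, hh⟩, c, hc, hg⟩)
    · exact ball_mono X (Nat.le_succ n) h
    · refine ⟨l ++ [(⟨c.1, mem_lts.1 hc⟩, c.2)], ?_, ?_⟩
      · rw [List.length_append, List.length_singleton]
        omega
      · have h3 := a_letter X (⟨c.1, mem_lts.1 hc⟩, c.2)
        have h4 : letter X c = if c.2 then (X ⟨c.1, mem_lts.1 hc⟩)⁻¹ else X ⟨c.1, mem_lts.1 hc⟩ := h3
        rw [hg, hh, List.map_append, List.prod_append, h4]
        simp

theorem a2_any (X : Fin r → G) {S : List Wd × Wd → Bool} (hS : Orc X S) (acc : List Wd) (w : Wd) :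
    (acc.any (fun u => S ([], u ++ winv w))) = true ↔ ev X w ∈ acc.map (ev X) := by
  rw [List.any_eq_true, List.mem_map]
  constructor
  · rintro ⟨u, hu, h⟩
    rw [wp_iff X hS, ev_append, ev_winv, mul_inv_eq_one] at h
    exact ⟨u, hu, h⟩
  · rintro ⟨u, hu, h⟩
    refine ⟨u, hu, ?_⟩
    rw [wp_iff X hS, ev_append, ev_winv, mul_inv_eq_one]
    exact h

theorem a2_ins (X : Fin r → G) {S : List Wd × Wd → Bool} (hS : Orc X S) (acc : List Wd) (w : Wd)
    (hacc : (acc.map (ev X)).Nodup) :
    ((ins S acc w).map (ev X)).Nodup ∧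
      (∀ g, g ∈ (ins S acc w).map (ev X) ↔ g ∈ acc.map (ev X) ∨ g = ev X w) ∧
      ∃ t, ins S acc w = acc ++ t := by
  by_cases h : (acc.any (fun u => S ([], u ++ winv w))) = true
  · have h1 : ins S acc w = acc := by
      unfold ins
      rw [h, cond_true]
    have h2 := (a2_any X hS acc w).1 h
    rw [h1]
    refine ⟨hacc, fun g => ⟨fun hg => Or.inl hg, ?_⟩, [], (List.append_nil _).symm⟩
    rintro (hg | hg)
    · exact hg
    · rw [hg]
      exact h2
  · have h1 : ins S acc w = acc ++ [w] := by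
      unfold ins
      rw [Bool.not_eq_true] at h
      rw [h, cond_false]
    have h2 : ev X w ∉ acc.map (ev X) := fun hc => h ((a2_any X hS acc w).2 hc)
    rw [h1]
    refine ⟨?_, fun g => ?_, [w], rfl⟩
    · rw [List.map_append, List.nodup_append]
      refine ⟨hacc, by simp, ?_⟩
      intro g hg g' hg' hgg
      rw [List.map_cons, List.map_nil, List.mem_singleton] at hg'
      rw [hgg, hg'] at hg
      exact h2 hg
    · rw [List.map_append, List.mem_append, List.map_cons, List.map_nil, List.mem_singleton]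

/-- Row A. By induction on `l`, for all `acc`. -/
theorem foldl_ins (X : Fin r → G) {S : List Wd × Wd → Bool} (hS : Orc X S) (l acc : List Wd)
    (hacc : (acc.map (ev X)).Nodup) :
    ((l.foldl (ins S) acc).map (ev X)).Nodup ∧
      (∀ g, g ∈ (l.foldl (ins S) acc).map (ev X) ↔ g ∈ acc.map (ev X) ∨ g ∈ l.map (ev X)) ∧
      ∃ t, l.foldl (ins S) acc = acc ++ t := by
  induction l generalizing acc with
  | nil =>
    refine ⟨hacc, fun g => ⟨fun hg => Or.inl hg, ?_⟩, [], (List.append_nil _).symm⟩
    rintro (hg | hg)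
    · exact hg
    · simp at hg
  | cons w l ih =>
    obtain ⟨h1, h2, t1, h3⟩ := a2_ins X hS acc w hacc
    obtain ⟨h4, h5, t2, h6⟩ := ih (ins S acc w) h1
    rw [List.foldl_cons]
    refine ⟨h4, fun g => ?_, t1 ++ t2, ?_⟩
    · rw [h5, h2, List.map_cons, List.mem_cons, or_assoc]
    · rw [h6, h3, List.append_assoc]

/-- Row A. By induction on `n`. The list for `n` has `(Ball X n).ncard ≤ (Ball X (n + 1)).ncard ≤ K` elements
(`List.Nodup`, `Set.ncard`, `ball_mono`, `ball_finite`), so the guard is satisfied; `foldl_ins`,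
`ball_succ`. -/
theorem reps_spec (X : Fin r → G) {S : List Wd × Wd → Bool} (hS : Orc X S) {K : ℕ} : ∀ n : ℕ,
    (Ball X n).ncard ≤ K → ((reps S r K n).map (ev X)).Nodup ∧
      (∀ g, g ∈ (reps S r K n).map (ev X) ↔ g ∈ Ball X n) ∧ ∃ t, reps S r K n = [] :: t := by
  intro n
  induction n with
  | zero =>
    intro _
    have h0 : reps S r K 0 = [[]] := rfl
    rw [h0]
    refine ⟨by simp, fun g => ?_, [], rfl⟩
    rw [List.map_cons, List.map_nil, List.mem_singleton, ev_nil]
    constructor
    · rintro rfl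
      exact one_mem_ball X 0
    · rintro ⟨l, hl, rfl⟩
      have hl' : l = [] := List.length_eq_zero_iff.1 (Nat.le_zero.1 hl)
      rw [hl']
      rfl
  | succ n ih =>
    intro hK
    have hK' : (Ball X n).ncard ≤ K :=
      (Set.ncard_le_ncard (ball_mono X (Nat.le_succ n)) (ball_finite X (n + 1))).trans hK
    obtain ⟨h1, h2, t, h3⟩ := ih hK'
    have hlen : (reps S r K n).length = (Ball X n).ncard := by
      classical
      have h4 : Ball X n = (((reps S r K n).map (ev X)).toFinset : Set G) := by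
        ext g
        rw [List.coe_toFinset, Set.mem_ofPred_eq, h2]
      rw [h4, Set.ncard_coe_finset, List.toFinset_card_of_nodup h1, List.length_map]
    have hs : reps S r K (n + 1) = lay S r (reps S r K n) := by
      have h5 : reps S r K (n + 1) = layK S r K (reps S r K n) := by
        unfold reps
        rw [Function.iterate_succ_apply']
      rw [h5]
      unfold layK
      have h6 : leb (reps S r K n).length K = true := by
        rw [hlen]
        exact decide_eq_true hK'
      rw [h6, cond_true]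
    obtain ⟨h7, h8, t2, h9⟩ := foldl_ins X hS
      ((reps S r K n).flatMap fun u => (lts r).map fun l => u ++ [l]) (reps S r K n) h1
    rw [hs]
    unfold lay
    refine ⟨h7, fun g => ?_, t ++ t2, ?_⟩
    · rw [h8, h2, ball_succ]
      apply or_congr Iff.rfl
      rw [List.mem_map]
      constructor
      · rintro ⟨v, hv, rfl⟩
        rw [List.mem_flatMap] at hv
        obtain ⟨u, hu, hv⟩ := hv
        rw [List.mem_map] at hv
        obtain ⟨c, hc, rfl⟩ := hv
        refine ⟨ev X u, (h2 _).1 (List.mem_map_of_mem hu), c, hc, ?_⟩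
        rw [ev_append]
        congr 1
        simp [ev]
      · rintro ⟨h, hh, c, hc, rfl⟩
        obtain ⟨u, hu, rfl⟩ := List.mem_map.1 ((h2 h).2 hh)
        refine ⟨u ++ [c], ?_, ?_⟩
        · rw [List.mem_flatMap]
          exact ⟨u, hu, List.mem_map.2 ⟨c, hc, rfl⟩⟩
        · rw [ev_append]
          congr 1
          simp [ev]
    · rw [h9, h3]
      rfl

theorem b_getD (R : List Wd) {c : ℕ} (hc : c < R.length) : R.getD c [] = R[c] :=
  List.getD_eq_getElem _ _ _

/-- the test of the table -/
theorem b_test (X : Fin r → G) {S : List Wd × Wd → Bool} (hS : Orc X S) (u v : Wd) (l : ℕ × Bool) :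
    S ([], u ++ (l :: winv v)) = true ↔ ev X v = ev X u * letter X l := by
  rw [wp_iff X hS, ev_append]
  have h1 : ev X (l :: winv v) = letter X l * (ev X v)⁻¹ := by
    have : ev X (l :: winv v) = letter X l * ev X (winv v) := by
      unfold ev
      rw [List.map_cons, List.prod_cons]
    rw [this, ev_winv]
  rw [h1, ← mul_assoc, mul_inv_eq_one]
  exact eq_comm

theorem b_mem {S : List Wd × Wd → Bool} {R : List Wd} {c : ℕ} {l : Lt} {c' : ℕ} :
    ((c, l), c') ∈ tabW S r R ↔ c < R.length ∧ c' < R.length ∧ ∃ i, i < r ∧ l.1 = nm i ∧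
      S ([], R.getD c [] ++ ((i, l.2) :: winv (R.getD c' []))) = true := by
  unfold tabW
  rw [List.mem_map]
  constructor
  · rintro ⟨⟨⟨a, i, b⟩, a'⟩, h1, h2⟩
    rw [List.mem_filter, List.mem_product, List.mem_product, List.mem_range, List.mem_range,
      mem_lts] at h1
    obtain ⟨⟨⟨h3, h4⟩, h5⟩, h6⟩ := h1
    simp only [Prod.mk.injEq] at h2
    obtain ⟨⟨rfl, rfl⟩, rfl⟩ := h2
    exact ⟨h3, h5, i, h4, rfl, h6⟩
  · rintro ⟨h1, h2, i, h3, h4, h5⟩
    refine ⟨((c, (i, l.2)), c'), ?_, ?_⟩
    · rw [List.mem_filter, List.mem_product, List.mem_product, List.mem_range, List.mem_range,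
        mem_lts]
      exact ⟨⟨⟨h1, h3⟩, h2⟩, h5⟩
    · obtain ⟨l1, l2⟩ := l
      simp only at h4
      subst h4
      rfl

/-- Row B. `IsTab` for the computed table: `wp_iff`, `ev_append`, `ev_winv`; `lvX_nm`, `mem_LL`, `mem_lts`;
`R.getD c [] = R[c]`, `List.Nodup.getElem_inj_iff`. -/
theorem tabW_isTab (X : Fin r → G) {S : List Wd × Wd → Bool} (hS : Orc X S) {n : ℕ} {t : List Wd}
    (hnd : ((([] : Wd) :: t).map (ev X)).Nodup)
    (hB : ∀ g, g ∈ (([] : Wd) :: t).map (ev X) ↔ g ∈ Ball X n) :
    IsTab (lvX X) (fun l => l ∈ LL r) (Ball X) n (tabW S r ([] :: t)) (([] : Wd) :: t).length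
      (fun c => ev X ((([] : Wd) :: t).getD c [])) := by
  set R : List Wd := [] :: t with hR
  have hmapget : ∀ {c : ℕ} (hc : c < R.length), (R.map (ev X))[c]'(by simpa using hc) =
      ev X (R.getD c []) := by
    intro c hc
    rw [List.getElem_map, b_getD R hc]
  constructor
  · rw [hR]
    simp
  · rw [hR]
    rfl
  · intro c hc c' hc' h
    have h1 : (R.map (ev X))[c]'(by simpa using hc) = (R.map (ev X))[c']'(by simpa using hc') := by
      rw [hmapget hc, hmapget hc']
      exact h
    exact (List.Nodup.getElem_inj_iff hnd).1 h1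
  · intro c l c' h
    obtain ⟨-, -, i, -, h2, h3⟩ := b_mem.1 h
    rw [b_test X hS] at h3
    have h4 : lvX X l = letter X (i, l.2) := by
      obtain ⟨l1, l2⟩ := l
      simp only at h2
      subst h2
      exact lvX_nm X (i, l2)
    rw [h4]
    exact h3
  · intro c hc l hl h
    obtain ⟨i, hi, h2⟩ := mem_LL.1 hl
    have h4 : lvX X l = letter X (i, l.2) := by
      obtain ⟨l1, l2⟩ := l
      simp only at h2
      subst h2
      exact lvX_nm X (i, l2)
    obtain ⟨c', hc', h5⟩ := List.getElem_of_mem ((hB _).2 h)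
    have hc'' : c' < R.length := by simpa using hc'
    refine ⟨c', hc'', b_mem.2 ⟨hc, hc'', i, hi, h2, ?_⟩⟩
    rw [b_test X hS, ← h4, ← h5, hmapget hc'']

theorem c1_ins (S : List Wd × Wd → Bool) (acc : List Wd) (w : Wd) :
    (∀ v ∈ ins S acc w, v ∈ acc ∨ v = w) ∧ (ins S acc w).length ≤ acc.length + 1 := by
  unfold ins
  cases acc.any (fun u => S ([], u ++ winv w))
  · simp only [cond_false]
    refine ⟨fun v hv => ?_, ?_⟩
    · rw [List.mem_append, List.mem_singleton] at hv
      exact hv
    · rw [List.length_append, List.length_singleton]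
  · simp only [cond_true]
    exact ⟨fun v hv => Or.inl hv, Nat.le_succ _⟩

theorem c1_foldl (S : List Wd × Wd → Bool) : ∀ (l acc : List Wd),
    (∀ v ∈ l.foldl (ins S) acc, v ∈ acc ∨ v ∈ l) ∧
      (l.foldl (ins S) acc).length ≤ acc.length + l.length := by
  intro l
  induction l with
  | nil =>
    intro acc
    exact ⟨fun v hv => Or.inl hv, Nat.le_refl _⟩
  | cons w l ih =>
    intro acc
    obtain ⟨h1, h2⟩ := ih (ins S acc w)
    obtain ⟨h3, h4⟩ := c1_ins S acc w
    rw [List.foldl_cons]
    refine ⟨fun v hv => ?_, ?_⟩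
    · rcases h1 v hv with h | h
      · rcases h3 v h with h | h
        · exact Or.inl h
        · exact Or.inr (h ▸ List.mem_cons_self)
      · exact Or.inr (List.mem_cons_of_mem _ h)
    · rw [List.length_cons]
      omega

theorem c1_lts (r : ℕ) : (lts r).length = 2 * r := by
  unfold lts
  rw [List.length_flatMap]
  simp
  ring

theorem c1_lay (S : List Wd × Wd → Bool) (r : ℕ) (acc : List Wd) :
    (∀ v ∈ lay S r acc, v ∈ acc ∨ ∃ u ∈ acc, ∃ c ∈ lts r, v = u ++ [c]) ∧
      (lay S r acc).length ≤ acc.length * (2 * r + 1) := by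
  obtain ⟨h1, h2⟩ := c1_foldl S (acc.flatMap fun u => (lts r).map fun l => u ++ [l]) acc
  refine ⟨fun v hv => ?_, ?_⟩
  · rcases h1 v hv with h | h
    · exact Or.inl h
    · right
      rw [List.mem_flatMap] at h
      obtain ⟨u, hu, hv'⟩ := h
      rw [List.mem_map] at hv'
      obtain ⟨c, hc, he⟩ := hv'
      exact ⟨u, hu, c, hc, he.symm⟩
  · refine h2.trans ?_
    rw [List.length_flatMap]
    have e1 : (acc.map fun u => ((lts r).map fun l => u ++ [l]).length).sum = acc.length * (2 * r) := by
      simp [c1_lts]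
    rw [e1]
    ring_nf
    exact Nat.le_refl _

/-- Row C. The words of `reps` have at most `n` letters, with indices `< r`; their number is at most
`(K + 1) * (2 * r + 1)`. -/
theorem reps_size (S : List Wd × Wd → Bool) (r K : ℕ) : ∀ n : ℕ,
    (∀ w ∈ reps S r K n, w.length ≤ n ∧ ∀ c ∈ w, c.1 < r) ∧
      (reps S r K n).length ≤ (K + 1) * (2 * r + 1) := by
  intro n
  induction n with
  | zero =>
    refine ⟨fun w hw => ?_, ?_⟩
    · have h1 : w = [] := by
        simpa [reps] using hw
      rw [h1]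
      exact ⟨Nat.le_refl _, fun c hc => absurd hc List.not_mem_nil⟩
    · show 1 ≤ (K + 1) * (2 * r + 1)
      exact Nat.one_le_iff_ne_zero.2 (Nat.mul_ne_zero (Nat.succ_ne_zero _) (Nat.succ_ne_zero _))
  | succ n ih =>
    have e1 : reps S r K (n + 1) = layK S r K (reps S r K n) := by
      unfold reps
      rw [Function.iterate_succ_apply']
    rw [e1]
    unfold layK
    cases hb : leb (reps S r K n).length K
    · simp only [cond_false]
      exact ⟨fun w hw => ⟨(ih.1 w hw).1.trans (Nat.le_succ _), (ih.1 w hw).2⟩, ih.2⟩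
    · simp only [cond_true]
      have hK : (reps S r K n).length ≤ K := by
        simpa [leb] using hb
      obtain ⟨h1, h2⟩ := c1_lay S r (reps S r K n)
      refine ⟨fun w hw => ?_, ?_⟩
      · rcases h1 w hw with h | ⟨u, hu, c, hc, rfl⟩
        · exact ⟨(ih.1 w h).1.trans (Nat.le_succ _), (ih.1 w h).2⟩
        · have h3 := ih.1 u hu
          refine ⟨?_, fun c' hc' => ?_⟩
          · rw [List.length_append, List.length_singleton]
            omega
          · rw [List.mem_append, List.mem_singleton] at hc'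
            rcases hc' with h | h
            · exact h3.2 c' h
            · rw [h]
              unfold lts at hc
              rw [List.mem_flatMap] at hc
              obtain ⟨i, hi, hc2⟩ := hc
              rw [List.mem_range] at hi
              simp only [List.mem_cons, List.not_mem_nil, or_false] at hc2
              rcases hc2 with h4 | h4
              · rw [h4]
                exact hi
              · rw [h4]
                exact hi
      · refine h2.trans (Nat.mul_le_mul_right _ ?_)
        omega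

end

section

variable {α : Type} [En α]

theorem c2_ins {S : List Wd × Wd → Bool} (hS : PT S) {acc : α → List Wd} {w : α → Wd}
    (hacc : PT acc) (hw : PT w) : PT (fun a => ins S (acc a) (w a)) := by
  unfold ins
  have h1 : PT (fun q : α × Wd => S (([] : List Wd), q.2 ++ winv (w q.1))) :=
    hS.comp (PT.pair (PT.const []) (PT.append (PT.snd PT.id') (PT_winv (hw.comp (PT.fst PT.id')))))
  exact PT.cond (PT.any (p := fun a u => S (([] : List Wd), u ++ winv (w a))) hacc h1) hacc
    (PT.append hacc (PT.cons hw (PT.const [])))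

theorem c2_cand (r : ℕ) {acc : α → List Wd} (hacc : PT acc) :
    PT (fun a => (acc a).flatMap fun u => (lts r).map fun l => u ++ [l]) := by
  refine PT.flatMap (F := fun _ (u : Wd) => (lts r).map fun l => u ++ [l]) hacc ?_
  refine PT.map (F := fun (p : α × Wd) l => p.2 ++ [l]) (PT.const (lts r)) ?_
  exact PT.append (PT.snd (PT.fst PT.id')) (PT.cons (PT.snd PT.id') (PT.const []))

/-- Row C. `PT.foldl_add` with `l a = (acc a).flatMap _`; `PT.flatMap`, `PT.flatMap_const` (or `PT.map` with
`PT.const (lts r)`). -/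
theorem PT_lay {S : List Wd × Wd → Bool} (hS : PT S) (r : ℕ) {acc : α → List Wd} (h : PT acc) :
    PT (fun a => lay S r (acc a)) := by
  unfold lay
  have hl := c2_cand r h
  obtain ⟨e, he⟩ := hl.bound
  refine PT.foldl_add (g := fun _ => ins S) hl h
    (c2_ins hS (PT.fst (PT.snd PT.id')) (PT.snd (PT.snd PT.id'))) ?_
  refine ⟨fun n => (n + 2) ^ e, (PB.id.add (PB.const 2)).pow e, ?_⟩
  intro a c b hb
  have h1 := (sz_mem hb).trans (he a)
  unfold ins
  cases c.any fun u => S (([] : List Wd), u ++ winv b) with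
  | true => exact Nat.le_add_right _ _
  | false =>
    show sz (c ++ [b]) ≤ _
    rw [sz_append, sz_cons, sz_nil]
    show sz c + (2 * sz b + 1 + 0) ≤ sz c + (sz a + 2) ^ e
    omega

theorem c3_word {r n : ℕ} {w : Wd} (hn : w.length ≤ n) (hr : ∀ c ∈ w, c.1 < r) :
    sz w ≤ n * (4 * r + 1) := by
  have h1 : ∀ c ∈ w, sz c ≤ 2 * r := by
    intro c hc
    have h2 := hr c hc
    obtain ⟨i, b⟩ := c
    rw [sz_pair, sz_nat, sz_bool]
    have h3 : i < r := h2
    omega
  refine (sz_le_of h1).trans ?_
  have h4 : 2 * (2 * r) + 1 = 4 * r + 1 := by ring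
  rw [h4]
  exact Nat.mul_le_mul_right _ hn

/-- Row C. `PT.iter`; the bound by `reps_size`: a word with at most `n` letters with indices `< r` has a size of
at most `n * (2 * (2 * r + 2) + 1)`, say (`sz_cons`, `sz_pair`, `sz_nat`, `sz_bool`), and `sz_le_of`. -/
theorem PT_reps {S : List Wd × Wd → Bool} (hS : PT S) (r : ℕ) {K n : α → ℕ} (hK : PT K) (hn : PT n) :
    PT (fun a => reps S r (K a) (n a)) := by
  obtain ⟨d, hd⟩ := hK.bound
  obtain ⟨e, he⟩ := hn.bound
  unfold reps
  refine PT.iter (g := fun a acc => layK S r (K a) acc) hn (PT.const [[]]) ?_ ?_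
  · show PT (fun p : α × List Wd => layK S r (K p.1) p.2)
    unfold layK
    exact PT.cond (PT.leb (PT.length (PT.snd PT.id')) (hK.comp (PT.fst PT.id')))
      (PT_lay hS r (PT.snd PT.id')) (PT.snd PT.id')
  · refine ⟨fun m => (((m + 2) ^ d + 1) * (2 * r + 1)) * (2 * ((m + 2) ^ e * (4 * r + 1)) + 1),
      ((((PB.id.add (PB.const 2)).pow d).add (PB.const 1)).mul (PB.const (2 * r + 1))).mul
        (((PB.const 2).mul (((PB.id.add (PB.const 2)).pow e).mul (PB.const (4 * r + 1)))).add
          (PB.const 1)), ?_⟩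
    intro a k hk
    obtain ⟨h1, h2⟩ := reps_size S r (K a) k
    have h3 := hd a
    have h4 := he a
    rw [sz_nat] at h3 h4
    have h5 : ∀ w ∈ reps S r (K a) k, sz w ≤ (sz a + 2) ^ e * (4 * r + 1) := fun w hw =>
      c3_word ((h1 w hw).1.trans (hk.trans h4)) (h1 w hw).2
    have h6 := sz_le_of h5
    have h7 : (reps S r (K a) k).length ≤ ((sz a + 2) ^ d + 1) * (2 * r + 1) :=
      h2.trans (Nat.mul_le_mul_right _ (by omega))
    exact h6.trans (Nat.mul_le_mul_right _ h7)

/-- Row D. -/
theorem PT_tabW {S : List Wd × Wd → Bool} (hS : PT S) (r : ℕ) {R : α → List Wd} (hR : PT R) :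
    PT (fun a => tabW S r (R a)) := by
  unfold tabW
  apply PT.map
  · apply PT.filter
    · exact PT.product (PT.product (PT.range (PT.length hR)) (PT.const (lts r)))
        (PT.range (PT.length hR))
    · have hR1 : PT (fun p : α × ((ℕ × (ℕ × Bool)) × ℕ) => R p.1) := hR.comp (PT.fst PT.id')
      have h1 : PT (fun p : α × ((ℕ × (ℕ × Bool)) × ℕ) => (R p.1).getD p.2.1.1 []) :=
        PT.getD (PT.fst (PT.fst (PT.snd PT.id'))) hR1 (PT.const [])
      have h2 : PT (fun p : α × ((ℕ × (ℕ × Bool)) × ℕ) => winv ((R p.1).getD p.2.2 [])) :=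
        PT_winv (PT.getD (PT.snd (PT.snd PT.id')) hR1 (PT.const []))
      have h3 : PT (fun p : α × ((ℕ × (ℕ × Bool)) × ℕ) =>
          ((R p.1).getD p.2.1.1 [] ++ (p.2.1.2 :: winv ((R p.1).getD p.2.2 [])) : Wd)) :=
        PT.append h1 (PT.cons (PT.snd (PT.fst (PT.snd PT.id'))) h2)
      have h4 : PT (fun p : α × ((ℕ × (ℕ × Bool)) × ℕ) =>
          (([], (R p.1).getD p.2.1.1 [] ++ (p.2.1.2 :: winv ((R p.1).getD p.2.2 []))) :
            List Wd × Wd)) := PT.pair (PT.const []) h3
      exact hS.comp h4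
  · have h5 : PT (fun p : α × ((ℕ × (ℕ × Bool)) × ℕ) => nm p.2.1.2.1) :=
      PT.encodeNat (PT.fst (PT.snd (PT.fst (PT.snd PT.id'))))
    exact PT.pair (PT.pair (PT.fst (PT.fst (PT.snd PT.id')))
      (PT.pair h5 (PT.snd (PT.snd (PT.fst (PT.snd PT.id')))))) (PT.snd (PT.snd PT.id'))

end

section

variable {G : Type} [Group G] {r : ℕ}

/-- the representatives for the input `z.1` and the padding `z.2` -/
noncomputable def repD (X : Fin r → G) (f : List Bool → Agi) (z : List Bool × List Bool) : List Wd :=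
  reps (orcS X) r z.2.length (cvI (f z.1)).1.length

/-- the decision procedure -/
noncomputable def solD (X : Fin r → G) (f : List Bool → Agi) (z : List Bool × List Bool) : Bool :=
  decide (((cvI (f z.1)).2.2, 0) ∈ rch (tabW (orcS X) r (repD X f z)) (repD X f z).length
    (cvI (f z.1)).1 (cvI (f z.1)).2.1)

/-- Row D. As `isPolyTime_solB`, with `PT_orcS`, `PT_reps`, `PT_tabW`. -/
theorem isPolyTime_solD {X : Fin r → G} (hP : SSP X ∈ P) {f : List Bool → Agi} (hf : IsPolyTime f) :
    IsPolyTime (solD X f) := by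
  apply isPolyTime_of_PT2
  unfold solD
  have h1 : PT (fun z : List Bool × List Bool => cvI (f z.1)) :=
    (PT_cvI hf).comp (PT.fst PT.id')
  have hR : PT (fun z : List Bool × List Bool => repD X f z) := by
    unfold repD
    exact PT_reps (PT_orcS hP) r (PT.length (PT.snd PT.id')) (PT.length (PT.fst h1))
  exact PT_mem' (PT.pair (PT.snd (PT.snd h1)) (PT.const 0))
    (PT_rch (PT_tabW (PT_orcS hP) r hR) (PT.length hR) (PT.fst h1) (PT.fst (PT.snd h1)))

/-- Row D. `solB_iff` (with `Dc.dec_enc`), `reps_spec`, `tabW_isTab`. -/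
theorem solD_iff {X : Fin r → G} {f : List Bool → Agi} {x : List Bool} (hI : IsInst r (f x))
    {pad : List Bool} (hp : (Ball X (f x).1.length).ncard ≤ pad.length) :
    solD X f (x, pad) = true ↔ Yes X (f x) := by
  have hS : Orc X (orcS X) := orcS_spec X
  have hlen : (cvI (f x)).1.length = (f x).1.length := by simp [cvI]
  have hrep : repD X f (x, pad) = reps (orcS X) r pad.length (f x).1.length := by
    unfold repD
    rw [hlen]
  obtain ⟨h1, h2, t, ht⟩ := reps_spec X hS (K := pad.length) (f x).1.length hp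
  rw [ht] at h1 h2
  have h3 := tabW_isTab X hS h1 h2
  have h4 := solB_iff (f := f) (x := x) hI h3 le_rfl
  rw [← h4]
  unfold solB solD
  simp only
  rw [Dc.dec_enc, hrep, ht]

/-- Row E. Slow growth. As `ioSubexp_of_red`: for `k ≥ 1` and `m₀` take `k' = (k + 2) * d + m₀ + 5`, `d` a
bound of `PT_cvI`, and some `m ≥ k'` with `(Ball X (m ^ k')).ncard < 2 ^ m`. An input `x` of length `m ^ k`
gives an instance with at most `(3 * m ^ k + 2) ^ d ≤ m ^ ((k + 2) * d) ≤ m ^ k'` edges (`ball_mono`,
`Set.ncard_le_ncard`, `ball_finite`). -/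
theorem ioSub_of_red (X : Fin r → G) (hP : SSP X ∈ P) (h : ¬ FastGrowth X) {L : DecisionProblem}
    {f : List Bool → Agi} (hf : IsPolyTime f)
    (hfx : ∀ x, IsInst r (f x) ∧ (L x = true ↔ Yes X (f x))) : L ∈ IoSub := by
  intro k _
  refine ⟨solD X f, isPolyTime_solD hP hf, ?_⟩
  obtain ⟨d, hd⟩ := (PT_cvI hf).bound
  intro m₀
  obtain ⟨k', hk'⟩ : ∃ k', k' = (k + 2) * d + m₀ + 5 := ⟨_, rfl⟩
  obtain ⟨m, hm'⟩ := not_forall.1 (not_exists.1 h k')
  obtain ⟨hm, hlt'⟩ := Classical.not_imp.1 hm'
  have hlt := not_le.1 hlt'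
  have hm5 : 5 ≤ m := by omega
  have hpos : 1 ≤ m := by omega
  refine ⟨m, by omega, ?_⟩
  intro x hx
  obtain ⟨hI, hLx⟩ := hfx x
  have hlen : (f x).1.length ≤ m ^ k' := by
    have h1 : (f x).1.length ≤ sz (cvI (f x)) := by
      have e1 : (f x).1.length = (cvI (f x)).1.length := by simp [cvI]
      have e2 := length_le_sz (cvI (f x)).1
      have e3 : sz (cvI (f x)) = 2 * sz (cvI (f x)).1 + 1 + sz (cvI (f x)).2 := sz_pair _ _
      omega
    have h2 := hd x
    rw [sz_listBool, hx] at h2
    have h3 : 3 * m ^ k + 2 ≤ m ^ (k + 2) := by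
      have e1 : m ^ (k + 2) = m ^ k * (m * m) := by rw [pow_add, pow_two]
      have e2 : 1 ≤ m ^ k := Nat.one_le_pow _ _ hpos
      have e3 : 5 * 5 ≤ m * m := Nat.mul_le_mul hm5 hm5
      have e4 : m ^ k * (5 * 5) ≤ m ^ k * (m * m) := Nat.mul_le_mul_left _ e3
      rw [e1]
      omega
    calc (f x).1.length ≤ sz (cvI (f x)) := h1
      _ ≤ (3 * m ^ k + 2) ^ d := h2
      _ ≤ (m ^ (k + 2)) ^ d := Nat.pow_le_pow_left h3 d
      _ = m ^ ((k + 2) * d) := by rw [← pow_mul]
      _ ≤ m ^ k' := Nat.pow_le_pow_right hpos (by omega)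
  have hp : (Ball X (f x).1.length).ncard ≤ (List.replicate (2 ^ m) true).length := by
    rw [List.length_replicate]
    exact (Set.ncard_le_ncard (ball_mono X hlen) (ball_finite X _)).trans hlt.le
  rw [Bool.eq_iff_iff, hLx, solD_iff hI hp]

/-- Row E. As `agp_mem` and `np_subset` in All.lean (`getI_polyTime`, `getI_inst`, `agp_iff`,
`exists_red`). -/
theorem agp_mem_ioSub (X : Fin r → G) (hP : SSP X ∈ P) (h : ¬ FastGrowth X) :
    AGP X ∈ IoSub ∧ (NPHard (AGP X) → NP ⊆ IoSub) := by
  refine ⟨ioSub_of_red X hP h (getI_polyTime r) fun x => ⟨getI_inst r x, agp_iff X x⟩, ?_⟩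
  intro hA L hL
  obtain ⟨g, hg, hgL⟩ := hA L hL
  obtain ⟨f, hf, hfL⟩ := exists_red X hg hgL
  exact ioSub_of_red X hP h hf hfL

end

end Pool.Agent.AgpSsp.SG
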