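import Pool.Agent.Lib.MP_a9d022_lc.Zpp.Run
import Pool.Agent.Lib.MP_a9d022_lc.Zpp.Bad

/-! # The algorithm fails with small probability -/

set_option autoImplicit false

namespace Pool.Agent.AgpSsp

open N68a2faeb N487b59b3 Pool.Agent.SspConj Classical

variable {G : Type} [Group G] {r : ℕ} {V : Type}

/-- the sum over all changes of one coordinate -/
theorem p1_sum {B : Type} [Fintype B] {K : ℕ} (q : Fin K) (f : (Fin K → B) → ℕ) :
    ∑ γ : Fin K → B, ∑ b : B, f (Function.update γ q b) = Fintype.card B * ∑ γ, f γ := by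
  let e : ((Fin K → B) × B) ≃ ((Fin K → B) × B) :=
    { toFun := fun x => (Function.update x.1 q x.2, x.1 q)
      invFun := fun x => (Function.update x.1 q x.2, x.1 q)
      left_inv := fun x => by
        refine Prod.ext ?_ ?_
        · simp
        · simp
      right_inv := fun x => by
        refine Prod.ext ?_ ?_
        · simp
        · simp }
  have h1 : ∑ x : (Fin K → B) × B, f (Function.update x.1 q x.2) =
      ∑ x : (Fin K → B) × B, f x.1 :=
    Fintype.sum_equiv e _ _ (fun x => rfl)
  have h2 : ∑ x : (Fin K → B) × B, f (Function.update x.1 q x.2) =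
      ∑ γ : Fin K → B, ∑ b : B, f (Function.update γ q b) :=
    Fintype.sum_prod_type _
  have h3 : ∑ x : (Fin K → B) × B, f x.1 = ∑ γ : Fin K → B, ∑ _b : B, f γ :=
    Fintype.sum_prod_type _
  rw [← h2, h1, h3, Finset.mul_sum]
  refine Finset.sum_congr rfl fun γ _ => ?_
  rw [Finset.sum_const, Finset.card_univ, smul_eq_mul]

/-- Row P1. A set of `γ : Fin K → B` which contains, for fixed other coordinates, at most `|B| / c` values
of the coordinate `q` (`c * (number) ≤ |B|`) has at most `|B| ^ K / c` elements. -/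
theorem card_le_fib {B : Type} [Fintype B] {K c : ℕ} (S : Finset (Fin K → B)) (q : Fin K)
    (hS : ∀ γ : Fin K → B, c * (Finset.univ.filter fun b : B => Function.update γ q b ∈ S).card ≤
      Fintype.card B) : c * S.card ≤ Fintype.card B ^ K := by
  rcases Nat.eq_zero_or_pos (Fintype.card B) with hB | hB
  · have hE : IsEmpty B := Fintype.card_eq_zero_iff.1 hB
    have hS0 : S = ∅ := by
      apply Finset.eq_empty_of_forall_notMem
      intro γ _
      exact hE.elim (γ q)
    rw [hS0, Finset.card_empty, Nat.mul_zero]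
    exact Nat.zero_le _
  · have hcard : S.card = ∑ γ : Fin K → B, (if γ ∈ S then 1 else 0) := by
      rw [← Finset.card_filter]
      congr 1
      ext γ
      simp
    have hsum := p1_sum (B := B) q (fun γ => if γ ∈ S then 1 else 0)
    rw [← hcard] at hsum
    have hle : ∑ γ : Fin K → B, c * ∑ b : B, (if Function.update γ q b ∈ S then 1 else 0) ≤
        ∑ _γ : Fin K → B, Fintype.card B := by
      refine Finset.sum_le_sum fun γ _ => ?_
      have h := hS γ
      rw [Finset.card_filter] at h
      exact h
    rw [← Finset.mul_sum, hsum, Finset.sum_const, Finset.card_univ, smul_eq_mul] at hle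
    have hK : Fintype.card (Fin K → B) = Fintype.card B ^ K := by
      rw [Fintype.card_fun, Fintype.card_fin]
    rw [hK] at hle
    have h3 : Fintype.card B * (c * S.card) ≤ Fintype.card B * Fintype.card B ^ K := by
      calc Fintype.card B * (c * S.card) = c * (Fintype.card B * S.card) := by ring
        _ ≤ Fintype.card B ^ K * Fintype.card B := hle
        _ = Fintype.card B * Fintype.card B ^ K := by ring
    exact Nat.le_of_mul_le_mul_left h3 hB

/-- the candidates for the word number `k` given by the random values `γ`; `u b` is the word of `b` -/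
noncomputable def cnd {B : Type} {K R : ℕ} (r : ℕ) (u : B → Wd) (γ : Fin K → Fin R → B) (k : ℕ) : List Wd :=
  if h : k < K then (List.finRange R).flatMap fun s => (ys r).map fun y => u (γ ⟨k, h⟩ s) ++ y else []

/-- Row P2. For one choice: if at most half of the `b` have only bad candidates, then at most
`|B| ^ R / 2 ^ R` of the `g : Fin R → B` have only bad candidates (the set is a product). -/
theorem card_pow_half {B : Type} [Fintype B] {R : ℕ} (p : B → Prop)
    (hp : 2 * (Finset.univ.filter fun b : B => p b).card ≤ Fintype.card B) :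
    2 ^ R * (Finset.univ.filter fun g : Fin R → B => ∀ s, p (g s)).card ≤ Fintype.card B ^ R := by
  have hset : (Finset.univ.filter fun g : Fin R → B => ∀ s, p (g s)) =
      Fintype.piFinset (fun _ : Fin R => Finset.univ.filter fun b : B => p b) := by
    ext g
    simp [Fintype.mem_piFinset]
  rw [hset, Fintype.card_piFinset, Finset.prod_const, Finset.card_univ, Fintype.card_fin,
    ← Nat.mul_pow]
  exact Nat.pow_le_pow_left hp R

/-- Row P3. The state before the choice for the time `j - 1` does not depend on the candidates for the words with the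
numbers `> es.length - j`. -/
theorem sta_congr [DecidableEq V] (S : List Wd × Wd → Bool) (es : List (Edg V)) (s ω : V)
    {cand cand' : ℕ → List Wd} {j : ℕ} (h : ∀ k ≤ es.length - j, cand k = cand' k) :
    sta S es s ω cand j = sta S es s ω cand' j := by
  obtain ⟨d, hd⟩ : ∃ d, es.length - j = d := ⟨_, rfl⟩
  induction d generalizing j with
  | zero =>
    have hle : es.zipIdx.length ≤ j := by
      rw [List.length_zipIdx]
      omega
    have h0 : cand 0 = cand' 0 := h 0 (Nat.zero_le _)
    unfold sta
    rw [List.drop_eq_nil_of_le hle]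
    simp only [List.reverse_nil, List.foldl_nil, st0, h0]
  | succ d ih =>
    have hj : j < es.length := by omega
    rw [sta_step S es s ω cand hj, sta_step S es s ω cand' hj,
      ih (j := j + 1) (fun k hk => h k (by omega)) (by omega)]
    have h1 : cand (es.length - j) = cand' (es.length - j) := h _ le_rfl
    simp only [stp, h1]

theorem p2_nil {α : Type} {l : List α} {f : α → Bool} (h : (!(l.filter f).isEmpty) = false) :
    ∀ w ∈ l, f w = false := by
  intro w hw
  have h1 : (l.filter f).isEmpty = true := by simpa using h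
  have h2 : l.filter f = [] := List.isEmpty_iff.1 h1
  have h3 := List.filter_eq_nil_iff.1 h2 w hw
  simpa using h3

theorem p2_fail [DecidableEq V] (S : List Wd × Wd → Bool) (es : List (Edg V)) (s ω : V)
    (cand : ℕ → List Wd) (d j : ℕ) (hd : es.length ≤ j + d) (h : (sta S es s ω cand j).1 = false) :
    (∀ w ∈ cand 0, tst0 S (labs es) w = false) ∨ ∃ j, ∃ hj : j < es.length,
      ∀ w ∈ cand (es.length - j), tst S (labs es) (bs es.length (sta S es s ω cand (j + 1)).2) ω
        (c0 (sta S es s ω cand (j + 1)).2) es.zipIdx (vts s es) (es[j], j) w = false := by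
  induction d generalizing j with
  | zero =>
    have hle : es.zipIdx.length ≤ j := by
      rw [List.length_zipIdx]
      omega
    unfold sta at h
    rw [List.drop_eq_nil_of_le hle] at h
    simp only [List.reverse_nil, List.foldl_nil, st0] at h
    exact Or.inl (p2_nil h)
  | succ d ih =>
    by_cases hj : j < es.length
    · rw [sta_step S es s ω cand hj] at h
      simp only [stp, Bool.and_eq_false_iff] at h
      rcases h with h | h
      · exact ih (j + 1) (by omega) h
      · exact Or.inr ⟨j, hj, p2_nil h⟩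
    · exact ih j (by omega) h

/-- Row P3. If the run fails then there is a number `k` such that all candidates for the word number `k`
are bad for the state before its choice: `k = 0` and `tst0` is false for all candidates, or `k = es.length - j`
and `tst` is false for the state `sta (j + 1)` and all candidates. -/
theorem run_fail [DecidableEq V] (S : List Wd × Wd → Bool) (es : List (Edg V)) (s ω : V)
    (cand : ℕ → List Wd) (h : (run S es s ω cand).1 = false) :
    (∀ w ∈ cand 0, tst0 S (labs es) w = false) ∨ ∃ j, ∃ hj : j < es.length,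
      ∀ w ∈ cand (es.length - j), tst S (labs es) (bs es.length (sta S es s ω cand (j + 1)).2) ω
        (c0 (sta S es s ω cand (j + 1)).2) es.zipIdx (vts s es) (es[j], j) w = false := by
  have h0 : (sta S es s ω cand 0).1 = false := by rw [(sta_zero S es s ω cand).1]; exact h
  exact p2_fail S es s ω cand es.length 0 (by omega) h0

omit [Group G] in
theorem p3_fib {B : Type} [Fintype B] {K R : ℕ} (P : (Fin K → Fin R → B) → Prop) [DecidablePred P] (q : Fin K)
    (h : ∀ γ : Fin K → Fin R → B, ∃ p : B → Prop,
      2 * (Finset.univ.filter fun b : B => p b).card ≤ Fintype.card B ∧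
      ∀ g : Fin R → B, P (Function.update γ q g) → ∀ s, p (g s)) :
    2 ^ R * (Finset.univ.filter fun γ : Fin K → Fin R → B => P γ).card ≤
      Fintype.card (Fin K → Fin R → B) := by
  have h1 := card_le_fib (B := Fin R → B) (K := K) (c := 2 ^ R)
    (Finset.univ.filter fun γ : Fin K → Fin R → B => P γ) q (fun γ => by
      obtain ⟨p, hp, hg⟩ := h γ
      have h2 := card_pow_half (R := R) p hp
      rw [Fintype.card_fun, Fintype.card_fin]
      refine le_trans (Nat.mul_le_mul_left _ (Finset.card_le_card ?_)) h2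
      intro g hgm
      simp only [Finset.mem_filter, Finset.mem_univ, true_and] at hgm ⊢
      exact hg g hgm)
  rw [Fintype.card_fun (α := Fin K), Fintype.card_fin]
  exact h1

omit [Group G] in
theorem p3_cnd_ne {B : Type} {K R : ℕ} (u : B → Wd) (γ : Fin K → Fin R → B) (q : Fin K)
    (g : Fin R → B) {k : ℕ} (hk : k ≠ q.1) :
    cnd r u (Function.update γ q g) k = cnd r u γ k := by
  unfold cnd
  by_cases h : k < K
  · rw [dif_pos h, dif_pos h, Function.update_of_ne]
    intro h1
    exact hk (congrArg Fin.val h1)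
  · rw [dif_neg h, dif_neg h]

omit [Group G] in
theorem p3_mem_cnd {B : Type} {K R : ℕ} (u : B → Wd) (γ : Fin K → Fin R → B) (q : Fin K)
    (g : Fin R → B) (s : Fin R) {y : Wd} (hy : y ∈ ys r) :
    u (g s) ++ y ∈ cnd r u (Function.update γ q g) q.1 := by
  unfold cnd
  rw [dif_pos q.2, List.mem_flatMap]
  refine ⟨s, List.mem_finRange s, ?_⟩
  rw [List.mem_map]
  refine ⟨y, hy, ?_⟩
  rw [show (⟨q.1, q.2⟩ : Fin K) = q from rfl, Function.update_self]

theorem p3_zero (X : Fin r → G) (hX : Subgroup.closure (Set.range X) = ⊤)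
    {S : List Wd × Wd → Bool} (hS : Orc X S) (es : List (Edg V)) {B : Type} [Fintype B]
    (u : B → Wd) {K R M : ℕ} (hK : es.length + 1 ≤ K)
    (hu : ∀ g : G ⧸ Cinv G, (Finset.univ.filter fun b : B => ((ev X (u b) : G) : G ⧸ Cinv G) = g).card *
      2 ^ M ≤ Fintype.card B)
    (hM : (r + 1) * (4 * (es.length + 1) + 1) + 2 ≤ M) :
    2 ^ R * (Finset.univ.filter fun γ : Fin K → Fin R → B =>
      ∀ w ∈ cnd r u γ 0, tst0 S (labs es) w = false).card ≤ Fintype.card (Fin K → Fin R → B) := by
  have h0 : 0 < K := by omega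
  refine p3_fib (B := B) (K := K) (R := R) _ ⟨0, h0⟩ (fun γ => ?_)
  obtain ⟨Z, hZ, hb⟩ := bad_set0 ((labs es).map (ev X))
  have hZ' : Z.card ≤ 2 ^ (4 * (es.length + 1)) := by
    refine hZ.trans (Nat.pow_le_pow_right (by norm_num) ?_)
    rw [List.length_map]
    unfold labs
    rw [List.length_map]
    omega
  refine ⟨fun b => ∀ y ∈ ys r, ev X (u b) * ev X y ∈ Z ∨ ev X (u b) * ev X y * (ev X (u b) * ev X y) ∈ Z,
    by convert bad_half X hX (fun b => ev X (u b)) hu Z Z hZ' hZ' hM, ?_⟩
  intro g hg s y hy
  left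
  have h1 := hg _ (p3_mem_cnd u γ ⟨0, h0⟩ g s hy)
  have h2 : ¬ ∀ x, Sub ((labs es).map (ev X)) x → x * ev X (u (g s) ++ y) ≠ 1 := by
    rw [← tst0_iff X hS, h1]
    decide
  push Not at h2
  obtain ⟨x, hx, hx1⟩ := h2
  rw [← ev_append]
  exact hb _ ⟨x, hx, hx1⟩

theorem p3_step [DecidableEq V] (X : Fin r → G) (hX : Subgroup.closure (Set.range X) = ⊤)
    {S : List Wd × Wd → Bool} (hS : Orc X S) (es : List (Edg V)) (s ω : V) {B : Type} [Fintype B]
    (u : B → Wd) {K R M : ℕ} (hK : es.length + 1 ≤ K)
    (hu : ∀ g : G ⧸ Cinv G, (Finset.univ.filter fun b : B => ((ev X (u b) : G) : G ⧸ Cinv G) = g).card *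
      2 ^ M ≤ Fintype.card B)
    (hM : (r + 1) * (4 * (es.length + 1) + 1) + 2 ≤ M) {j : ℕ} (hj : j < es.length) :
    2 ^ R * (Finset.univ.filter fun γ : Fin K → Fin R → B =>
      ∀ w ∈ cnd r u γ (es.length - j),
        tst S (labs es) (bs es.length (sta S es s ω (cnd r u γ) (j + 1)).2) ω
        (c0 (sta S es s ω (cnd r u γ) (j + 1)).2) es.zipIdx (vts s es) (es[j], j) w = false).card ≤
      Fintype.card (Fin K → Fin R → B) := by
  have h0 : es.length - j < K := by omega
  refine p3_fib (B := B) (K := K) (R := R) _ ⟨es.length - j, h0⟩ (fun γ => ?_)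
  set st := sta S es s ω (cnd r u γ) (j + 1) with hst
  have hsta : ∀ g : Fin R → B,
      sta S es s ω (cnd r u (Function.update γ ⟨es.length - j, h0⟩ g)) (j + 1) = st := by
    intro g
    rw [hst]
    refine sta_congr S es s ω (fun k hk => ?_)
    refine p3_cnd_ne u γ _ g ?_
    show k ≠ es.length - j
    omega
  have hp : es.drop (((es[j], j) : Edg V × ℕ)).2 = (((es[j], j) : Edg V × ℕ)).1 :: es.drop (j + 1) :=
    List.drop_eq_getElem_cons hj
  obtain ⟨Z₁, Z₂, hZ₁, hZ₂, hb⟩ := bad_sets ((labs es).map (ev X)) (vts s es) ω (ev X (c0 st.2))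
    (fun i => ev X (bs es.length st.2 i)) j ((es[j]).1, (es[j]).2.1, ev X (es[j]).2.2)
    (evE X (es.drop (j + 1)))
  have hlen : ((labs es).map (ev X)).length + 2 * (evE X (es.drop (j + 1))).length +
      (vts s es).length + 1 ≤ 4 * (es.length + 1) := by
    unfold labs vts evE
    simp only [List.length_map, List.length_cons, List.length_drop]
    omega
  have hZ₁' : Z₁.card ≤ 2 ^ (4 * (es.length + 1)) :=
    hZ₁.trans (Nat.pow_le_pow_right (by norm_num) hlen)
  have hZ₂' : Z₂.card ≤ 2 ^ (4 * (es.length + 1)) :=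
    hZ₂.trans (Nat.pow_le_pow_right (by norm_num) hlen)
  refine ⟨fun b => ∀ y ∈ ys r, ev X (u b) * ev X y ∈ Z₁ ∨
      ev X (u b) * ev X y * (ev X (u b) * ev X y) ∈ Z₂,
    by convert bad_half X hX (fun b => ev X (u b)) hu Z₁ Z₂ hZ₁' hZ₂' hM, ?_⟩
  intro g hg i y hy
  have h1 := hg _ (p3_mem_cnd u γ ⟨es.length - j, h0⟩ g i hy)
  rw [hsta g] at h1
  have h2 := (tst_iff X hS (labs es) (bs es.length st.2) ω (c0 st.2) hp (vts s es) (u (g i) ++ y)).not.1
    (by rw [h1]; decide)
  push Not at h2
  obtain ⟨A, hA, x, hx, cs, hcs, hx1⟩ := h2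
  rw [← ev_append]
  refine hb _ ⟨A, hA, x, hx, cs, ?_, hx1⟩
  rw [hcs]
  unfold evE
  rw [List.length_map]

/-- Row P4. The number of the random values for which the run fails. For every `k ≤ es.length` the values
for which all candidates for the word number `k` are bad are at most `|B ^ R| ^ K / 2 ^ R` (`card_le_fib`
with `B ^ R` for `B`, `sta_congr`, `bad_sets` / `bad_set0`, `bad_half`, `card_pow_half`; `m = 4 * (es.length + 1)`
is at least `|labs| + 2 |es| + |vts| + 1`). -/
theorem fail_le [DecidableEq V] (X : Fin r → G) (hX : Subgroup.closure (Set.range X) = ⊤)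
    {S : List Wd × Wd → Bool} (hS : Orc X S) (es : List (Edg V)) (s ω : V) {B : Type} [Fintype B]
    (u : B → Wd) {K R M : ℕ} (hK : es.length + 1 ≤ K)
    (hu : ∀ g : G ⧸ Cinv G, (Finset.univ.filter fun b : B => ((ev X (u b) : G) : G ⧸ Cinv G) = g).card *
      2 ^ M ≤ Fintype.card B)
    (hM : (r + 1) * (4 * (es.length + 1) + 1) + 2 ≤ M) :
    2 ^ R * (Finset.univ.filter fun γ : Fin K → Fin R → B =>
      (run S es s ω (cnd r u γ)).1 = false).card ≤ (es.length + 1) * Fintype.card (Fin K → Fin R → B) := by
  have hsub : (Finset.univ.filter fun γ : Fin K → Fin R → B =>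
      (run S es s ω (cnd r u γ)).1 = false) ⊆
      (Finset.univ.filter fun γ : Fin K → Fin R → B => ∀ w ∈ cnd r u γ 0, tst0 S (labs es) w = false) ∪
      (Finset.univ : Finset (Fin es.length)).biUnion fun j =>
        (Finset.univ.filter fun γ : Fin K → Fin R → B => ∀ w ∈ cnd r u γ (es.length - j.1),
        tst S (labs es) (bs es.length (sta S es s ω (cnd r u γ) (j.1 + 1)).2) ω
        (c0 (sta S es s ω (cnd r u γ) (j.1 + 1)).2) es.zipIdx (vts s es) (es[j.1], j.1) w = false) := by
    intro γ hγ
    rw [Finset.mem_filter] at hγ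
    rw [Finset.mem_union]
    rcases run_fail S es s ω (cnd r u γ) hγ.2 with h | ⟨j, hj, h⟩
    · left
      rw [Finset.mem_filter]
      exact ⟨Finset.mem_univ _, h⟩
    · right
      rw [Finset.mem_biUnion]
      refine ⟨⟨j, hj⟩, Finset.mem_univ _, ?_⟩
      rw [Finset.mem_filter]
      exact ⟨Finset.mem_univ _, h⟩
  have h1 := (Finset.card_le_card hsub).trans ((Finset.card_union_le _ _).trans
    (Nat.add_le_add_left Finset.card_biUnion_le _))
  have h2 := Nat.mul_le_mul_left (2 ^ R) h1
  refine h2.trans ?_
  rw [Nat.mul_add, Finset.mul_sum, Nat.add_mul, one_mul, add_comm]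
  refine Nat.add_le_add ?_ (p3_zero X hX hS es u hK hu hM)
  refine (Finset.sum_le_sum fun j _ => p3_step X hX hS es s ω u hK hu hM j.2).trans ?_
  rw [Finset.sum_const, Finset.card_univ, Fintype.card_fin, smul_eq_mul]

end Pool.Agent.AgpSsp
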