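import Pool.Agent.Lib.MP_a9d022_lc.Zpp.Cert
import Pool.Agent.Lib.MP_a9d022_lc.Zpp.Defs

/-! # The algorithm: the factors are chosen one after the other, from the last time to the first -/

set_option autoImplicit false

namespace Pool.Agent.AgpSsp

open N68a2faeb N487b59b3 Pool.Agent.SspConj

variable {G : Type} [Group G] {r : ℕ} {V : Type} [DecidableEq V]

/-- The factor of the time `i`, `T` being the number of times: the list `st` of the chosen words starts
with the token of the end; then come the factors of the times `T - 1`, `T - 2`, ... -/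
def bs (T : ℕ) (st : List Wd) (i : ℕ) : Wd := st.getD (T - i) []

/-- the token of the end -/
def c0 (st : List Wd) : Wd := st.getD 0 []

/-- the words for the elements of `ill`; `z` is the list of all pairs (edge, time) -/
def illW (b : ℕ → Wd) (ω : V) (c : Wd) (z : List (Edg V × ℕ)) (p : Edg V × ℕ) (vs : List V) (w : Wd) :
    List Wd :=
  (tokW b ω c (z.drop (p.2 + 1)) p.1.1 ++ w) :: vs.flatMap fun v =>
    [tokW b ω c (z.drop (p.2 + 1)) v ++ winv w,
      tokW b ω c (z.drop (p.2 + 1)) v ++ (winv w ++ (winv (tokW b ω c (z.drop (p.2 + 1)) p.1.1) ++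
        (p.1.2.2 ++ tokW b ω c (z.drop (p.2 + 1)) p.1.2.1))),
      tokW b ω c (z.drop (p.2 + 1)) v ++ (winv w ++ (winv w ++
        (winv (tokW b ω c (z.drop (p.2 + 1)) p.1.1) ++
          (p.1.2.2 ++ tokW b ω c (z.drop (p.2 + 1)) p.1.2.1))))]

/-- the elements of the subset sum instance for the times after `j` -/
def eltW (b : ℕ → Wd) (ω : V) (c : Wd) (z : List (Edg V × ℕ)) (j : ℕ) : List Wd :=
  (z.drop (j + 1)).flatMap (stepW b ω c z)

/-- The test of the candidate `w` for the pair `p` (edge, time): for all `A` in `illW` the oracle says that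
no product `x A y` is one, `x` a subset product of `L`, `y` one of `eltW`. -/
def tst (S : List Wd × Wd → Bool) (L : List Wd) (b : ℕ → Wd) (ω : V) (c : Wd) (z : List (Edg V × ℕ))
    (vs : List V) (p : Edg V × ℕ) (w : Wd) : Bool :=
  !((illW b ω c z p vs w).any fun A => S (L ++ (eltW b ω c z p.2).map fun u => A ++ (u ++ winv A), winv A))

/-- the test of the token of the end -/
def tst0 (S : List Wd × Wd → Bool) (L : List Wd) (w : Wd) : Bool := !(S (L, winv w))

/-- one step of the algorithm: the state is (everything has worked up to now, chosen words) -/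
def stp (S : List Wd × Wd → Bool) (L : List Wd) (ω : V) (T : ℕ) (z : List (Edg V × ℕ)) (vs : List V)
    (cand : ℕ → List Wd) (q : Bool × List Wd) (p : Edg V × ℕ) : Bool × List Wd :=
  (q.1 && !((cand (T - p.2)).filter (tst S L (bs T q.2) ω (c0 q.2) z vs p)).isEmpty,
    q.2 ++ [((cand (T - p.2)).filter (tst S L (bs T q.2) ω (c0 q.2) z vs p)).headD []])

/-- the start of the algorithm: the choice of the token of the end -/
def st0 (S : List Wd × Wd → Bool) (L : List Wd) (cand : ℕ → List Wd) : Bool × List Wd :=
  (!((cand 0).filter (tst0 S L)).isEmpty, [((cand 0).filter (tst0 S L)).headD []])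

/-- the labels -/
def labs (es : List (Edg V)) : List Wd := es.map fun e => e.2.2

/-- the vertices -/
def vts (s : V) (es : List (Edg V)) : List V := s :: es.map fun e => e.2.1

/-- the algorithm, for the sequence of edges `es`, the vertices `s`, `ω` and the candidates `cand k` for the word number
`k` -/
def run (S : List Wd × Wd → Bool) (es : List (Edg V)) (s ω : V) (cand : ℕ → List Wd) : Bool × List Wd :=
  es.zipIdx.reverse.foldl (stp S (labs es) ω es.length es.zipIdx (vts s es) cand) (st0 S (labs es) cand)

/-- the answer -/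
def ans (S : List Wd × Wd → Bool) (es : List (Edg V)) (s ω : V) (st : List Wd) : Bool :=
  S (query (bs es.length st) (c0 st) es s ω)

/-- the pairs after the first `k` ones -/
theorem r1_drop {α : Type} (k : ℕ) : ∀ (l : List α) (j : ℕ),
    (l.zipIdx j).drop k = (l.drop k).zipIdx (j + k) := by
  induction k with
  | zero =>
    intro l j
    rfl
  | succ k ih =>
    intro l j
    cases l with
    | nil => simp
    | cons a l =>
      rw [List.zipIdx_cons, List.drop_succ_cons, List.drop_succ_cons, ih l (j + 1)]
      congr 1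
      omega

/-- the pairs after the time `k` -/
theorem r1_drop_succ {α : Type} {l l' : List α} {a : α} {k : ℕ} (h : l.drop k = a :: l') :
    l.zipIdx.drop (k + 1) = l'.zipIdx (k + 1) := by
  rw [r1_drop, ← List.drop_drop, h, Nat.zero_add]
  rfl

/-- Row R1. The values of the words `illW`, `eltW` (`tokW_ev`, `L_query_aux`): if `z = es.zipIdx` and
`es.drop p.2 = p.1 :: es'` then `illW` has the values `ill` and `eltW` the values `elts`. -/
theorem illW_ev (X : Fin r → G) (b : ℕ → Wd) (ω : V) (c : Wd) {es es' : List (Edg V)} {p : Edg V × ℕ}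
    (hp : es.drop p.2 = p.1 :: es') (vs : List V) (w : Wd) :
    (illW b ω c es.zipIdx p vs w).map (ev X) =
        ill (kap ω (ev X c)) (fun i => ev X (b i)) p.2 (p.1.1, p.1.2.1, ev X p.1.2.2) (evE X es') vs (ev X w) ∧
      (eltW b ω c es.zipIdx p.2).map (ev X) =
        elts (kap ω (ev X c)) (fun i => ev X (b i)) (p.2 + 1) (evE X es') := by
  have hz := r1_drop_succ hp
  constructor
  · unfold illW ill
    rw [hz, List.map_cons, List.map_flatMap, ev_append, tokW_ev]
    congr 1
    congr 1
    funext v
    rw [List.map_cons, List.map_cons, List.map_cons, List.map_nil]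
    simp only [ev_append, ev_winv, tokW_ev]
  · unfold eltW
    rw [hz]
    exact L_query_aux X b ω c es.zipIdx es' (p.2 + 1) hz

/-- the subset products of the conjugates -/
theorem r1_conj (A : G) (l : List G) (x : G) :
    Sub (l.map fun u => A * (u * A⁻¹)) x ↔ ∃ y, Sub l y ∧ x = A * (y * A⁻¹) := by
  induction l generalizing x with
  | nil =>
    rw [List.map_nil, sub_nil]
    constructor
    · rintro rfl
      exact ⟨1, (sub_nil 1).2 rfl, by rw [one_mul, mul_inv_cancel]⟩
    · rintro ⟨y, hy, rfl⟩
      rw [(sub_nil y).1 hy, one_mul, mul_inv_cancel]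
  | cons a l ih =>
    rw [List.map_cons, sub_cons]
    constructor
    · rintro ⟨t, z, hz, rfl⟩
      obtain ⟨y, hy, rfl⟩ := (ih z).1 hz
      refine ⟨(if t then a else 1) * y, (sub_cons a l _).2 ⟨t, y, hy, rfl⟩, ?_⟩
      cases t
      · simp
      · simp [mul_assoc]
    · rintro ⟨y, hy, rfl⟩
      obtain ⟨t, z, hz, rfl⟩ := (sub_cons a l y).1 hy
      refine ⟨t, A * (z * A⁻¹), (ih _).2 ⟨z, hz, rfl⟩, ?_⟩
      cases t
      · simp
      · simp [mul_assoc]

/-- the meaning of one question of the test -/
theorem r1_quest (X : Fin r → G) {S : List Wd × Wd → Bool} (hS : Orc X S) (L M : List Wd) (A : Wd) :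
    S (L ++ M.map fun u => A ++ (u ++ winv A), winv A) = true ↔
      ∃ x, Sub (L.map (ev X)) x ∧ ∃ y, Sub (M.map (ev X)) y ∧ x * (ev X A * y) = 1 := by
  rw [hS, ssp_map]
  have h1 : (L ++ M.map fun u => A ++ (u ++ winv A)).map (ev X) =
      L.map (ev X) ++ (M.map (ev X)).map fun u => ev X A * (u * (ev X A)⁻¹) := by
    rw [List.map_append, List.map_map, List.map_map]
    congr 1
    congr 1
    funext u
    show ev X (A ++ (u ++ winv A)) = ev X A * (ev X u * (ev X A)⁻¹)
    rw [ev_append, ev_append, ev_winv]
  have h2 := sub_append (L.map (ev X)) ((M.map (ev X)).map fun u => ev X A * (u * (ev X A)⁻¹))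
    (ev X (winv A))
  rw [h1]
  unfold Sub at h2
  rw [h2, ev_winv]
  constructor
  · rintro ⟨x, z, hx, hz, h⟩
    obtain ⟨y, hy, rfl⟩ := (r1_conj (ev X A) (M.map (ev X)) z).1 hz
    refine ⟨x, hx, y, hy, ?_⟩
    calc x * (ev X A * y) = x * (ev X A * (y * (ev X A)⁻¹)) * ev X A := by
          simp only [mul_assoc, inv_mul_cancel, mul_one]
      _ = 1 := by rw [← h, inv_mul_cancel]
  · rintro ⟨x, hx, y, hy, h⟩
    refine ⟨x, ev X A * (y * (ev X A)⁻¹), hx, (r1_conj (ev X A) (M.map (ev X)) _).2 ⟨y, hy, rfl⟩, ?_⟩
    calc (ev X A)⁻¹ = x * (ev X A * y) * (ev X A)⁻¹ := by rw [h, one_mul]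
      _ = x * (ev X A * (y * (ev X A)⁻¹)) := by simp only [mul_assoc]

/-- Row R1. The meaning of the test: `x (A y A⁻¹) = A⁻¹` iff `x A y = 1` (`sub_append`, `sub_iff`). -/
theorem tst_iff (X : Fin r → G) {S : List Wd × Wd → Bool} (hS : Orc X S) (L : List Wd) (b : ℕ → Wd) (ω : V)
    (c : Wd) {es es' : List (Edg V)} {p : Edg V × ℕ} (hp : es.drop p.2 = p.1 :: es') (vs : List V) (w : Wd) :
    tst S L b ω c es.zipIdx vs p w = true ↔
      ∀ A ∈ ill (kap ω (ev X c)) (fun i => ev X (b i)) p.2 (p.1.1, p.1.2.1, ev X p.1.2.2) (evE X es') vs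
        (ev X w), ∀ x, Sub (L.map (ev X)) x → ∀ cs : List (Bool × Bool), cs.length = es'.length →
        x * (A * val (kap ω (ev X c)) (fun i => ev X (b i)) (p.2 + 1) (evE X es') cs) ≠ 1 := by
  obtain ⟨h1, h2⟩ := illW_ev X b ω c hp vs w
  have hlen : (evE X es').length = es'.length := List.length_map _
  have h3 : ∀ A : Wd, S (L ++ (eltW b ω c es.zipIdx p.2).map fun u => A ++ (u ++ winv A), winv A) = true ↔
      ∃ x, Sub (L.map (ev X)) x ∧ ∃ cs : List (Bool × Bool), cs.length = es'.length ∧
        x * (ev X A * val (kap ω (ev X c)) (fun i => ev X (b i)) (p.2 + 1) (evE X es') cs) = 1 := by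
    intro A
    rw [r1_quest X hS, h2]
    constructor
    · rintro ⟨x, hx, y, hy, h⟩
      obtain ⟨cs, hcs, rfl⟩ := (sub_iff _ _ _ _ _).1 hy
      exact ⟨x, hx, cs, hcs.trans hlen, h⟩
    · rintro ⟨x, hx, cs, hcs, h⟩
      exact ⟨x, hx, _, (sub_iff _ _ _ _ _).2 ⟨cs, hcs.trans hlen.symm, rfl⟩, h⟩
  unfold tst
  rw [Bool.not_eq_true', ← Bool.not_eq_true, List.any_eq_true]
  constructor
  · intro h A hA x hx cs hcs hxA
    rw [← h1] at hA
    obtain ⟨A', hA', rfl⟩ := List.mem_map.1 hA
    exact h ⟨A', hA', (h3 A').2 ⟨x, hx, cs, hcs, hxA⟩⟩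
  · rintro h ⟨A, hA, hSA⟩
    obtain ⟨x, hx, cs, hcs, hxA⟩ := (h3 A).1 hSA
    refine h (ev X A) ?_ x hx cs hcs hxA
    rw [← h1]
    exact List.mem_map.2 ⟨A, hA, rfl⟩

/-- Row R1. -/
theorem tst0_iff (X : Fin r → G) {S : List Wd × Wd → Bool} (hS : Orc X S) (L : List Wd) (w : Wd) :
    tst0 S L w = true ↔ ∀ x, Sub (L.map (ev X)) x → x * ev X w ≠ 1 := by
  unfold tst0
  rw [Bool.not_eq_true', ← Bool.not_eq_true, hS, ssp_map, ev_winv]
  constructor
  · rintro h x ⟨u, hu, rfl⟩ hx
    exact h ⟨u, hu, eq_inv_of_mul_eq_one_left hx⟩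
  · rintro h ⟨u, hu, hx⟩
    refine h u.prod ⟨u, hu, rfl⟩ ?_
    rw [hx, inv_mul_cancel]

/-- the state of the algorithm before the choice for the time `j - 1`: the pairs of the times `≥ j` are
done -/
def sta (S : List Wd × Wd → Bool) (es : List (Edg V)) (s ω : V) (cand : ℕ → List Wd) (j : ℕ) :
    Bool × List Wd :=
  (es.zipIdx.drop j).reverse.foldl (stp S (labs es) ω es.length es.zipIdx (vts s es) cand)
    (st0 S (labs es) cand)

/-- Row R2. -/
theorem sta_zero (S : List Wd × Wd → Bool) (es : List (Edg V)) (s ω : V) (cand : ℕ → List Wd) :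
    sta S es s ω cand 0 = run S es s ω cand ∧
      sta S es s ω cand es.length = st0 S (labs es) cand := by
  constructor
  · unfold sta run
    rw [List.drop_zero]
  · unfold sta
    rw [List.drop_eq_nil_of_le (by rw [List.length_zipIdx]), List.reverse_nil, List.foldl_nil]

/-- Row R2. `es.zipIdx.drop j = (es[j], j) :: es.zipIdx.drop (j + 1)`. -/
theorem sta_step (S : List Wd × Wd → Bool) (es : List (Edg V)) (s ω : V) (cand : ℕ → List Wd) {j : ℕ}
    (hj : j < es.length) :
    sta S es s ω cand j = stp S (labs es) ω es.length es.zipIdx (vts s es) cand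
      (sta S es s ω cand (j + 1)) (es[j], j) := by
  have hj' : j < es.zipIdx.length := by rw [List.length_zipIdx]; exact hj
  have h : es.zipIdx.drop j = (es[j], j) :: es.zipIdx.drop (j + 1) := by
    rw [List.drop_eq_getElem_cons hj', List.getElem_zipIdx, Nat.zero_add]
  unfold sta
  rw [h, List.reverse_cons, List.foldl_append, List.foldl_cons, List.foldl_nil]

/-- Row R2. The number of the chosen words. -/
theorem sta_length (S : List Wd × Wd → Bool) (es : List (Edg V)) (s ω : V) (cand : ℕ → List Wd) {j : ℕ}
    (hj : j ≤ es.length) : (sta S es s ω cand j).2.length = es.length - j + 1 := by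
  obtain ⟨k, hk⟩ := Nat.exists_eq_add_of_le hj
  induction k generalizing j with
  | zero =>
    have h : j = es.length := by omega
    subst h
    rw [(sta_zero S es s ω cand).2]
    simp [st0]
  | succ k ih =>
    have hlt : j < es.length := by omega
    have h1 := ih (j := j + 1) (by omega) (by omega)
    rw [sta_step S es s ω cand hlt]
    unfold stp
    rw [List.length_append, h1, List.length_singleton]
    omega

theorem r3_getD_lt (l : List Wd) (a : Wd) {n : ℕ} (h : n < l.length) : (l ++ [a]).getD n [] = l.getD n [] := by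
  rw [List.getD_append _ _ _ _ h]

theorem r3_getD_eq (l : List Wd) (a : Wd) {n : ℕ} (h : n = l.length) : (l ++ [a]).getD n [] = a := by
  subst h
  rw [List.getD_append_right _ _ _ _ le_rfl, Nat.sub_self]
  rfl

theorem r3_headD {p : Wd → Bool} {l : List Wd} (h : (!(l.filter p).isEmpty) = true) :
    p ((l.filter p).headD []) = true := by
  cases h' : l.filter p with
  | nil => rw [h'] at h; simp at h
  | cons a m =>
    have hm : a ∈ l.filter p := by rw [h']; exact List.mem_cons_self
    exact (List.mem_filter.1 hm).2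

omit [DecidableEq V] in
theorem r3_evE_cons (X : Fin r → G) (e : Edg V) (es : List (Edg V)) :
    evE X (e :: es) = (e.1, e.2.1, ev X e.2.2) :: evE X es := rfl

omit [DecidableEq V] in
theorem r3_evE_length (X : Fin r → G) (es : List (Edg V)) : (evE X es).length = es.length := by
  unfold evE
  exact List.length_map _

theorem r3_ill_congr (κ : V → G) {β β' : ℕ → G} {j : ℕ} (h : ∀ i, j + 1 ≤ i → β i = β' i)
    (e : V × V × G) (es : List (V × V × G)) (vs : List V) (b : G) :
    ill κ β j e es vs b = ill κ β' j e es vs b := by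
  have ht : ∀ v, tok κ β (j + 1) es v = tok κ β' (j + 1) es v := fun v => tok_congr κ h es v
  unfold ill
  simp only [ht]

theorem r3_aux (X : Fin r → G) {S : List Wd × Wd → Bool} (hS : Orc X S) (es : List (Edg V)) (s ω : V)
    (cand : ℕ → List Wd) (k : ℕ) : ∀ j, j + k = es.length → (sta S es s ω cand j).1 = true →
    Cert ((labs es).map (ev X)) (vts s es) ω (ev X (c0 (sta S es s ω cand j).2))
      (fun i => ev X (bs es.length (sta S es s ω cand j).2 i)) j (evE X (es.drop j)) := by
  induction k with
  | zero =>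
    intro j hj h
    have hj' : j = es.length := by omega
    subst hj'
    rw [(sta_zero S es s ω cand).2] at h ⊢
    rw [List.drop_length]
    have h1 : tst0 S (labs es) (((cand 0).filter (tst0 S (labs es))).headD []) = true := r3_headD h
    exact (tst0_iff X hS (labs es) _).1 h1
  | succ k ih =>
    intro j hj h
    have hlt : j < es.length := by omega
    have hlen := sta_length S es s ω cand (j := j + 1) (by omega)
    have hIH := ih (j + 1) (by omega)
    rw [sta_step S es s ω cand hlt] at h ⊢
    generalize sta S es s ω cand (j + 1) = q at h hlen hIH ⊢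
    obtain ⟨q1, st⟩ := q
    unfold stp at h ⊢
    simp only [Bool.and_eq_true] at h
    obtain ⟨h1, h2⟩ := h
    have hC := hIH h1
    have hw := r3_headD h2
    generalize ((cand (es.length - j)).filter
      (tst S (labs es) (bs es.length st) ω (c0 st) es.zipIdx (vts s es) (es[j], j))).headD [] = w at hw ⊢
    have hc : c0 (st ++ [w]) = c0 st := r3_getD_lt st w (by simp only at hlen; omega)
    have hb : ∀ i, j + 1 ≤ i → ev X (bs es.length (st ++ [w]) i) = ev X (bs es.length st i) := by
      intro i hi
      have : bs es.length (st ++ [w]) i = bs es.length st i :=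
        r3_getD_lt st w (by simp only at hlen; omega)
      rw [this]
    have hbj : bs es.length (st ++ [w]) j = w := r3_getD_eq st w (by simp only at hlen; omega)
    have hd : es.drop j = es[j] :: es.drop (j + 1) := List.drop_eq_getElem_cons hlt
    have ht := (tst_iff X hS (labs es) (bs es.length st) ω (c0 st) (p := (es[j], j)) hd (vts s es) w).1 hw
    simp only
    rw [hc, hd, r3_evE_cons]
    refine ⟨(cert_congr hb _).2 hC, ?_⟩
    intro A hA x hx cs hcs
    rw [r3_evE_length] at hcs
    rw [r3_ill_congr _ hb] at hA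
    rw [val_congr _ hb]
    simp only [hbj] at hA
    exact ht A hA x hx cs hcs

/-- Row R3. If everything has worked then the chosen words are certified. By induction from
`j = es.length` down: a further word changes neither `c0` nor the `bs i` with `i ≥ j` (`cert_congr`), and
the head of a nonempty filtered list passes the test. -/
theorem sta_cert (X : Fin r → G) {S : List Wd × Wd → Bool} (hS : Orc X S) (es : List (Edg V)) (s ω : V)
    (cand : ℕ → List Wd) {j : ℕ} (hj : j ≤ es.length) (h : (sta S es s ω cand j).1 = true) :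
    Cert ((labs es).map (ev X)) (vts s es) ω (ev X (c0 (sta S es s ω cand j).2))
      (fun i => ev X (bs es.length (sta S es s ω cand j).2 i)) j (evE X (es.drop j)) := by
  exact r3_aux X hS es s ω cand (es.length - j) j (by omega) h

/-- Row R4. Correctness: if everything has worked then the answer is right. `sta_cert` for `j = 0`,
`cert_sound` with `x = 1`, `query_iff` (with `τ k = bs (k - 1)`, `τ 0 = c0`), `yes_iff`, `complete`. -/
theorem run_correct (X : Fin r → G) {S : List Wd × Wd → Bool} (hS : Orc X S) {E : List (Edg V)}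
    (hac : ∀ v p, IsPath E v v p → p = []) (s ω : V) (cand : ℕ → List Wd)
    (h : (run S (rpt E) s ω cand).1 = true) :
    ans S (rpt E) s ω (run S (rpt E) s ω cand).2 = true ↔ Yes X (E, s, ω) := by
  obtain ⟨τ, h0, h1⟩ : ∃ τ : ℕ → Wd, τ 0 = c0 (run S (rpt E) s ω cand).2 ∧
      (fun j => τ (j + 1)) = bs (rpt E).length (run S (rpt E) s ω cand).2 :=
    ⟨fun k => Nat.casesOn k (c0 (run S (rpt E) s ω cand).2) (bs (rpt E).length (run S (rpt E) s ω cand).2), rfl, rfl⟩
  have h2 : ans S (rpt E) s ω (run S (rpt E) s ω cand).2 = true ↔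
      Ssp X (query (fun j => τ (j + 1)) (τ 0) (rpt E) s ω).1 (query (fun j => τ (j + 1)) (τ 0) (rpt E) s ω).2 := by
    rw [h0, h1]
    exact hS _ _
  rw [h2]
  constructor
  · intro h3
    obtain ⟨cs, hcs, h4⟩ := (query_iff X τ (rpt E) s ω).1 h3
    have hC := sta_cert X hS (rpt E) s ω cand (Nat.zero_le _) (by rw [(sta_zero S (rpt E) s ω cand).1]; exact h)
    rw [(sta_zero S (rpt E) s ω cand).1, ← h0, ← h1, List.drop_zero] at hC
    have hlab : (labs (rpt E)).map (ev X) = (evE X (rpt E)).map fun e => e.2.2 := by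
      unfold labs evE
      rw [List.map_map, List.map_map]
      rfl
    obtain ⟨g, hg, hg1⟩ := cert_sound (x := 1) (cs := cs) hC
      (by
        intro e he
        unfold evE at he
        rw [List.mem_map] at he
        obtain ⟨e', he', rfl⟩ := he
        exact List.mem_cons_of_mem _ (List.mem_map.2 ⟨e', he', rfl⟩))
      (v := s) List.mem_cons_self
      (by
        intro s' hs'
        rw [one_mul, hlab]
        exact hs')
      hcs
      (by
        unfold tot at h4
        rw [one_mul]
        exact h4)
    rw [one_mul] at hg1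
    rw [hg1] at hg
    exact (yes_iff X hac s ω).2 ⟨cs, hcs, hg⟩
  · intro h3
    exact complete X τ hac h3

end Pool.Agent.AgpSsp
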