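import Pool.Agent.Lib.MP_a9d022_lc.Zpp.Prob
import Pool.Agent.Lib.MP_a9d022_lc.Agp.PtQuery

/-! # The algorithm with a random string; polynomial time -/

set_option autoImplicit false

namespace Pool.Agent.AgpSsp

open N68a2faeb N487b59b3 Pool.Agent.SspConj Pool.Agent.MSR Pool.Agent.MSR.En

variable {G : Type} [Group G] {r : ℕ}

/-- the candidates for the word number `k`: `R` words given by `N` blocks of bits, each with the words of
`ys r` appended -/
def cdt (r N R : ℕ) (a : List Bool) (k : ℕ) : List Wd :=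
  (List.range R).flatMap fun s => (ys r).map fun y => tw (dic r) N (k * R + s) a ++ y

/-- the run on the input `z.1` with the random string `z.2` -/
noncomputable def runz (X : Fin r → G) (f : List Bool → Agi) (N R : ℕ → ℕ) (z : List Bool × List Bool) :
    Bool × List Wd :=
  run (orcS X) (rpt (nrm r (f z.1)).1) (nrm r (f z.1)).2.1 (nrm r (f z.1)).2.2
    (cdt r (N z.1.length) (R z.1.length) z.2)

/-- the answer -/
noncomputable def ansz (X : Fin r → G) (f : List Bool → Agi) (N R : ℕ → ℕ) (z : List Bool × List Bool) :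
    Bool :=
  ans (orcS X) (rpt (nrm r (f z.1)).1) (nrm r (f z.1)).2.1 (nrm r (f z.1)).2.2 (runz X f N R z).2

theorem t1_getD {n : ℕ} (f : Fin n → Bool) {m : ℕ} (h : m < n) :
    (List.ofFn f).getD m false = f ⟨m, h⟩ := by
  rw [List.getD_eq_getElem?_getD, List.getElem?_ofFn, dif_pos h, Option.getD_some]

theorem t1_tw (D : List (Wd × Wd)) {K R N : ℕ} (ρ : Fin (K * R * (N * D.length)) → Bool) {k : ℕ}
    (hk : k < K) (s : Fin R) :
    tw D N (k * R + s) (List.ofFn ρ) =
      tw D N 0 (List.ofFn fun i : Fin (N * D.length) =>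
        ρ (finProdFinEquiv (finProdFinEquiv ((⟨k, hk⟩ : Fin K), s), i))) := by
  unfold tw
  refine List.flatMap_congr fun i hi => List.flatMap_congr fun d hd => ?_
  have hi' : i < N := List.mem_range.1 hi
  have hd' : d.2 < D.length := by
    have h := List.mem_zipIdx hd
    omega
  have h1 : i * D.length + d.2 < N * D.length := by
    calc i * D.length + d.2 < i * D.length + D.length := by omega
      _ = (i + 1) * D.length := by ring
      _ ≤ N * D.length := Nat.mul_le_mul_right _ hi'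
  have hks : k * R + s < K * R := by
    have hs := s.2
    calc k * R + s < k * R + R := by omega
      _ = (k + 1) * R := by ring
      _ ≤ K * R := Nat.mul_le_mul_right _ hk
  have h2 : ((k * R + s) * N + i) * D.length + d.2 < K * R * (N * D.length) := by
    calc ((k * R + s) * N + i) * D.length + d.2
        = (k * R + s) * (N * D.length) + (i * D.length + d.2) := by ring
      _ < (k * R + s) * (N * D.length) + N * D.length := by omega
      _ = (k * R + s + 1) * (N * D.length) := by ring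
      _ ≤ K * R * (N * D.length) := Nat.mul_le_mul_right _ hks
  have h3 : (0 * N + i) * D.length + d.2 < N * D.length := by
    rw [zero_mul, zero_add]
    exact h1
  rw [t1_getD _ h2, t1_getD _ h3]
  congr 2
  apply Fin.ext
  simp only [finProdFinEquiv_apply_val]
  ring

/-- Row T1. The candidates of a random string as candidates of random values: the value number `(k, s)` is
the block number `k * R + s` of `N * (dic r).length` bits. -/
theorem cdt_eq {K R N : ℕ} (ρ : Fin (K * R * (N * (dic r).length)) → Bool) {k : ℕ} (hk : k < K) :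
    cdt r N R (List.ofFn ρ) k =
      cnd r (fun b : Fin (N * (dic r).length) → Bool => tw (dic r) N 0 (List.ofFn b))
        (fun (k : Fin K) (s : Fin R) (i : Fin (N * (dic r).length)) =>
          ρ (finProdFinEquiv (finProdFinEquiv (k, s), i))) k := by
  unfold cdt cnd
  rw [dif_pos hk, ← List.map_coe_finRange_eq_range, List.flatMap_map]
  refine List.flatMap_congr fun s _ => List.map_congr_left fun y _ => ?_
  congr 1
  exact t1_tw (dic r) ρ hk s

open Classical in
/-- Row T2. The run fails for at most a third of the random strings of length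
`K * R * (N * (dic r).length)`, if `3 K ≤ 2 ^ R` and `N` is large (`mixing` for the group modulo `Cinv G`,
`ev_mk`, `fail_le`, `cdt_eq`; only the candidates with numbers `≤ es.length < K` are used: `sta_congr`). -/
theorem tape_le (X : Fin r → G) (hX : Subgroup.closure (Set.range X) = ⊤) {e : ℕ}
    (he : ∀ M N : ℕ, (M + e) ^ e ≤ N → ∀ g : G ⧸ Cinv G,
      (Finset.univ.filter fun b : Fin (N * (dic r).length) → Bool =>
        ev (fun i => ((X i : G) : G ⧸ Cinv G)) (tw (dic r) N 0 (List.ofFn b)) = g).card * 2 ^ M ≤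
          2 ^ (N * (dic r).length)) {V : Type} [DecidableEq V]
    {S : List Wd × Wd → Bool} (hS : Orc X S) (es : List (Edg V)) (s ω : V) {K R M N : ℕ}
    (hK : es.length + 1 ≤ K) (hR : 3 * K ≤ 2 ^ R) (hM : (r + 1) * (4 * K + 1) + 2 ≤ M)
    (hN : (M + e) ^ e ≤ N) :
    3 * (Finset.univ.filter fun ρ : Fin (K * R * (N * (dic r).length)) → Bool =>
      (run S es s ω (cdt r N R (List.ofFn ρ))).1 = false).card ≤ 2 ^ (K * R * (N * (dic r).length)) := by
  have hn : Fintype.card (Fin (N * (dic r).length) → Bool) = 2 ^ (N * (dic r).length) := by simp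
  have hu : ∀ g : G ⧸ Cinv G, (Finset.univ.filter fun b : Fin (N * (dic r).length) → Bool =>
      ((ev X (tw (dic r) N 0 (List.ofFn b)) : G) : G ⧸ Cinv G) = g).card * 2 ^ M ≤
        Fintype.card (Fin (N * (dic r).length) → Bool) := by
    intro g
    have h1 := he M N hN g
    rw [hn]
    refine le_trans (le_of_eq ?_) h1
    congr 2
    ext b
    simp only [Finset.mem_filter, Finset.mem_univ, true_and]
    rw [ev_mk]
  have hM' : (r + 1) * (4 * (es.length + 1) + 1) + 2 ≤ M := by
    refine le_trans ?_ hM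
    have : 4 * (es.length + 1) + 1 ≤ 4 * K + 1 := by omega
    exact Nat.add_le_add_right (Nat.mul_le_mul_left _ this) 2
  have h2 := fail_le X hX hS es s ω (B := Fin (N * (dic r).length) → Bool) (R := R)
    (fun b => tw (dic r) N 0 (List.ofFn b)) hK hu hM'
  have hc : Fintype.card (Fin K → Fin R → Fin (N * (dic r).length) → Bool) =
      2 ^ (K * R * (N * (dic r).length)) := by
    simp only [Fintype.card_pi, Fintype.card_bool, Finset.prod_const, Finset.card_univ, Fintype.card_fin]
    rw [← pow_mul, ← pow_mul]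
    congr 1
    ring
  have h3 : (Finset.univ.filter fun ρ : Fin (K * R * (N * (dic r).length)) → Bool =>
      (run S es s ω (cdt r N R (List.ofFn ρ))).1 = false).card ≤
      (Finset.univ.filter fun γ : Fin K → Fin R → Fin (N * (dic r).length) → Bool =>
        (run S es s ω (cnd r (fun b => tw (dic r) N 0 (List.ofFn b)) γ)).1 = false).card := by
    apply Finset.card_le_card_of_injOn
      (fun (ρ : Fin (K * R * (N * (dic r).length)) → Bool) (k : Fin K) (s : Fin R)
        (i : Fin (N * (dic r).length)) => ρ (finProdFinEquiv (finProdFinEquiv (k, s), i)))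
    · intro ρ hρ
      simp only [Finset.coe_filter, Finset.mem_univ, true_and, Set.mem_ofPred_eq] at hρ ⊢
      rw [← hρ, ← (sta_zero S es s ω _).1, ← (sta_zero S es s ω _).1]
      congr 1
      apply sta_congr
      intro k hk
      rw [cdt_eq ρ (show k < K by omega)]
    · intro ρ _ ρ' _ h
      funext x
      obtain ⟨⟨y, i⟩, rfl⟩ := finProdFinEquiv.surjective x
      obtain ⟨⟨k, s⟩, rfl⟩ := finProdFinEquiv.surjective y
      exact congrFun (congrFun (congrFun h k) s) i
  rw [hc] at h2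
  have hK0 : 0 < K := by omega
  refine Nat.le_of_mul_le_mul_left ?_ hK0
  calc K * (3 * _) = (3 * K) * (Finset.univ.filter fun ρ : Fin (K * R * (N * (dic r).length)) → Bool =>
      (run S es s ω (cdt r N R (List.ofFn ρ))).1 = false).card := by ring
    _ ≤ 2 ^ R * (Finset.univ.filter fun γ : Fin K → Fin R → Fin (N * (dic r).length) → Bool =>
        (run S es s ω (cnd r (fun b => tw (dic r) N 0 (List.ofFn b)) γ)).1 = false).card :=
      Nat.mul_le_mul hR h3
    _ ≤ (es.length + 1) * 2 ^ (K * R * (N * (dic r).length)) := by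
      convert h2 using 3
    _ ≤ K * 2 ^ (K * R * (N * (dic r).length)) := Nat.mul_le_mul_right _ hK

section t3

variable {α : Type} [En α] {V : Type} [En V] [DecidableEq V] [EqPT V]

theorem t3_stepW {b : α → ℕ → Wd} (hb : PT (fun x : α × ℕ => b x.1 x.2)) {ω : α → V} {c : α → Wd}
    {z : α → List (Edg V × ℕ)} {p : α → Edg V × ℕ} (hω : PT ω) (hc : PT c) (hz : PT z) (hp : PT p) :
    PT (fun a => stepW (b a) (ω a) (c a) (z a) (p a)) := by
  have hj : PT (fun a => (p a).2) := PT.snd hp
  have he : PT (fun a => (p a).1) := PT.fst hp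
  unfold stepW
  refine PT.cons (PT_winv ?_) (PT.cons (PT.append (PT_winv ?_) (PT.append ?_ ?_)) (PT.const []))
  · exact hb.comp (PT.pair PT.id' hj)
  · exact T3_tokW hb hω hc (PT.drop hj hz) (PT.fst he)
  · exact PT.snd (PT.snd he)
  · exact T3_tokW hb hω hc (PT.drop (PT.add hj (PT.const 1)) hz) (PT.fst (PT.snd he))

theorem t3_eltW {b : α → ℕ → Wd} (hb : PT (fun x : α × ℕ => b x.1 x.2)) {ω : α → V} {c : α → Wd}
    {z : α → List (Edg V × ℕ)} {j : α → ℕ} (hω : PT ω) (hc : PT c) (hz : PT z) (hj : PT j) :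
    PT (fun a => eltW (b a) (ω a) (c a) (z a) (j a)) := by
  unfold eltW
  refine PT.flatMap (F := fun a p => stepW (b a) (ω a) (c a) (z a) p)
    (PT.drop (PT.add hj (PT.const 1)) hz) ?_
  have hb' : PT (fun x : (α × Edg V × ℕ) × ℕ => b x.1.1 x.2) :=
    hb.comp (PT.pair (PT.fst (PT.fst PT.id')) (PT.snd PT.id'))
  have h1 : PT (fun q : α × Edg V × ℕ => ω q.1) := hω.comp (PT.fst PT.id')
  have h2 : PT (fun q : α × Edg V × ℕ => c q.1) := hc.comp (PT.fst PT.id')
  have h3 : PT (fun q : α × Edg V × ℕ => z q.1) := hz.comp (PT.fst PT.id')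
  exact t3_stepW (b := fun (q : α × Edg V × ℕ) => b q.1) hb' h1 h2 h3 (PT.snd PT.id')

theorem t3_illW {b : α → ℕ → Wd} (hb : PT (fun x : α × ℕ => b x.1 x.2)) {ω : α → V} {c : α → Wd}
    {z : α → List (Edg V × ℕ)} {p : α → Edg V × ℕ} {vs : α → List V} {w : α → Wd} (hω : PT ω)
    (hc : PT c) (hz : PT z) (hp : PT p) (hvs : PT vs) (hw : PT w) :
    PT (fun a => illW (b a) (ω a) (c a) (z a) (p a) (vs a) (w a)) := by
  have hz1 : PT (fun a => (z a).drop ((p a).2 + 1)) := PT.drop (PT.add (PT.snd hp) (PT.const 1)) hz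
  have he : PT (fun a => (p a).1) := PT.fst hp
  have hD : PT (fun a => winv (tokW (b a) (ω a) (c a) ((z a).drop ((p a).2 + 1)) (p a).1.1) ++
      ((p a).1.2.2 ++ tokW (b a) (ω a) (c a) ((z a).drop ((p a).2 + 1)) (p a).1.2.1)) :=
    PT.append (PT_winv (T3_tokW hb hω hc hz1 (PT.fst he)))
      (PT.append (PT.snd (PT.snd he)) (T3_tokW hb hω hc hz1 (PT.fst (PT.snd he))))
  unfold illW
  refine PT.cons (PT.append (T3_tokW hb hω hc hz1 (PT.fst he)) hw) ?_
  refine PT.flatMap (F := fun a v => [tokW (b a) (ω a) (c a) ((z a).drop ((p a).2 + 1)) v ++ winv (w a),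
      tokW (b a) (ω a) (c a) ((z a).drop ((p a).2 + 1)) v ++ (winv (w a) ++
        (winv (tokW (b a) (ω a) (c a) ((z a).drop ((p a).2 + 1)) (p a).1.1) ++
        ((p a).1.2.2 ++ tokW (b a) (ω a) (c a) ((z a).drop ((p a).2 + 1)) (p a).1.2.1))),
      tokW (b a) (ω a) (c a) ((z a).drop ((p a).2 + 1)) v ++ (winv (w a) ++ (winv (w a) ++
        (winv (tokW (b a) (ω a) (c a) ((z a).drop ((p a).2 + 1)) (p a).1.1) ++
        ((p a).1.2.2 ++ tokW (b a) (ω a) (c a) ((z a).drop ((p a).2 + 1)) (p a).1.2.1))))]) hvs ?_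
  have hb' : PT (fun x : (α × V) × ℕ => b x.1.1 x.2) :=
    hb.comp (PT.pair (PT.fst (PT.fst PT.id')) (PT.snd PT.id'))
  have h1 : PT (fun q : α × V => ω q.1) := hω.comp (PT.fst PT.id')
  have h2 : PT (fun q : α × V => c q.1) := hc.comp (PT.fst PT.id')
  have h3 : PT (fun q : α × V => (z q.1).drop ((p q.1).2 + 1)) := hz1.comp (PT.fst PT.id')
  have h4 : PT (fun q : α × V => w q.1) := hw.comp (PT.fst PT.id')
  have h5 : PT (fun q : α × V => winv (tokW (b q.1) (ω q.1) (c q.1) ((z q.1).drop ((p q.1).2 + 1)) (p q.1).1.1) ++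
      ((p q.1).1.2.2 ++ tokW (b q.1) (ω q.1) (c q.1) ((z q.1).drop ((p q.1).2 + 1)) (p q.1).1.2.1)) :=
    hD.comp (PT.fst PT.id')
  have h6 : PT (fun q : α × V => tokW (b q.1) (ω q.1) (c q.1) ((z q.1).drop ((p q.1).2 + 1)) q.2) :=
    T3_tokW (b := fun (q : α × V) => b q.1) hb' h1 h2 h3 (PT.snd PT.id')
  exact PT.cons (PT.append h6 (PT_winv h4)) (PT.cons (PT.append h6 (PT.append (PT_winv h4) h5))
    (PT.cons (PT.append h6 (PT.append (PT_winv h4) (PT.append (PT_winv h4) h5))) (PT.const [])))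

theorem t3_tst {S : List Wd × Wd → Bool} (hS : PT S) {L : α → List Wd} {b : α → ℕ → Wd}
    (hb : PT (fun x : α × ℕ => b x.1 x.2)) {ω : α → V} {c : α → Wd}
    {z : α → List (Edg V × ℕ)} {p : α → Edg V × ℕ} {vs : α → List V} {w : α → Wd} (hL : PT L)
    (hω : PT ω) (hc : PT c) (hz : PT z) (hvs : PT vs) (hp : PT p) (hw : PT w) :
    PT (fun a => tst S (L a) (b a) (ω a) (c a) (z a) (vs a) (p a) (w a)) := by
  unfold tst
  refine PT.not (PT.any (p := fun a A => S (L a ++ (eltW (b a) (ω a) (c a) (z a) (p a).2).map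
    fun u => A ++ (u ++ winv A), winv A)) (t3_illW hb hω hc hz hp hvs hw) ?_)
  have h1 : PT (fun q : α × Wd => eltW (b q.1) (ω q.1) (c q.1) (z q.1) (p q.1).2) :=
    (t3_eltW hb hω hc hz (PT.snd hp)).comp (PT.fst PT.id')
  have h2 : PT (fun q : α × Wd => (eltW (b q.1) (ω q.1) (c q.1) (z q.1) (p q.1).2).map
      fun u => q.2 ++ (u ++ winv q.2)) := by
    refine PT.map (F := fun (q : α × Wd) u => q.2 ++ (u ++ winv q.2)) h1 ?_
    exact PT.append (PT.snd (PT.fst PT.id')) (PT.append (PT.snd PT.id') (PT_winv (PT.snd (PT.fst PT.id'))))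
  have h3 : PT (fun q : α × Wd => L q.1) := hL.comp (PT.fst PT.id')
  exact hS.comp (PT.pair (PT.append h3 h2) (PT_winv (PT.snd PT.id')))

theorem t3_flt {S : List Wd × Wd → Bool} (hS : PT S) {L : α → List Wd} {ω : α → V} {T : α → ℕ}
    {z : α → List (Edg V × ℕ)} {vs : α → List V} {cand : α → ℕ → List Wd} (hL : PT L)
    (hω : PT ω) (hT : PT T) (hz : PT z) (hvs : PT vs) (hcand : PT (fun x : α × ℕ => cand x.1 x.2)) :
    PT (fun x : α × (Bool × List Wd) × (Edg V × ℕ) => (cand x.1 (T x.1 - x.2.2.2)).filter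
      (tst S (L x.1) (bs (T x.1) x.2.1.2) (ω x.1) (c0 x.2.1.2) (z x.1) (vs x.1) x.2.2)) := by
  have hp : PT (fun x : α × (Bool × List Wd) × (Edg V × ℕ) => x.2.2) := PT.snd (PT.snd PT.id')
  have hq : PT (fun x : α × (Bool × List Wd) × (Edg V × ℕ) => x.2.1.2) := PT.snd (PT.fst (PT.snd PT.id'))
  have hT' : PT (fun x : α × (Bool × List Wd) × (Edg V × ℕ) => T x.1) := hT.comp (PT.fst PT.id')
  refine PT.filter (p := fun (x : α × (Bool × List Wd) × (Edg V × ℕ)) w =>
    tst S (L x.1) (bs (T x.1) x.2.1.2) (ω x.1) (c0 x.2.1.2) (z x.1) (vs x.1) x.2.2 w)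
    (hcand.comp (PT.pair (PT.fst PT.id') (PT.sub hT' (PT.snd hp)))) ?_
  have hb : PT (fun y : ((α × (Bool × List Wd) × (Edg V × ℕ)) × Wd) × ℕ =>
      bs (T y.1.1.1) y.1.1.2.1.2 y.2) := by
    unfold bs
    exact PT.getD (PT.sub (hT'.comp (PT.fst (PT.fst PT.id'))) (PT.snd PT.id'))
      (hq.comp (PT.fst (PT.fst PT.id'))) (PT.const [])
  have h1 : PT (fun y : (α × (Bool × List Wd) × (Edg V × ℕ)) × Wd => L y.1.1) :=
    hL.comp (PT.fst (PT.fst PT.id'))
  have h2 : PT (fun y : (α × (Bool × List Wd) × (Edg V × ℕ)) × Wd => ω y.1.1) :=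
    hω.comp (PT.fst (PT.fst PT.id'))
  have h3 : PT (fun y : (α × (Bool × List Wd) × (Edg V × ℕ)) × Wd => c0 y.1.2.1.2) := by
    unfold c0
    exact PT.getD (PT.const 0) (hq.comp (PT.fst PT.id')) (PT.const [])
  have h4 : PT (fun y : (α × (Bool × List Wd) × (Edg V × ℕ)) × Wd => z y.1.1) :=
    hz.comp (PT.fst (PT.fst PT.id'))
  have h5 : PT (fun y : (α × (Bool × List Wd) × (Edg V × ℕ)) × Wd => vs y.1.1) :=
    hvs.comp (PT.fst (PT.fst PT.id'))
  have h6 : PT (fun y : (α × (Bool × List Wd) × (Edg V × ℕ)) × Wd => y.1.2.2) :=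
    hp.comp (PT.fst PT.id')
  exact t3_tst hS (b := fun (y : (α × (Bool × List Wd) × (Edg V × ℕ)) × Wd) i =>
    bs (T y.1.1) y.1.2.1.2 i) hb h1 h2 h3 h4 h5 h6 (PT.snd PT.id')

theorem t3_headD (l : List Wd) (p : Wd → Bool) : 2 * sz ((l.filter p).headD []) + 1 ≤ sz l + 1 := by
  cases h : l.filter p with
  | nil =>
    show 2 * sz ([] : Wd) + 1 ≤ sz l + 1
    rw [sz_nil]
    omega
  | cons w m =>
    have h1 : w ∈ l := by
      have h2 : w ∈ l.filter p := by
        rw [h]
        exact List.mem_cons_self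
      exact (List.mem_filter.1 h2).1
    have h3 := sz_mem h1
    show 2 * sz w + 1 ≤ sz l + 1
    omega

theorem t3_run {S : List Wd × Wd → Bool} (hS : PT S) {es : α → List (Edg V)} {s ω : α → V}
    {cand : α → ℕ → List Wd} (hes : PT es) (hs : PT s) (hω : PT ω)
    (hcand : PT (fun x : α × ℕ => cand x.1 x.2)) :
    PT (fun a => run S (es a) (s a) (ω a) (cand a)) := by
  have hL : PT (fun a => labs (es a)) := by
    unfold labs
    exact PT.map (F := fun (_ : α) (e : Edg V) => e.2.2) hes (PT.snd (PT.snd (PT.snd PT.id')))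
  have hvs : PT (fun a => vts (s a) (es a)) := by
    unfold vts
    exact PT.cons hs (PT.map (F := fun (_ : α) (e : Edg V) => e.2.1) hes
      (PT.fst (PT.snd (PT.snd PT.id'))))
  have hz : PT (fun a => (es a).zipIdx) := PT.zipIdx hes
  have hT : PT (fun a => (es a).length) := PT.length hes
  have hflt := t3_flt hS hL hω hT hz hvs hcand
  unfold run
  refine PT.foldl_add (l := fun a => (es a).zipIdx.reverse)
    (f := fun a => st0 S (labs (es a)) (cand a))
    (g := fun a q p => stp S (labs (es a)) (ω a) (es a).length (es a).zipIdx (vts (s a) (es a)) (cand a) q p)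
    (PT.reverse hz) ?_ ?_ ?_
  · have h1 : PT (fun a => (cand a 0).filter (tst0 S (labs (es a)))) := by
      refine PT.filter (p := fun a w => tst0 S (labs (es a)) w)
        (hcand.comp (PT.pair PT.id' (PT.const 0))) ?_
      have h2 : PT (fun q : α × Wd => labs (es q.1)) := hL.comp (PT.fst PT.id')
      unfold tst0
      exact PT.not (hS.comp (PT.pair h2 (PT_winv (PT.snd PT.id'))))
    unfold st0
    exact PT.pair (PT.not (PT.isEmpty h1)) (PT.cons (PT.headD h1 (PT.const [])) (PT.const []))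
  · unfold stp
    exact PT.pair (PT.and (PT.fst (PT.fst (PT.snd PT.id'))) (PT.not (PT.isEmpty hflt)))
      (PT.append (PT.snd (PT.fst (PT.snd PT.id'))) (PT.cons (PT.headD hflt (PT.const [])) (PT.const [])))
  · obtain ⟨e, he⟩ := hT.bound
    obtain ⟨d, hd⟩ := hcand.bound
    refine ⟨fun n => (2 * n + 3 + (n + 2) ^ e) ^ d + 1, ?_, ?_⟩
    · exact PB.add (PB.pow (PB.add (PB.add (PB.mul (PB.const 2) PB.id) (PB.const 3))
        ⟨e, fun _ => le_rfl⟩) d) (PB.const 1)
    · rintro a ⟨q1, q2⟩ b _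
      have h1 : (es a).length ≤ (sz a + 2) ^ e := by
        have h2 := he a
        rwa [sz_nat] at h2
      have h3 : sz (cand a ((es a).length - b.2)) ≤ (2 * sz a + 3 + (sz a + 2) ^ e) ^ d := by
        refine (hd (a, (es a).length - b.2)).trans (Nat.pow_le_pow_left ?_ d)
        rw [sz_pair, sz_nat]
        omega
      have h4 := t3_headD (cand a ((es a).length - b.2))
        (tst S (labs (es a)) (bs (es a).length q2) (ω a) (c0 q2) (es a).zipIdx (vts (s a) (es a)) b)
      show sz (stp S (labs (es a)) (ω a) (es a).length (es a).zipIdx (vts (s a) (es a)) (cand a) (q1, q2) b) ≤ _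
      unfold stp
      rw [sz_pair, sz_pair, sz_bool, sz_bool, sz_append, sz_cons, sz_nil]
      show 2 * 1 + 1 + (sz q2 + (2 * sz (((cand a ((es a).length - b.2)).filter
        (tst S (labs (es a)) (bs (es a).length q2) (ω a) (c0 q2) (es a).zipIdx (vts (s a) (es a)) b)).headD []) + 1 + 0))
        ≤ 2 * 1 + 1 + sz q2 + ((2 * sz a + 3 + (sz a + 2) ^ e) ^ d + 1)
      omega

theorem t3_cdt {N R k : α → ℕ} {ρ : α → List Bool} (hN : PT N) (hR : PT R) (hk : PT k) (hρ : PT ρ) :
    PT (fun a => cdt r (N a) (R a) (ρ a) (k a)) := by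
  unfold cdt
  refine PT.flatMap (F := fun a s => (ys r).map fun y => tw (dic r) (N a) (k a * R a + s) (ρ a) ++ y)
    (PT.range hR) ?_
  refine PT.map (F := fun (q : α × ℕ) y => tw (dic r) (N q.1) (k q.1 * R q.1 + q.2) (ρ q.1) ++ y)
    (PT.const (ys r)) ?_
  have h1 : PT (fun x : (α × ℕ) × Wd => N x.1.1) := hN.comp (PT.fst (PT.fst PT.id'))
  have h2 : PT (fun x : (α × ℕ) × Wd => R x.1.1) := hR.comp (PT.fst (PT.fst PT.id'))
  have h3 : PT (fun x : (α × ℕ) × Wd => k x.1.1) := hk.comp (PT.fst (PT.fst PT.id'))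
  have h4 : PT (fun x : (α × ℕ) × Wd => ρ x.1.1) := hρ.comp (PT.fst (PT.fst PT.id'))
  exact PT.append (PT_tw (dic r) h1 (PT.add (PT.mul h3 h2) (PT.snd (PT.fst PT.id'))) h4) (PT.snd PT.id')

end t3

/-- Row T3 (helper37). -/
theorem PT_runz {X : Fin r → G} (hP : SSP X ∈ P) {f : List Bool → Agi} (hf : IsPolyTime f)
    (N R : Polynomial ℕ) : PT (runz X f (fun n => N.eval n) fun n => R.eval n) := by
  have h0 : PT (fun z : List Bool × List Bool => nrm r (f z.1)) := (T4_nrm hf).comp (PT.fst PT.id')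
  have hl : PT (fun x : (List Bool × List Bool) × ℕ => x.1.1.length) :=
    PT.length (PT.fst (PT.fst PT.id'))
  have hc : PT (fun x : (List Bool × List Bool) × ℕ =>
      cdt r (N.eval x.1.1.length) (R.eval x.1.1.length) x.1.2 x.2) :=
    t3_cdt (PT.poly N hl) (PT.poly R hl) (PT.snd PT.id') (PT.snd (PT.fst PT.id'))
  exact t3_run (PT_orcS hP) (cand := fun (z : List Bool × List Bool) k =>
    cdt r (N.eval z.1.length) (R.eval z.1.length) z.2 k) (PT_rpt (PT.fst h0)) (PT.fst (PT.snd h0))
    (PT.snd (PT.snd h0)) hc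

/-- Row T3 (helper37). -/
theorem PT_ansz {X : Fin r → G} (hP : SSP X ∈ P) {f : List Bool → Agi} (hf : IsPolyTime f)
    (N R : Polynomial ℕ) : PT (ansz X f (fun n => N.eval n) fun n => R.eval n) := by
  have h0 : PT (fun z : List Bool × List Bool => nrm r (f z.1)) := (T4_nrm hf).comp (PT.fst PT.id')
  have hes : PT (fun z : List Bool × List Bool => rpt (nrm r (f z.1)).1) := PT_rpt (PT.fst h0)
  have hr : PT (fun z : List Bool × List Bool =>
      (runz X f (fun n => N.eval n) (fun n => R.eval n) z).2) := PT.snd (PT_runz hP hf N R)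
  have hb : PT (fun x : (List Bool × List Bool) × ℕ => bs (rpt (nrm r (f x.1.1)).1).length
      (runz X f (fun n => N.eval n) (fun n => R.eval n) x.1).2 x.2) := by
    unfold bs
    exact PT.getD (PT.sub ((PT.length hes).comp (PT.fst PT.id')) (PT.snd PT.id'))
      (hr.comp (PT.fst PT.id')) (PT.const [])
  have hc : PT (fun z : List Bool × List Bool =>
      c0 (runz X f (fun n => N.eval n) (fun n => R.eval n) z).2) := by
    unfold c0
    exact PT.getD (PT.const 0) hr (PT.const [])
  exact (PT_orcS hP).comp (PT_query (b := fun (z : List Bool × List Bool) i =>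
    bs (rpt (nrm r (f z.1)).1).length (runz X f (fun n => N.eval n) (fun n => R.eval n) z).2 i)
    hb hc hes (PT.fst (PT.snd h0)) (PT.snd (PT.snd h0)))

end Pool.Agent.AgpSsp
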